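import Mathlib

/-!
# Infinite amplification of operators on a Hilbert space
-/

set_option autoImplicit false

namespace Pool.Agent.H368.Coarse

open scoped InnerProductSpace ENNReal

variable (H : Type*) [NormedAddCommGroup H] [InnerProductSpace ℂ H] [CompleteSpace H]

/-- The Hilbert sum of countably many copies of `H`. -/
abbrev L2 := lp (fun _ : ℕ => H) 2

variable {H}

/-- The inclusion of the `n`-th copy. -/
noncomputable def E (n : ℕ) : H →L[ℂ] L2 H :=
  lp.singleContinuousLinearMap ℂ (fun _ : ℕ => H) 2 n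

/-- The projection to the `n`-th copy. -/
noncomputable def ev (n : ℕ) : L2 H →L[ℂ] H := lp.evalCLM ℂ (fun _ : ℕ => H) 2 n

theorem ev_apply (n : ℕ) (f : L2 H) : ev n f = f n := rfl

theorem E_apply (n : ℕ) (x : H) : (E n x : L2 H) = lp.single 2 n x := rfl

theorem ev_E_self (n : ℕ) (x : H) : ev n (E n x) = x := by
  rw [ev_apply, E_apply, lp.single_apply_self]

theorem ev_E_ne {n m : ℕ} (h : n ≠ m) (x : H) : ev n (E m x) = 0 := by
  rw [ev_apply, E_apply, lp.single_apply_ne _ _ _ h]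

theorem L2_ext {F : Type*} [AddCommMonoid F] [Module ℂ F] [TopologicalSpace F] [T2Space F]
    {S T : L2 H →L[ℂ] F} (h : ∀ n x, S (E n x) = T (E n x)) : S = T := by
  apply lp.ext_continuousLinearMap (by norm_num)
  intro n
  ext x
  exact h n x

theorem adjoint_E (n : ℕ) : ContinuousLinearMap.adjoint (E n : H →L[ℂ] L2 H) = ev n := by
  symm
  rw [ContinuousLinearMap.eq_adjoint_iff]
  intro f x
  rw [E_apply, ev_apply]
  exact (lp.inner_single_right (𝕜 := ℂ) (G := fun _ : ℕ => H) n x f).symm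

theorem adjoint_ev (n : ℕ) : ContinuousLinearMap.adjoint (ev n : L2 H →L[ℂ] H) = E n := by
  rw [← adjoint_E, ContinuousLinearMap.adjoint_adjoint]

/-- The operator which acts as `T` on each copy of `H`. -/
noncomputable def amp (T : H →L[ℂ] H) : L2 H →L[ℂ] L2 H :=
  lp.mapCLM 2 (fun _ => T) (norm_nonneg T) (fun _ => le_rfl)

theorem norm_amp_le (T : H →L[ℂ] H) : ‖amp T‖ ≤ ‖T‖ := lp.norm_mapCLM_le _ _ _ _

theorem amp_apply (T : H →L[ℂ] H) (f : L2 H) (n : ℕ) : amp T f n = T (f n) := rfl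

theorem ev_amp (T : H →L[ℂ] H) (n : ℕ) (f : L2 H) : ev n (amp T f) = T (ev n f) := rfl

theorem amp_E (T : H →L[ℂ] H) (n : ℕ) (x : H) : amp T (E n x) = E n (T x) := by
  ext m
  rw [amp_apply, E_apply, E_apply]
  by_cases h : m = n
  · subst h; rw [lp.single_apply_self, lp.single_apply_self]
  · rw [lp.single_apply_ne _ _ _ h, lp.single_apply_ne _ _ _ h, map_zero]

theorem amp_mul (S T : H →L[ℂ] H) : amp (S * T) = amp S * amp T := by
  ext f n
  rfl

theorem amp_add (S T : H →L[ℂ] H) : amp (S + T) = amp S + amp T := by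
  ext f n
  rfl

theorem amp_smul (c : ℂ) (T : H →L[ℂ] H) : amp (c • T) = c • amp T := by
  ext f n
  rfl

theorem amp_zero : amp (0 : H →L[ℂ] H) = 0 := by
  ext f n
  rfl

theorem inner_E_E {n m : ℕ} (h : n ≠ m) (x y : H) : ⟪(E n x : L2 H), E m y⟫_ℂ = 0 := by
  rw [← adjoint_ev n, ContinuousLinearMap.adjoint_inner_left, ev_E_ne h, inner_zero_right]

theorem inner_E_self (n : ℕ) (x y : H) : ⟪(E n x : L2 H), E n y⟫_ℂ = ⟪x, y⟫_ℂ := by
  rw [← adjoint_ev n, ContinuousLinearMap.adjoint_inner_left, adjoint_ev, ev_E_self]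

/-- The inclusion of the `n`-th copy, as a linear isometry. -/
noncomputable def Ei (n : ℕ) : H →ₗᵢ[ℂ] L2 H where
  toLinearMap := (E n : H →L[ℂ] L2 H).toLinearMap
  norm_map' x := lp.norm_single (p := 2) (E := fun _ : ℕ => H) (by norm_num) n x

theorem Ei_apply (n : ℕ) (x : H) : Ei n x = E n x := rfl

theorem orthogonal_shift : OrthogonalFamily ℂ (fun _ : ℕ => H) (fun n => (Ei (n + 1) : H →ₗᵢ[ℂ] L2 H)) := by
  intro n m h x y
  exact inner_E_E (by omega) x y

/-- The shift. -/
noncomputable def sh : L2 H →L[ℂ] L2 H :=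
  (orthogonal_shift (H := H)).linearIsometry.toContinuousLinearMap

theorem sh_E (n : ℕ) (x : H) : sh (E n x) = E (n + 1) x :=
  (orthogonal_shift (H := H)).linearIsometry_apply_single x

/-- The adjoint of the shift. -/
noncomputable def sh' : L2 H →L[ℂ] L2 H := ContinuousLinearMap.adjoint sh

theorem sh'_sh_apply (f : L2 H) : sh' (sh f) = f := by
  apply ext_inner_right ℂ
  intro g
  rw [sh', ContinuousLinearMap.adjoint_inner_left]
  exact (orthogonal_shift (H := H)).linearIsometry.inner_map_map f g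

theorem sh'_sh : (sh' * sh : L2 H →L[ℂ] L2 H) = 1 := by
  ext1 f
  rw [mul_apply_eq_comp, sh'_sh_apply, one_apply_eq_self]

theorem sh'_E_succ (n : ℕ) (x : H) : sh' (E (n + 1) x) = E n x := by
  rw [← sh_E, sh'_sh_apply]

theorem ev_zero_sh (f : L2 H) : ev 0 (sh f) = 0 := by
  have : (ev 0 ∘L sh : L2 H →L[ℂ] H) = 0 := by
    apply L2_ext
    intro n x
    show ev 0 (sh (E n x)) = 0
    rw [sh_E, ev_E_ne (by omega)]
  exact DFunLike.congr_fun this f

theorem sh'_E_zero (x : H) : sh' (E 0 x) = 0 := by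
  apply ext_inner_right ℂ
  intro g
  rw [sh', ContinuousLinearMap.adjoint_inner_left, ← adjoint_ev, inner_zero_left,
    ContinuousLinearMap.adjoint_inner_left, ev_zero_sh, inner_zero_right]

theorem amp_decomp (T : H →L[ℂ] H) :
    (E 0 ∘L T ∘L ev 0 : L2 H →L[ℂ] L2 H) + sh * amp T * sh' = amp T := by
  apply L2_ext
  intro n x
  rw [add_apply, ContinuousLinearMap.comp_apply,
    ContinuousLinearMap.comp_apply, mul_apply_eq_comp, mul_apply_eq_comp]
  rcases n with _ | n
  · rw [ev_E_self, sh'_E_zero, map_zero, map_zero, add_zero, amp_E]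
  · rw [ev_E_ne (by omega), map_zero, map_zero, zero_add, sh'_E_succ, amp_E, sh_E, amp_E]

end Pool.Agent.H368.Coarse
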