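import Pool.Agent.H368.WC.ConeFlasque

/-!
# The Bernoulli action of the free group on `[0, 1]^{F₂}`
-/

set_option autoImplicit false

namespace Pool.Agent.H368.WC

open MeasureTheory Filter Topology
open scoped ENNReal NNReal

/-- The free group of rank two. -/
abbrev F2 : Type := FreeGroup (Fin 2)

/-- The compact space `[0, 1]^{F₂}`. -/
def Bern : Type := F2 → unitInterval

namespace Bern

noncomputable instance : TopologicalSpace Bern := inferInstanceAs (TopologicalSpace (F2 → unitInterval))

instance : CompactSpace Bern := inferInstanceAs (CompactSpace (F2 → unitInterval))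

noncomputable instance : MeasurableSpace Bern := inferInstanceAs (MeasurableSpace (F2 → unitInterval))

instance : BorelSpace Bern := inferInstanceAs (BorelSpace (F2 → unitInterval))

instance : Nonempty Bern := inferInstanceAs (Nonempty (F2 → unitInterval))

/-- The weights. -/
noncomputable def w (g : F2) : ℝ := (1 / 2) ^ g.norm

theorem w_pos (g : F2) : 0 < w g := by unfold w; positivity

theorem w_le_one (g : F2) : w g ≤ 1 := pow_le_one₀ (by norm_num) (by norm_num)

theorem abs_le_one (a b : unitInterval) : |(a : ℝ) - b| ≤ 1 := by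
  have h1 := a.2.1
  have h2 := a.2.2
  have h3 := b.2.1
  have h4 := b.2.2
  rw [abs_le]
  constructor <;> linarith

/-- The weighted supremum distance. -/
noncomputable def D (x y : Bern) : ℝ := ⨆ g : F2, w g * |(x g : ℝ) - y g|

theorem term_le_one (x y : Bern) (g : F2) : w g * |(x g : ℝ) - y g| ≤ 1 :=
  mul_le_one₀ (w_le_one g) (abs_nonneg _) (abs_le_one _ _)

theorem bdd (x y : Bern) : BddAbove (Set.range fun g : F2 => w g * |(x g : ℝ) - y g|) :=
  ⟨1, by rintro _ ⟨g, rfl⟩; exact term_le_one x y g⟩

theorem term_le_D (x y : Bern) (g : F2) : w g * |(x g : ℝ) - y g| ≤ D x y := le_ciSup (bdd x y) g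

theorem D_le {x y : Bern} {C : ℝ} (h : ∀ g, w g * |(x g : ℝ) - y g| ≤ C) : D x y ≤ C := ciSup_le h

theorem D_self (x : Bern) : D x x = 0 := by
  unfold D
  simp

theorem D_comm (x y : Bern) : D x y = D y x := by
  unfold D
  simp only [abs_sub_comm]

theorem D_triangle (x y z : Bern) : D x z ≤ D x y + D y z := by
  apply D_le
  intro g
  have h1 : w g * |(x g : ℝ) - z g| ≤ w g * |(x g : ℝ) - y g| + w g * |(y g : ℝ) - z g| := by
    rw [← mul_add]
    have := (w_pos g).le
    gcongr
    exact abs_sub_le _ _ _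
  exact h1.trans (add_le_add (term_le_D _ _ _) (term_le_D _ _ _))

theorem D_eq_zero {x y : Bern} (h : D x y = 0) : x = y := by
  funext g
  have h1 := term_le_D x y g
  rw [h] at h1
  have h2 := w_pos g
  have h3 := abs_nonneg ((x g : ℝ) - y g)
  have h4 : |(x g : ℝ) - y g| = 0 := by nlinarith
  have h5 : (x g : ℝ) = y g := by linarith [abs_eq_zero.1 h4]
  exact Subtype.ext h5

/-- The metric. -/
@[reducible] noncomputable def preMetric : MetricSpace Bern where
  dist := D
  dist_self := D_self
  dist_comm := D_comm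
  dist_triangle := D_triangle
  eq_of_dist_eq_zero := D_eq_zero

/-- A copy of the space with the topology of the metric. -/
def BernM : Type := Bern

noncomputable instance : MetricSpace BernM := preMetric

/-- The identity. -/
def toM (x : Bern) : BernM := x

theorem dist_toM (x y : Bern) : dist (toM x) (toM y) = D x y := rfl

theorem finite_norm_le (n : ℕ) : {g : F2 | g.norm ≤ n}.Finite :=
  (List.finite_length_le (Fin 2 × Bool) n).preimage FreeGroup.toWord_injective.injOn

theorem continuous_eval (g : F2) : Continuous fun x : Bern => (x g : ℝ) := by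
  have : Continuous fun x : F2 → unitInterval => (x g : ℝ) := by fun_prop
  exact this

theorem continuous_toM : Continuous toM := by
  rw [Metric.continuous_iff']
  intro x ε hε
  obtain ⟨n, hn⟩ := exists_pow_lt_of_lt_one (show 0 < ε / 2 by positivity)
    (show (1 / 2 : ℝ) < 1 by norm_num)
  have h1 : ∀ᶠ y in 𝓝 x, ∀ g ∈ {g : F2 | g.norm ≤ n}, |(y g : ℝ) - x g| < ε / 2 := by
    rw [eventually_all_finite (finite_norm_le n)]
    intro g _
    have h2 := (continuous_eval g).tendsto x
    rw [Metric.tendsto_nhds] at h2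
    exact h2 (ε / 2) (by positivity)
  filter_upwards [h1] with y hy
  rw [dist_toM]
  have h3 : D y x ≤ ε / 2 := by
    apply D_le
    intro g
    by_cases hg : g.norm ≤ n
    · have h4 := hy g hg
      have h5 := w_le_one g
      have h6 := (w_pos g).le
      have h7 := abs_nonneg ((y g : ℝ) - x g)
      nlinarith
    · have h4 : w g ≤ (1 / 2) ^ n := by
        unfold w
        exact pow_le_pow_of_le_one (by norm_num) (by norm_num) (not_le.1 hg).le
      have h5 := abs_le_one (y g) (x g)
      have h6 := (w_pos g).le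
      have h7 := abs_nonneg ((y g : ℝ) - x g)
      nlinarith
  linarith

theorem topology_eq : (inferInstanceAs (TopologicalSpace Bern)) =
    preMetric.toUniformSpace.toTopologicalSpace := by
  have hcl : IsClosedMap toM := continuous_toM.isClosedMap
  apply TopologicalSpace.ext_iff_isClosed.2
  intro s
  constructor
  · intro h
    have h1 := hcl s h
    have h2 : toM '' s = s := Set.image_id s
    rw [h2] at h1
    exact h1
  · intro h
    have h1 : IsClosed (toM ⁻¹' s) := IsClosed.preimage continuous_toM h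
    exact h1

noncomputable instance : MetricSpace Bern := preMetric.replaceTopology topology_eq

theorem dist_def (x y : Bern) : dist x y = D x y := rfl

theorem dist_le_one (x y : Bern) : dist x y ≤ 1 := by
  rw [dist_def]
  exact D_le (term_le_one x y)

/-- The shift action. -/
instance : MulAction F2 Bern where
  smul h x := fun g => x (h⁻¹ * g)
  one_smul x := by
    funext g
    show x (1⁻¹ * g) = x g
    rw [inv_one, one_mul]
  mul_smul h k x := by
    funext g
    show x ((h * k)⁻¹ * g) = x (k⁻¹ * (h⁻¹ * g))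
    rw [mul_inv_rev, mul_assoc]

theorem smul_apply (h : F2) (x : Bern) (g : F2) : (h • x) g = x (h⁻¹ * g) := rfl

theorem w_le (h g : F2) : w g ≤ 2 ^ h.norm * w (h⁻¹ * g) := by
  have h1 := FreeGroup.norm_mul_le h⁻¹ g
  rw [FreeGroup.norm_inv_eq] at h1
  have h2 : (1 / 2 : ℝ) ^ (h.norm + g.norm) ≤ w (h⁻¹ * g) := by
    unfold w
    exact pow_le_pow_of_le_one (by norm_num) (by norm_num) h1
  have h3 : w g = 2 ^ h.norm * (1 / 2 : ℝ) ^ (h.norm + g.norm) := by
    unfold w
    rw [pow_add, ← mul_assoc, ← mul_pow]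
    norm_num
  rw [h3]
  gcongr

theorem lipschitz (h : F2) : ∃ K : ℝ≥0, LipschitzWith K (fun x : Bern => h • x) := by
  refine ⟨2 ^ h.norm, LipschitzWith.of_dist_le_mul fun x y => ?_⟩
  rw [dist_def, dist_def]
  apply D_le
  intro g
  rw [smul_apply, smul_apply]
  have h1 := term_le_D x y (h⁻¹ * g)
  have h2 := w_le h g
  have h3 := abs_nonneg ((x (h⁻¹ * g) : ℝ) - y (h⁻¹ * g))
  have h4 : (0 : ℝ) < 2 ^ h.norm := by positivity
  push_cast
  calc w g * |(x (h⁻¹ * g) : ℝ) - y (h⁻¹ * g)|
      ≤ (2 ^ h.norm * w (h⁻¹ * g)) * |(x (h⁻¹ * g) : ℝ) - y (h⁻¹ * g)| := by gcongr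
    _ = 2 ^ h.norm * (w (h⁻¹ * g) * |(x (h⁻¹ * g) : ℝ) - y (h⁻¹ * g)|) := by ring
    _ ≤ 2 ^ h.norm * D x y := by gcongr

/-- The contractions. -/
noncomputable def contr (a : ℝ) (x : Bern) : Bern :=
  fun g => Set.projIcc (0 : ℝ) 1 zero_le_one (a * x g)

theorem contr_apply {a : ℝ} (h0 : 0 < a) (h1 : a ≤ 1) (x : Bern) (g : F2) :
    (contr a x g : ℝ) = a * x g := by
  have h2 := (x g).2.1
  have h3 := (x g).2.2
  have h4 : a * (x g : ℝ) ∈ Set.Icc (0 : ℝ) 1 := ⟨by positivity, by nlinarith⟩
  unfold contr
  rw [Set.projIcc_of_mem _ h4]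

theorem contr_one (x : Bern) : contr 1 x = x := by
  funext g
  apply Subtype.ext
  rw [contr_apply one_pos le_rfl, one_mul]

theorem dist_contr {a : ℝ} (h0 : 0 < a) (h1 : a ≤ 1) (x y : Bern) :
    dist (contr a x) (contr a y) = a * dist x y := by
  rw [dist_def, dist_def]
  unfold D
  rw [Real.mul_iSup_of_nonneg h0.le]
  congr 1
  funext g
  rw [contr_apply h0 h1, contr_apply h0 h1, ← mul_sub, abs_mul, abs_of_pos h0]
  ring

theorem dist_contr_contr {a b : ℝ} (h0 : 0 < a) (h1 : a ≤ 1) (h0' : 0 < b) (h1' : b ≤ 1)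
    (x : Bern) : dist (contr a x) (contr b x) ≤ |a - b| := by
  rw [dist_def]
  apply D_le
  intro g
  rw [contr_apply h0 h1, contr_apply h0' h1', ← sub_mul, abs_mul]
  have h2 := (x g).2.1
  have h3 := (x g).2.2
  have h4 := w_le_one g
  have h5 := (w_pos g).le
  rw [abs_of_nonneg h2]
  have h6 : |a - b| * (x g : ℝ) ≤ |a - b| := by
    have := abs_nonneg (a - b)
    nlinarith
  have h7 : 0 ≤ |a - b| * (x g : ℝ) := by positivity
  nlinarith

theorem contr_smul (a : ℝ) (h : F2) (x : Bern) : contr a (h • x) = h • contr a x := rfl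

/-- The product measure. -/
noncomputable def μ : Measure Bern := Measure.infinitePi (fun _ : F2 => (volume : Measure unitInterval))

instance : IsProbabilityMeasure μ :=
  inferInstanceAs (IsProbabilityMeasure (Measure.infinitePi
    (fun _ : F2 => (volume : Measure unitInterval))))

theorem measurePreserving_smul (h : F2) : MeasurePreserving (fun x : Bern => h • x) μ μ := by
  have h1 := Measure.infinitePi_map_piCongrLeft (X := fun _ : F2 => unitInterval)
    (fun _ : F2 => (volume : Measure unitInterval)) (Equiv.mulLeft h)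
  have h2 : (fun x : Bern => h • x) =
      (MeasurableEquiv.piCongrLeft (fun _ : F2 => unitInterval) (Equiv.mulLeft h)) := by
    funext x g
    rw [MeasurableEquiv.coe_piCongrLeft]
    have h3 : g = Equiv.mulLeft h (h⁻¹ * g) := by simp
    conv_rhs => rw [h3]
    rw [Equiv.piCongrLeft_apply_apply]
    rfl
  refine ⟨?_, ?_⟩
  · rw [h2]
    exact MeasurableEquiv.measurable _
  · rw [h2]
    exact h1

end Bern

end Pool.Agent.H368.WC
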