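import Pool.Agent.H368.WC.BernMeas

/-!
# The cosine basis of `L²([0, 1]^{F₂})`
-/

set_option autoImplicit false

namespace Pool.Agent.H368.WC.Bern

open MeasureTheory Filter Topology
open scoped ENNReal NNReal InnerProductSpace

/-- The function `cos (n π t)`. -/
noncomputable def cs (n : ℕ) (t : unitInterval) : ℝ := Real.cos (n * Real.pi * t)

theorem continuous_cs (n : ℕ) : Continuous (cs n) := by
  unfold cs
  fun_prop

theorem cs_zero (t : unitInterval) : cs 0 t = 1 := by
  unfold cs
  simp

theorem integral_cs (n : ℕ) : ∫ t, cs n t = if n = 0 then (1 : ℝ) else 0 := by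
  split_ifs with h
  · subst h
    simp only [cs_zero]
    simp
  · have h1 : ∫ t, cs n t = ∫ t in Set.Icc (0 : ℝ) 1, Real.cos (n * Real.pi * t) :=
      unitInterval.measurePreserving_coe.integral_comp unitInterval.measurableEmbedding_coe
        (fun t : ℝ => Real.cos (n * Real.pi * t))
    rw [h1, integral_Icc_eq_integral_Ioc, ← intervalIntegral.integral_of_le zero_le_one,
      intervalIntegral.integral_comp_mul_left (fun x => Real.cos x) (by positivity)]
    rw [integral_cos]
    simp [Real.sin_nat_mul_pi]

theorem cs_mul_cs (m n : ℕ) (t : unitInterval) :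
    cs m t * cs n t = (cs (m + n) t + cs (max m n - min m n) t) / 2 := by
  have key : ∀ a b : ℕ, a ≤ b → cs a t * cs b t = (cs (a + b) t + cs (b - a) t) / 2 := by
    intro a b hab
    unfold cs
    have h1 : ((b - a : ℕ) : ℝ) = b - a := by push_cast [hab]; ring
    have h2 : (a + b : ℕ) * Real.pi * (t : ℝ) = a * Real.pi * t + b * Real.pi * t := by
      push_cast; ring
    have h3 : ((b - a : ℕ) : ℝ) * Real.pi * (t : ℝ) = b * Real.pi * t - a * Real.pi * t := by
      rw [h1]; ring
    rw [h2, h3, Real.cos_add, Real.cos_sub]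
    ring
  rcases le_total m n with h | h
  · rw [max_eq_right h, min_eq_left h]
    exact key m n h
  · rw [max_eq_left h, min_eq_right h, mul_comm, add_comm m n]
    exact key n m h

theorem integral_cs_mul (m n : ℕ) :
    ∫ t, cs m t * cs n t = if m = n then (if m = 0 then (1 : ℝ) else 1 / 2) else 0 := by
  simp only [cs_mul_cs]
  have hi : ∀ k, Integrable (cs k) (volume : Measure unitInterval) := fun k =>
    (continuous_cs k).integrable_of_hasCompactSupport (HasCompactSupport.of_compactSpace _)
  rw [integral_div, integral_add (hi _) (hi _), integral_cs, integral_cs]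
  by_cases h : m = n
  · subst h
    by_cases h0 : m = 0
    · subst h0
      simp
    · simp [h0]
  · rw [if_neg h, if_neg (by omega), if_neg (by omega)]
    simp

/-- The products of cosines. -/
noncomputable def u (k : F2 →₀ ℕ) (x : Bern) : ℝ := k.prod fun g n => cs n (x g)

theorem u_eq (k : F2 →₀ ℕ) (F : Finset F2) (hF : k.support ⊆ F) (x : Bern) :
    u k x = ∏ g ∈ F, cs (k g) (x g) := by
  unfold u
  exact Finsupp.prod_of_support_subset k hF _ fun g _ => cs_zero _

theorem continuous_cs_eval (n : ℕ) (g : F2) : Continuous fun x : Bern => cs n (x g) := by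
  have h1 : Continuous fun x : F2 → unitInterval => x g := continuous_apply g
  exact (continuous_cs n).comp h1

theorem continuous_u (k : F2 →₀ ℕ) : Continuous (u k) := by
  have : u k = fun x => ∏ g ∈ k.support, cs (k g) (x g) := by
    funext x
    exact u_eq k _ le_rfl x
  rw [this]
  exact continuous_finsetProd _ fun g _ => continuous_cs_eval _ _

theorem integral_prod (F : Finset F2) (f : F2 → unitInterval → ℝ) (hf : ∀ g, Continuous (f g)) :
    ∫ x : Bern, ∏ g ∈ F, f g (x g) ∂μ = ∏ g ∈ F, ∫ t, f g t := by
  have h1 := integral_restrict_infinitePi (X := fun _ : F2 => unitInterval)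
    (μ := fun _ : F2 => (volume : Measure unitInterval)) (s := F)
    (f := fun y : (F → unitInterval) => ∏ g : F, f g (y g)) (by
      apply Continuous.aestronglyMeasurable
      have := hf
      fun_prop)
  have h2 : ∀ x : Bern, ∏ g : F, f g (Finset.restrict F x g) = ∏ g ∈ F, f g (x g) := by
    intro x
    exact Finset.prod_coe_sort F (fun g => f g (x g))
  have h3 : ∫ x : Bern, ∏ g ∈ F, f g (x g) ∂μ =
      ∫ x : Bern, ∏ g : F, f g (Finset.restrict F x g) ∂μ := by
    simp only [h2]
  rw [h3]
  refine h1.trans ?_
  rw [integral_fintype_prod_eq_prod (𝕜 := ℝ) (fun (g : F) t => f g t)]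
  exact Finset.prod_coe_sort F (fun g => ∫ t, f g t)

theorem integral_u_mul (k l : F2 →₀ ℕ) :
    ∫ x, u k x * u l x ∂μ = if k = l then (1 / 2 : ℝ) ^ k.support.card else 0 := by
  classical
  let F := k.support ∪ l.support
  have h1 : ∀ x, u k x * u l x = ∏ g ∈ F, (cs (k g) (x g) * cs (l g) (x g)) := by
    intro x
    rw [u_eq k F Finset.subset_union_left, u_eq l F Finset.subset_union_right,
      Finset.prod_mul_distrib]
  simp only [h1]
  rw [integral_prod F (fun g t => cs (k g) t * cs (l g) t)
    (fun g => (continuous_cs _).mul (continuous_cs _))]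
  simp only [integral_cs_mul]
  split_ifs with h
  · subst h
    have h2 : F = k.support := Finset.union_self _
    rw [h2]
    have h3 : ∀ g ∈ k.support, (if k g = k g then (if k g = 0 then (1 : ℝ) else 1 / 2) else 0) =
        1 / 2 := by
      intro g hg
      rw [if_pos rfl, if_neg (Finsupp.mem_support_iff.1 hg)]
    rw [Finset.prod_congr rfl h3, Finset.prod_const]
  · obtain ⟨g, hg⟩ : ∃ g, k g ≠ l g := by
      by_contra hc
      push Not at hc
      exact h (Finsupp.ext hc)
    apply Finset.prod_eq_zero (i := g)
    · by_contra hc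
      rw [Finset.notMem_union, Finsupp.notMem_support_iff, Finsupp.notMem_support_iff] at hc
      exact hg (hc.1.trans hc.2.symm)
    · rw [if_neg hg]

end Pool.Agent.H368.WC.Bern
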