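import Pool.Agent.H368.WC.BernBasis

/-!
# Completeness of the cosine basis
-/

set_option autoImplicit false

namespace Pool.Agent.H368.WC.Bern

open MeasureTheory Filter Topology
open scoped ENNReal NNReal InnerProductSpace ComplexConjugate

/-- The product of cosines as a complex continuous function. -/
noncomputable def uC (k : F2 →₀ ℕ) : C(Bern, ℂ) :=
  ⟨fun x => (u k x : ℂ), Complex.continuous_ofReal.comp (continuous_u k)⟩

/-- The cosine of a coordinate as a complex continuous function. -/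
noncomputable def gC (n : ℕ) (g : F2) : C(Bern, ℂ) :=
  ⟨fun x => (cs n (x g) : ℂ), Complex.continuous_ofReal.comp (continuous_cs_eval n g)⟩

theorem u_erase_add (k : F2 →₀ ℕ) (g : F2) (m : ℕ) (x : Bern) :
    u (k.erase g + Finsupp.single g m) x = u (k.erase g) x * cs m (x g) := by
  classical
  have h2 : (Finsupp.single g m).prod (fun g n => cs n (x g)) = cs m (x g) :=
    Finsupp.prod_single_index (cs_zero _)
  rw [← h2]
  unfold u
  apply Finsupp.prod_add_index_of_disjoint
  rw [Finset.disjoint_left]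
  intro a ha hb
  have h1 : a = g := by
    have := Finsupp.support_single_subset hb
    simpa using this
  subst h1
  simp at ha

theorem uC_mul_gC (k : F2 →₀ ℕ) (n : ℕ) (g : F2) : ∃ k1 k2 : F2 →₀ ℕ,
    uC k * gC n g = (1 / 2 : ℂ) • (uC k1 + uC k2) := by
  refine ⟨k.erase g + Finsupp.single g (k g + n),
    k.erase g + Finsupp.single g (max (k g) n - min (k g) n), ?_⟩
  ext x
  show (u k x : ℂ) * (cs n (x g) : ℂ) = (1 / 2 : ℂ) * ((u _ x : ℂ) + (u _ x : ℂ))
  rw [u_erase_add, u_erase_add]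
  have h1 : u k x = u (k.erase g) x * cs (k g) (x g) := by
    rw [← u_erase_add, Finsupp.erase_add_single]
  rw [h1]
  have h2 := cs_mul_cs (k g) n (x g)
  have h3 : ((cs (k g) (x g) * cs n (x g) : ℝ) : ℂ) =
      (((cs (k g + n) (x g) + cs (max (k g) n - min (k g) n) (x g)) / 2 : ℝ) : ℂ) := by rw [h2]
  push_cast at h3 ⊢
  rw [mul_assoc, h3]
  ring

/-- The span of the products of cosines. -/
noncomputable def Sp : Submodule ℂ C(Bern, ℂ) := Submodule.span ℂ (Set.range uC)

theorem mul_gC_mem (n : ℕ) (g : F2) {f : C(Bern, ℂ)} (hf : f ∈ Sp) : f * gC n g ∈ Sp := by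
  induction hf using Submodule.span_induction with
  | mem f hf =>
    obtain ⟨k, rfl⟩ := hf
    obtain ⟨k1, k2, h⟩ := uC_mul_gC k n g
    rw [h]
    exact Submodule.smul_mem _ _ (add_mem (Submodule.subset_span ⟨k1, rfl⟩)
      (Submodule.subset_span ⟨k2, rfl⟩))
  | zero => rw [zero_mul]; exact zero_mem _
  | add f f' _ _ h h' => rw [add_mul]; exact add_mem h h'
  | smul c f _ h => rw [smul_mul_assoc]; exact Submodule.smul_mem _ _ h

theorem star_mem {f : C(Bern, ℂ)} (hf : f ∈ Sp) : star f ∈ Sp := by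
  induction hf using Submodule.span_induction with
  | mem f hf =>
    obtain ⟨k, rfl⟩ := hf
    have : star (uC k) = uC k := by
      ext x
      show conj ((u k x : ℂ)) = (u k x : ℂ)
      exact Complex.conj_ofReal _
    rw [this]
    exact Submodule.subset_span ⟨k, rfl⟩
  | zero => rw [star_zero]; exact zero_mem _
  | add f f' _ _ h h' => rw [star_add]; exact add_mem h h'
  | smul c f _ h => rw [star_smul]; exact Submodule.smul_mem _ _ h

/-- The star algebra generated by the cosines. -/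
noncomputable def Al : StarSubalgebra ℂ C(Bern, ℂ) :=
  StarAlgebra.adjoin ℂ {f | ∃ n g, f = gC n g}

theorem mul_mem_of_Al {f : C(Bern, ℂ)} (hf : f ∈ Al) : ∀ h ∈ Sp, h * f ∈ Sp := by
  induction hf using StarAlgebra.adjoin_induction with
  | mem f hf =>
    obtain ⟨n, g, rfl⟩ := hf
    intro h hh
    exact mul_gC_mem n g hh
  | algebraMap r =>
    intro h hh
    rw [mul_comm, ← Algebra.smul_def]
    exact Submodule.smul_mem _ _ hh
  | add f f' _ _ h h' =>
    intro x hx
    rw [mul_add]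
    exact add_mem (h x hx) (h' x hx)
  | mul f f' _ _ h h' =>
    intro x hx
    rw [← mul_assoc]
    exact h' _ (h x hx)
  | star f _ h =>
    intro x hx
    have h1 := star_mem (h _ (star_mem hx))
    rw [star_mul, star_star, mul_comm] at h1
    exact h1

theorem one_mem_Sp : (1 : C(Bern, ℂ)) ∈ Sp := by
  have : (1 : C(Bern, ℂ)) = uC 0 := by
    ext x
    show (1 : ℂ) = ((u 0 x : ℝ) : ℂ)
    unfold u
    simp
  rw [this]
  exact Submodule.subset_span ⟨0, rfl⟩

theorem Al_le_Sp {f : C(Bern, ℂ)} (hf : f ∈ Al) : f ∈ Sp := by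
  have := mul_mem_of_Al hf 1 one_mem_Sp
  rwa [one_mul] at this

theorem separates : Al.SeparatesPoints := by
  intro x y hxy
  obtain ⟨g, hg⟩ : ∃ g, x g ≠ y g := by
    by_contra hc
    push Not at hc
    exact hxy (funext hc)
  refine ⟨gC 1 g, ⟨gC 1 g, StarAlgebra.subset_adjoin ℂ _ ⟨1, g, rfl⟩, rfl⟩, ?_⟩
  intro h
  have h1 : (cs 1 (x g) : ℂ) = (cs 1 (y g) : ℂ) := h
  have h2 : cs 1 (x g) = cs 1 (y g) := by exact_mod_cast h1
  unfold cs at h2
  have hp := Real.pi_pos
  have hx := (x g).2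
  have hy := (y g).2
  have h3 := Real.injOn_cos (x₁ := ((1 : ℕ) : ℝ) * Real.pi * (x g : ℝ))
    (x₂ := ((1 : ℕ) : ℝ) * Real.pi * (y g : ℝ))
    ⟨by have := hx.1; positivity, by have := hx.2; push_cast; nlinarith⟩
    ⟨by have := hy.1; positivity, by have := hy.2; push_cast; nlinarith⟩ h2
  apply hg
  apply Subtype.ext
  push_cast at h3
  rw [one_mul] at h3
  exact mul_left_cancel₀ hp.ne' h3

theorem dense_Sp : Dense (Sp : Set C(Bern, ℂ)) := by
  have h1 := ContinuousMap.starSubalgebra_topologicalClosure_eq_top_of_separatesPoints Al separates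
  have h2 : Dense (Al : Set C(Bern, ℂ)) := by
    rw [dense_iff_closure_eq, ← StarSubalgebra.topologicalClosure_coe, h1]
    rfl
  exact h2.mono fun f hf => Al_le_Sp hf

/-- The norm constants. -/
noncomputable def nc (k : F2 →₀ ℕ) : ℝ := (Real.sqrt 2) ^ k.support.card

theorem nc_pos (k : F2 →₀ ℕ) : 0 < nc k := by unfold nc; positivity

/-- The orthonormal basis, as a family. -/
noncomputable def ev (k : F2 →₀ ℕ) : Lp ℂ 2 μ :=
  (nc k : ℂ) • ContinuousMap.toLp (E := ℂ) 2 μ ℂ (uC k)

theorem orthonormal_ev : Orthonormal ℂ ev := by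
  classical
  rw [orthonormal_iff_ite]
  intro k l
  unfold ev
  rw [inner_smul_left, inner_smul_right, ContinuousMap.inner_toLp]
  have h1 : ∫ x, (uC l x) * conj (uC k x) ∂μ = ((∫ x, u k x * u l x ∂μ : ℝ) : ℂ) := by
    rw [← integral_complex_ofReal]
    congr 1
    funext x
    show (u l x : ℂ) * conj (u k x : ℂ) = _
    rw [Complex.conj_ofReal]
    push_cast
    ring
  rw [h1, integral_u_mul, Complex.conj_ofReal]
  split_ifs with h
  · subst h
    have h2 : nc k * (nc k * (1 / 2 : ℝ) ^ k.support.card) = 1 := by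
      unfold nc
      rw [← mul_assoc, ← mul_pow, Real.mul_self_sqrt (by norm_num), ← mul_pow]
      norm_num
    exact_mod_cast h2
  · simp

theorem span_ev : ⊤ ≤ (Submodule.span ℂ (Set.range ev)).topologicalClosure := by
  have h0 : Dense (Submodule.span ℂ (Set.range ev) : Set (Lp ℂ 2 μ)) := by
    have h1 : DenseRange (ContinuousMap.toLp (E := ℂ) 2 μ ℂ) :=
      ContinuousMap.toLp_denseRange ℂ μ ℂ (by norm_num)
    have h2 := h1.dense_image (ContinuousLinearMap.continuous _) dense_Sp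
    refine h2.mono ?_
    rintro _ ⟨f, hf, rfl⟩
    have hf' : f ∈ Submodule.span ℂ (Set.range uC) := hf
    clear hf
    induction hf' using Submodule.span_induction with
    | mem f hf =>
      obtain ⟨k, rfl⟩ := hf
      have h3 : ContinuousMap.toLp (E := ℂ) 2 μ ℂ (uC k) = ((nc k : ℂ)⁻¹) • ev k := by
        unfold ev
        rw [smul_smul, inv_mul_cancel₀ (by exact_mod_cast (nc_pos k).ne'), one_smul]
      rw [h3]
      exact Submodule.smul_mem _ _ (Submodule.subset_span ⟨k, rfl⟩)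
    | zero => rw [map_zero]; exact zero_mem _
    | add f f' _ _ h h' =>
      rw [map_add]
      exact add_mem h h'
    | smul c f _ h =>
      rw [map_smul]
      exact Submodule.smul_mem _ _ h
  intro x _
  exact h0 x

/-- The orthonormal basis. -/
noncomputable def hb : HilbertBasis (F2 →₀ ℕ) ℂ (Lp ℂ 2 μ) :=
  HilbertBasis.mk orthonormal_ev span_ev

theorem hb_apply (k : F2 →₀ ℕ) : hb k = ev k := by
  unfold hb
  rw [HilbertBasis.coe_mk]

/-- Translation of the indices. -/
noncomputable def tr (h : F2) (k : F2 →₀ ℕ) : F2 →₀ ℕ := Finsupp.equivMapDomain (Equiv.mulLeft h) k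

theorem tr_apply (h : F2) (k : F2 →₀ ℕ) (g : F2) : tr h k g = k (h⁻¹ * g) := rfl

theorem u_tr (h : F2) (k : F2 →₀ ℕ) (x : Bern) : u (tr h k) x = u k (h⁻¹ • x) := by
  unfold u tr
  rw [Finsupp.prod_equivMapDomain]
  unfold Finsupp.prod
  refine Finset.prod_congr rfl fun g _ => ?_
  have h1 : (h⁻¹ • x) g = x (h * g) := by
    rw [smul_apply, inv_inv]
  show cs (k g) (x (h * g)) = cs (k g) ((h⁻¹ • x) g)
  rw [h1]

theorem nc_tr (h : F2) (k : F2 →₀ ℕ) : nc (tr h k) = nc k := by
  unfold nc tr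
  congr 1
  show (k.support.map (Equiv.mulLeft h).toEmbedding).card = _
  rw [Finset.card_map]

/-- The Koopman operators. -/
noncomputable def kp (h : F2) : Lp ℂ 2 μ →ₗᵢ[ℂ] Lp ℂ 2 μ :=
  Lp.compMeasurePreservingₗᵢ ℂ (fun x : Bern => h⁻¹ • x) (measurePreserving_smul h⁻¹)

theorem kp_ae (h : F2) (f : Lp ℂ 2 μ) : kp h f =ᵐ[μ] fun x => f (h⁻¹ • x) :=
  Lp.coeFn_compMeasurePreserving f (measurePreserving_smul h⁻¹)

theorem kp_ev (h : F2) (k : F2 →₀ ℕ) : kp h (ev k) = ev (tr h k) := by
  have h0 : ∀ k, ev k =ᵐ[μ] fun x => (nc k : ℂ) * (u k x : ℂ) := by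
    intro k
    unfold ev
    filter_upwards [Lp.coeFn_smul (nc k : ℂ) (ContinuousMap.toLp (E := ℂ) 2 μ ℂ (uC k)),
      ContinuousMap.coeFn_toLp (𝕜 := ℂ) (p := 2) μ (uC k)] with x h1 h2
    rw [h1, Pi.smul_apply, h2]
    rfl
  apply Lp.ext
  have h1 := (measurePreserving_smul h⁻¹).quasiMeasurePreserving.ae (h0 k)
  filter_upwards [kp_ae h (ev k), h1, h0 (tr h k)] with x h2 h3 h4
  rw [h2, h3, h4, nc_tr, u_tr]

end Pool.Agent.H368.WC.Bern
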