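import Pool.Agent.H368.WC.Bern

/-!
# Upper uniformity and full support of the product measure
-/

set_option autoImplicit false

namespace Pool.Agent.H368.WC.Bern

open MeasureTheory Filter Topology
open scoped ENNReal NNReal

theorem volume_pos {U : Set unitInterval} (hU : IsOpen U) (hne : U.Nonempty) :
    0 < (volume : Measure unitInterval) U := by
  obtain ⟨x, hx⟩ := hne
  obtain ⟨V, hV, rfl⟩ := isOpen_induced_iff.1 hU
  rw [unitInterval.volume_apply]
  have h1 : (x : ℝ) ∈ closure (Set.Ioo (0 : ℝ) 1) := by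
    rw [closure_Ioo (by norm_num)]
    exact x.2
  have h2 : (V ∩ Set.Ioo (0 : ℝ) 1).Nonempty := mem_closure_iff.1 h1 V hV hx
  have h3 : 0 < volume (V ∩ Set.Ioo (0 : ℝ) 1) := (hV.inter isOpen_Ioo).measure_pos _ h2
  refine h3.trans_le (measure_mono ?_)
  rintro t ⟨h4, h5, h6⟩
  exact ⟨⟨t, h5.le, h6.le⟩, h4, rfl⟩

instance : (μ).IsOpenPosMeasure where
  open_pos := by
    intro U hU hne
    obtain ⟨x, hx⟩ := hne
    obtain ⟨F, u, hu, hFu⟩ := isOpen_pi_iff.1 (show IsOpen (X := F2 → unitInterval) U from hU) x hx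
    have h1 : μ ((F : Set F2).pi u) = ∏ g ∈ F, (volume : Measure unitInterval) (u g) :=
      Measure.infinitePi_pi _ fun g hg => (hu g hg).1.measurableSet
    have h2 : μ ((F : Set F2).pi u) ≠ 0 := by
      rw [h1, Finset.prod_ne_zero_iff]
      intro g hg
      exact (volume_pos (hu g hg).1 ⟨x g, (hu g hg).2⟩).ne'
    intro h3
    exact h2 (measure_mono_null hFu h3)

theorem measure_closedBall_le (x : Bern) {R : ℝ} :
    μ (Metric.closedBall x R) ≤ ENNReal.ofReal (2 * R) := by
  let s : Set unitInterval := {t | |(t : ℝ) - x 1| ≤ R}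
  have hs : MeasurableSet s := by
    apply IsClosed.measurableSet
    exact isClosed_le (by fun_prop) continuous_const
  have h1 : Metric.closedBall x R ⊆ (Function.eval (1 : F2)) ⁻¹' s := by
    intro y hy
    have h2 : D y x ≤ R := hy
    have h3 := term_le_D y x 1
    have h4 : w 1 = 1 := by
      unfold w
      rw [FreeGroup.norm_one, pow_zero]
    rw [h4, one_mul] at h3
    exact h3.trans h2
  refine (measure_mono h1).trans ?_
  have h2 := measurePreserving_eval_infinitePi
    (fun _ : F2 => (volume : Measure unitInterval)) (1 : F2)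
  have h3 : μ ((Function.eval (1 : F2)) ⁻¹' s) = (volume : Measure unitInterval) s :=
    h2.measure_preimage hs.nullMeasurableSet
  rw [h3, unitInterval.volume_apply]
  have h4 : (Subtype.val '' s : Set ℝ) ⊆ Set.Icc ((x 1 : ℝ) - R) ((x 1 : ℝ) + R) := by
    rintro _ ⟨t, ht, rfl⟩
    have := abs_le.1 (show |(t : ℝ) - x 1| ≤ R from ht)
    constructor <;> linarith [this.1, this.2]
  refine (measure_mono h4).trans ?_
  rw [Real.volume_Icc]
  apply ENNReal.ofReal_le_ofReal
  linarith

theorem upper_uniform :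
    Tendsto (fun R : ℝ => ⨆ x : Bern, μ (Metric.closedBall x R)) (𝓝[>] 0) (𝓝 0) := by
  have h1 : Tendsto (fun R : ℝ => ENNReal.ofReal (2 * R)) (𝓝[>] 0) (𝓝 0) := by
    have h2 : Continuous fun R : ℝ => ENNReal.ofReal (2 * R) :=
      ENNReal.continuous_ofReal.comp (by fun_prop)
    have h3 := h2.tendsto 0
    simp only [mul_zero, ENNReal.ofReal_zero] at h3
    exact h3.mono_left nhdsWithin_le_nhds
  refine tendsto_of_tendsto_of_tendsto_of_le_of_le tendsto_const_nhds h1
    (fun R => zero_le) (fun R => ?_)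
  exact iSup_le fun x => measure_closedBall_le x

end Pool.Agent.H368.WC.Bern
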