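import Pool.Agent.H368.WC.DiscModel

/-!
# Discretization of the warped cone
-/

set_option autoImplicit false

namespace Pool.Agent.H368.WC

open MeasureTheory Filter Topology Coarse
open scoped ZeroAtInfty ENNReal NNReal InnerProductSpace

/-- Lebesgue measure on `[1, ∞)`. -/
noncomputable abbrev tau : Measure (Set.Ici (1 : ℝ)) :=
  Measure.comap ((↑) : Set.Ici (1 : ℝ) → ℝ) volume

theorem tau_apply (s : Set (Set.Ici (1 : ℝ))) : tau s = volume ((↑) '' s : Set ℝ) :=
  comap_subtype_coe_apply measurableSet_Ici _ _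

/-- The part of `[1, ∞)` between two bounds. -/
def seg (a b : ℝ) : Set (Set.Ici (1 : ℝ)) := {t | a ≤ t ∧ (t : ℝ) < b}

theorem measurableSet_seg (a b : ℝ) : MeasurableSet (seg a b) := by
  have : seg a b = (↑) ⁻¹' (Set.Ico a b) := rfl
  rw [this]
  exact measurable_subtype_coe measurableSet_Ico

theorem tau_seg {a b : ℝ} (ha : 1 ≤ a) : tau (seg a b) = ENNReal.ofReal (b - a) := by
  rw [tau_apply]
  have : ((↑) '' seg a b : Set ℝ) = Set.Ico a b := by
    ext t
    constructor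
    · rintro ⟨t, ht, rfl⟩
      exact ht
    · intro ht
      exact ⟨⟨t, ha.trans ht.1⟩, ht, rfl⟩
  rw [this, Real.volume_Ico]

instance : SigmaFinite tau := by
  refine ⟨⟨⟨fun n => seg 1 n, fun _ => trivial, fun n => ?_, ?_⟩⟩⟩
  · rw [tau_seg le_rfl]
    exact ENNReal.ofReal_lt_top
  · ext t
    simp only [Set.mem_iUnion, Set.mem_univ, iff_true]
    obtain ⟨n, hn⟩ := exists_nat_gt (t : ℝ)
    exact ⟨n, t.2, hn⟩

variable {M : Type*} [MetricSpace M] [CompactSpace M] [MeasurableSpace M] [BorelSpace M]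
  (m : Measure M) [IsProbabilityMeasure m]

instance : SFinite (coneMeasure m) := by
  unfold coneMeasure
  infer_instance

theorem coneMeasure_prod (A : Set M) (T : Set (Set.Ici (1 : ℝ))) :
    coneMeasure m (A ×ˢ T) = m A * tau T := Measure.prod_prod _ _

/-- The radius of the pieces at level `k`. -/
noncomputable def rad (k : ℕ) : ℝ := 1 / (2 * ((k : ℝ) + 2))

theorem rad_pos (k : ℕ) : 0 < rad k := by unfold rad; positivity

theorem rad_mul (k : ℕ) : ((k : ℝ) + 1) * (2 * rad k) ≤ 1 := by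
  unfold rad
  rw [mul_one_div, ← mul_div_assoc, div_le_one (by positivity)]
  linarith

variable [Nonempty M]

/-- A dense sequence of points. -/
noncomputable def pt (j : ℕ) : M := TopologicalSpace.denseSeq M j

/-- The pieces of `M` at level `k`. -/
def piece (M : Type*) [MetricSpace M] [CompactSpace M] [Nonempty M] (k j : ℕ) : Set M :=
  {x | dist x (pt j) < rad k ∧ ∀ i < j, rad k ≤ dist x (pt i)}

omit [MeasurableSpace M] [BorelSpace M] in
theorem exists_pt (x : M) (k : ℕ) : ∃ j, dist x (pt j) < rad k := by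
  have h := TopologicalSpace.denseRange_denseSeq M
  obtain ⟨y, hy, ⟨j, hj⟩⟩ := Metric.dense_iff.1 h x (rad k) (rad_pos k)
  refine ⟨j, ?_⟩
  have : y = pt j := hj.symm
  rw [← this, dist_comm]
  exact hy

omit [MeasurableSpace M] [BorelSpace M] in
theorem exists_piece (x : M) (k : ℕ) : ∃ j, x ∈ piece M k j := by
  classical
  have h := exists_pt x k
  refine ⟨Nat.find h, Nat.find_spec h, fun i hi => ?_⟩
  have := Nat.find_min h hi
  exact not_lt.1 this

theorem measurableSet_piece (k j : ℕ) : MeasurableSet (piece M k j) := by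
  have h1 : piece M k j = Metric.ball (pt j) (rad k) ∩
      ⋂ i : ℕ, ⋂ _ : i < j, {x | rad k ≤ dist x (pt i)} := by
    ext x
    simp [piece]
  rw [h1]
  refine Metric.isOpen_ball.measurableSet.inter ?_
  refine MeasurableSet.iInter fun i => MeasurableSet.iInter fun _ => ?_
  exact (isClosed_le continuous_const (by fun_prop)).measurableSet

omit [MeasurableSpace M] [BorelSpace M] in
theorem disjoint_piece {k i j : ℕ} (h : i ≠ j) : Disjoint (piece M k i) (piece M k j) := by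
  rw [Set.disjoint_left]
  rintro x ⟨h1, h2⟩ ⟨h3, h4⟩
  rcases lt_or_gt_of_ne h with h5 | h5
  · exact absurd h1 (not_lt.2 (h4 i h5))
  · exact absurd h3 (not_lt.2 (h2 j h5))

variable (M) in
omit [MeasurableSpace M] [BorelSpace M] in
theorem exists_bound (k : ℕ) : ∃ N, ∀ j, N ≤ j → piece M k j = ∅ := by
  obtain ⟨t, ht⟩ := isCompact_univ.elim_finite_subcover
    (fun j : ℕ => Metric.ball (pt j : M) (rad k)) (fun _ => Metric.isOpen_ball) (by
      intro x _
      obtain ⟨j, hj⟩ := exists_pt x k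
      exact Set.mem_iUnion.2 ⟨j, hj⟩)
  refine ⟨t.sup id + 1, fun j hj => ?_⟩
  rw [Set.eq_empty_iff_forall_notMem]
  rintro x ⟨h1, h2⟩
  obtain ⟨i, hi, hx⟩ := Set.mem_iUnion₂.1 (ht (Set.mem_univ x))
  have h3 : i ≤ t.sup id := Finset.le_sup (f := id) hi
  have h4 := h2 i (by omega)
  exact absurd (show dist x (pt i) < rad k from hx) (not_lt.2 h4)

/-- The index set of the pieces of positive measure. -/
def Idx : Type := {i : ℕ × ℕ // m (piece M i.1 i.2) ≠ 0}

instance : Countable (Idx m) :=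
  inferInstanceAs (Countable {i : ℕ × ℕ // m (piece M i.1 i.2) ≠ 0})

noncomputable instance : DecidableEq (Idx m) := Classical.decEq _

/-- The level of an index. -/
def Idx.lvl {m : Measure M} (i : Idx m) : ℕ := i.1.1

theorem finite_lvl (N : ℕ) : {i : Idx m | i.lvl ≤ N}.Finite := by
  choose B hB using exists_bound M
  have h1 : ((Set.Iic N) ×ˢ (Set.Iio ((Finset.range (N + 1)).sup B)) : Set (ℕ × ℕ)).Finite :=
    (Set.finite_Iic N).prod (Set.finite_Iio _)
  have h2 := h1.preimage (f := fun i : Idx m => i.1) (Subtype.val_injective.injOn)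
  refine h2.subset ?_
  rintro ⟨⟨k, j⟩, hi⟩ (hk : k ≤ N)
  refine ⟨hk, ?_⟩
  show j < (Finset.range (N + 1)).sup B
  have h3 : j < B k := by
    by_contra hc
    apply hi
    show m (piece M k j) = 0
    rw [hB k j (not_lt.1 hc), measure_empty]
  exact h3.trans_le (Finset.le_sup (f := B) (Finset.mem_range.2 (by omega)))

/-- The base point. -/
noncomputable def Idx.base {m : Measure M} (i : Idx m) : Cone M :=
  (pt i.1.2, ⟨(i.lvl : ℝ) + 1, by
    have : (0 : ℝ) ≤ i.lvl := Nat.cast_nonneg _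
    exact le_add_of_nonneg_left this⟩)

/-- The pieces of the cone. -/
def Idx.Q {m : Measure M} (i : Idx m) : Set (Cone M) :=
  piece M i.1.1 i.1.2 ×ˢ seg ((i.lvl : ℝ) + 1) ((i.lvl : ℝ) + 2)

/-- The function whose sublevel sets are neighbourhoods of the pieces. -/
noncomputable def Idx.h {m : Measure M} (i : Idx m) (p : Cone M) : ℝ :=
  max (dist p.1 (pt i.1.2) / rad i.lvl) |(p.2 : ℝ) - (i.lvl + 1)|

theorem Idx.continuous_h (i : Idx m) : Continuous i.h := by
  unfold Idx.h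
  fun_prop

theorem Idx.coneDist_le (i : Idx m) {p : Cone M} (hp : i.h p ≤ 2) :
    coneDist p i.base ≤ 3 := by
  have h1 : dist p.1 (pt i.1.2) / rad i.lvl ≤ 2 := (le_max_left _ _).trans hp
  have h2 : |(p.2 : ℝ) - (i.lvl + 1)| ≤ 2 := (le_max_right _ _).trans hp
  rw [div_le_iff₀ (rad_pos _)] at h1
  show |(p.2 : ℝ) - (i.lvl + 1)| + min (p.2 : ℝ) (i.lvl + 1) * dist p.1 (pt i.1.2) ≤ 3
  have h3 := rad_mul i.lvl
  have h4 : min (p.2 : ℝ) (i.lvl + 1) * dist p.1 (pt i.1.2) ≤
      ((i.lvl : ℝ) + 1) * (2 * rad i.lvl) := by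
    gcongr
    exact min_le_right _ _
  linarith

theorem Idx.h_le_one (i : Idx m) {p : Cone M} (hp : p ∈ i.Q) : i.h p ≤ 1 := by
  obtain ⟨⟨h1, -⟩, h3, h4⟩ := hp
  apply max_le
  · rw [div_le_one (rad_pos _)]
    exact h1.le
  · rw [abs_le]
    constructor <;> linarith

/-- The Urysohn function of a piece, as a continuous function. -/
noncomputable def Idx.uc {m : Measure M} (i : Idx m) (p : Cone M) : ℂ :=
  ((max 0 (min 1 (2 - i.h p)) : ℝ) : ℂ)

theorem Idx.continuous_uc (i : Idx m) : Continuous i.uc := by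
  have := Idx.continuous_h m i
  unfold Idx.uc
  fun_prop

theorem Idx.tsupport_uc (i : Idx m) : tsupport i.uc ⊆ {p | i.h p ≤ 2} := by
  apply closure_minimal
  · intro p hp
    by_contra hc
    apply hp
    have hc' : 2 < i.h p := not_le.1 hc
    have h1 : max 0 (min 1 (2 - i.h p)) = 0 := by
      apply max_eq_left
      exact (min_le_right _ _).trans (by linarith)
    show ((max 0 (min 1 (2 - i.h p)) : ℝ) : ℂ) = 0
    rw [h1, Complex.ofReal_zero]
  · exact isClosed_le (Idx.continuous_h m i) continuous_const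

theorem isCompact_levels (N : ℝ) : IsCompact {p : Cone M | (p.2 : ℝ) ≤ N} := by
  have h1 : IsCompact ((↑) ⁻¹' (Set.Icc 1 N) : Set (Set.Ici (1 : ℝ))) :=
    (isClosed_Ici.isClosedEmbedding_subtypeVal).isCompact_preimage isCompact_Icc
  have h2 : IsCompact ((Set.univ : Set M) ×ˢ ((↑) ⁻¹' (Set.Icc 1 N) : Set (Set.Ici (1 : ℝ)))) :=
    isCompact_univ.prod h1
  refine h2.of_isClosed_subset (isClosed_le (by fun_prop) continuous_const) ?_
  intro p hp
  exact ⟨trivial, p.2.2, hp⟩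

theorem Idx.hasCompactSupport_uc (i : Idx m) : HasCompactSupport i.uc := by
  refine (isCompact_levels (M := M) (i.lvl + 3)).of_isClosed_subset (isClosed_tsupport _) ?_
  intro p hp
  have h1 : i.h p ≤ 2 := Idx.tsupport_uc m i hp
  have h2 : |(p.2 : ℝ) - (i.lvl + 1)| ≤ 2 := (le_max_right _ _).trans h1
  have h3 := (abs_le.1 h2).2
  show (p.2 : ℝ) ≤ i.lvl + 3
  linarith

/-- The Urysohn function of a piece. -/
noncomputable def Idx.u {m : Measure M} [IsProbabilityMeasure m] (i : Idx m) :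
    C₀(Cone M, ℂ) where
  toFun := i.uc
  continuous_toFun := Idx.continuous_uc m i
  zero_at_infty' := (Idx.hasCompactSupport_uc m i).is_zero_at_infty

theorem Idx.u_one (i : Idx m) {p : Cone M} (hp : p ∈ i.Q) : i.u p = 1 := by
  have h1 := Idx.h_le_one m i hp
  show ((max 0 (min 1 (2 - i.h p)) : ℝ) : ℂ) = 1
  rw [min_eq_left (by linarith), max_eq_right zero_le_one, Complex.ofReal_one]

theorem small_aux (f : C₀(Cone M, ℂ)) (ε : ℝ) (hε : 0 < ε) :
    ∃ F : Finset (Idx m), ∀ i ∉ F, ∀ x ∈ i.Q, ‖f x‖ ≤ ε := by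
  have h1 : ∀ᶠ p in cocompact (Cone M), ‖f p‖ < ε := by
    have h2 : Tendsto (fun p => ‖f p‖) (cocompact (Cone M)) (𝓝 0) := by
      have := f.zero_at_infty'.norm
      rwa [norm_zero] at this
    exact h2.eventually (gt_mem_nhds hε)
  obtain ⟨K, hK, hK'⟩ := mem_cocompact.1 h1
  obtain ⟨N, hN⟩ := (hK.image (f := fun p : Cone M => (p.2 : ℝ)) (by fun_prop)).bddAbove
  obtain ⟨n, hn⟩ := exists_nat_ge N
  refine ⟨(finite_lvl m n).toFinset, fun i hi p hp => ?_⟩
  have hi' : n < i.lvl := by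
    by_contra hc
    exact hi (by simpa using not_lt.1 hc)
  obtain ⟨-, h3, -⟩ := hp
  have h4 : p ∉ K := by
    intro hc
    have h5 : (p.2 : ℝ) ≤ N := hN ⟨p, hc, rfl⟩
    have h6 : (n : ℝ) < i.lvl := by exact_mod_cast hi'
    linarith
  exact (hK' h4).le

/-- A set of levels accumulating at the lower end. -/
noncomputable def sub (k n : ℕ) : Set (Set.Ici (1 : ℝ)) :=
  seg ((k : ℝ) + 1 + 1 / ((n : ℝ) + 2)) ((k : ℝ) + 1 + 1 / ((n : ℝ) + 1))

theorem sub_subset (k n : ℕ) : sub k n ⊆ seg ((k : ℝ) + 1) ((k : ℝ) + 2) := by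
  rintro t ⟨h1, h2⟩
  have h3 : 0 < 1 / ((n : ℝ) + 2) := by positivity
  have h4 : 1 / ((n : ℝ) + 1) ≤ 1 := by
    rw [div_le_one (by positivity)]
    have : (0 : ℝ) ≤ n := Nat.cast_nonneg _
    linarith
  exact ⟨by linarith, by linarith⟩

theorem sub_disjoint (k : ℕ) {n n' : ℕ} (h : n ≠ n') : Disjoint (sub k n) (sub k n') := by
  wlog hlt : n < n' generalizing n n'
  · exact (this (Ne.symm h) (by omega)).symm
  rw [Set.disjoint_left]
  rintro t ⟨h1, -⟩ ⟨-, h2⟩
  have h3 : 1 / ((n' : ℝ) + 1) ≤ 1 / ((n : ℝ) + 2) := by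
    apply one_div_le_one_div_of_le (by positivity)
    have : (n : ℝ) + 1 ≤ n' := by exact_mod_cast hlt
    linarith
  linarith

theorem tau_sub (k n : ℕ) : tau (sub k n) ≠ 0 ∧ tau (sub k n) ≠ ∞ := by
  have h0 : (0 : ℝ) ≤ k := Nat.cast_nonneg _
  have h3 : 0 < 1 / ((n : ℝ) + 2) := by positivity
  unfold sub
  rw [tau_seg (by linarith)]
  refine ⟨?_, ENNReal.ofReal_ne_top⟩
  rw [← pos_iff_ne_zero, ENNReal.ofReal_pos]
  have h4 : 1 / ((n : ℝ) + 2) < 1 / ((n : ℝ) + 1) := by
    apply one_div_lt_one_div_of_lt (by positivity)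
    linarith
  linarith

theorem cover_aux : coneMeasure m (⋃ i : Idx m, i.Q)ᶜ = 0 := by
  have h1 : (⋃ i : Idx m, i.Q)ᶜ ⊆ ⋃ x : {i : ℕ × ℕ // m (piece M i.1 i.2) = 0},
      (piece M x.1.1 x.1.2 ×ˢ seg ((x.1.1 : ℝ) + 1) ((x.1.1 : ℝ) + 2)) := by
    rintro ⟨x, t, ht⟩ hp
    have ht' : (1 : ℝ) ≤ t := ht
    have h2 : 1 ≤ ⌊t⌋₊ := Nat.le_floor (by exact_mod_cast ht')
    obtain ⟨k, hk⟩ : ∃ k, ⌊t⌋₊ = k + 1 := ⟨⌊t⌋₊ - 1, by omega⟩
    have h3 : ((k : ℝ) + 1) ≤ t := by
      have := Nat.floor_le (by linarith : 0 ≤ t)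
      rw [hk] at this
      exact_mod_cast this
    have h4 : t < (k : ℝ) + 2 := by
      have := Nat.lt_floor_add_one t
      rw [hk] at this
      push_cast at this
      linarith
    obtain ⟨j, hj⟩ := exists_piece x k
    by_cases h5 : m (piece M k j) = 0
    · rw [Set.mem_iUnion]
      exact ⟨⟨(k, j), h5⟩, hj, h3, h4⟩
    · exfalso
      apply hp
      rw [Set.mem_iUnion]
      exact ⟨⟨(k, j), h5⟩, hj, h3, h4⟩
  refine measure_mono_null h1 ?_
  rw [measure_iUnion_null_iff]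
  rintro ⟨⟨k, j⟩, h⟩
  rw [coneMeasure_prod]
  have : m (piece M k j) = 0 := h
  rw [this, zero_mul]

variable {G : Type*} [SMul G M] {S : Finset G} {dC d : Cone M → Cone M → ℝ}

/-- The discretization of the warped cone. -/
noncomputable def coneDisc (hd : IsWarpedMetric S dC d) {C : ℝ} (hC1 : 1 ≤ C)
    (hC2 : ∀ p q, dC p q ≤ C * coneDist p q) (hC3 : ∀ p q, coneDist p q ≤ C * dC p q) :
    Disc (Cone M) (coneMeasure m) d (Idx m) where
  Q := Idx.Q
  meas i := (measurableSet_piece _ _).prod (measurableSet_seg _ _)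
  disj := by
    rintro ⟨⟨k, j⟩, h⟩ ⟨⟨k', j'⟩, h'⟩ hne
    rw [Set.disjoint_left]
    rintro p ⟨h1, h2, h3⟩ ⟨h4, h5, h6⟩
    have h2' : (k : ℝ) + 1 ≤ p.2 := h2
    have h3' : (p.2 : ℝ) < k + 2 := h3
    have h5' : (k' : ℝ) + 1 ≤ p.2 := h5
    have h6' : (p.2 : ℝ) < k' + 2 := h6
    have h7 : (k : ℝ) < k' + 1 := by linarith
    have h8 : (k' : ℝ) < k + 1 := by linarith
    have h7' : k < k' + 1 := by exact_mod_cast h7
    have h8' : k' < k + 1 := by exact_mod_cast h8
    have h9 : k = k' := by omega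
    subst h9
    have h10 : j ≠ j' := by
      rintro rfl
      exact hne rfl
    exact (Set.disjoint_left.1 (disjoint_piece h10)) h1 h4
  cover := cover_aux m
  c := Idx.base
  r := C * 3
  near i p hp := by
    refine (hd.le _ _).trans ((hC2 _ _).trans ?_)
    have := Idx.coneDist_le m i ((Idx.h_le_one m i hp).trans (by norm_num : (1 : ℝ) ≤ 2))
    gcongr
  u := Idx.u
  u_one i p hp := Idx.u_one m i hp
  u_supp i p hp := by
    refine (hd.le _ _).trans ((hC2 _ _).trans ?_)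
    have := Idx.coneDist_le m i (Idx.tsupport_uc m i hp)
    gcongr
  small := small_aux m
  fin i R := by
    obtain ⟨n, hn⟩ := exists_nat_ge ((i.lvl : ℝ) + C * R)
    refine (finite_lvl m n).subset ?_
    intro j hj
    have h1 : d i.base j.base ≤ R := hj
    have h2 : |((i.lvl : ℝ) + 1) - (j.lvl + 1)| ≤ C * d i.base j.base :=
      hd.level hC1 hC3 i.base j.base
    have h3 : C * d i.base j.base ≤ C * R := by gcongr
    have h4 := (abs_le.1 (h2.trans h3)).1
    have h5 : (j.lvl : ℝ) ≤ n := by linarith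
    exact_mod_cast h5
  E i n := piece M i.1.1 i.1.2 ×ˢ sub i.lvl n
  E_meas i n := (measurableSet_piece _ _).prod (measurableSet_seg _ _)
  E_sub i n := Set.prod_mono le_rfl (sub_subset _ _)
  E_disj i n n' h := by
    rw [Set.disjoint_left]
    rintro p ⟨-, h1⟩ ⟨-, h2⟩
    exact (Set.disjoint_left.1 (sub_disjoint _ h)) h1 h2
  E_pos i n := by
    rw [coneMeasure_prod]
    exact mul_ne_zero i.2 (tau_sub _ _).1
  E_top i n := by
    rw [coneMeasure_prod]
    exact ENNReal.mul_ne_top (measure_ne_top _ _) (tau_sub _ _).2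

end Pool.Agent.H368.WC
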