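import Pool.Agent.H368.WC.ConeDisc

/-!
# The warped cone of an action with an equivariant contraction is flasque
-/

set_option autoImplicit false

namespace Pool.Agent.H368.WC

open MeasureTheory Filter Topology Coarse
open scoped ZeroAtInfty ENNReal NNReal InnerProductSpace

variable {M : Type*} [MetricSpace M] [CompactSpace M] [MeasurableSpace M] [BorelSpace M]
  (m : Measure M) [IsProbabilityMeasure m] [Nonempty M]

theorem exists_near [m.IsOpenPosMeasure] (k : ℕ) (y : M) :
    ∃ i : Idx m, i.lvl = k ∧ dist y (pt i.1.2) ≤ 2 * rad k := by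
  have h1 : m (Metric.ball y (rad k)) ≠ 0 :=
    (Metric.measure_ball_pos m y (rad_pos k)).ne'
  have h2 : ∃ j, m (Metric.ball y (rad k) ∩ piece M k j) ≠ 0 := by
    by_contra hc
    push Not at hc
    apply h1
    have h3 : Metric.ball y (rad k) ⊆ ⋃ j, (Metric.ball y (rad k) ∩ piece M k j) := by
      intro x hx
      obtain ⟨j, hj⟩ := exists_piece x k
      exact Set.mem_iUnion.2 ⟨j, hx, hj⟩
    exact measure_mono_null h3 (measure_iUnion_null hc)
  obtain ⟨j, hj⟩ := h2
  have h3 : m (piece M k j) ≠ 0 := fun h => hj (measure_mono_null Set.inter_subset_right h)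
  obtain ⟨x, hx1, hx2⟩ := nonempty_of_measure_ne_zero hj
  refine ⟨⟨(k, j), h3⟩, rfl, ?_⟩
  have h4 : dist x y < rad k := hx1
  have h5 : dist x (pt j) < rad k := hx2.1
  have h6 := dist_triangle_left y (pt j) x
  show dist y (pt j) ≤ 2 * rad k
  linarith

variable {G : Type*} [SMul G M] {S : Finset G} {dC d : Cone M → Cone M → ℝ}

/-- The flasque structure. -/
theorem exists_flasque [m.IsOpenPosMeasure] (hd : IsWarpedMetric S dC d) {C : ℝ} (hC1 : 1 ≤ C)
    (hC2 : ∀ p q, dC p q ≤ C * coneDist p q) (hC3 : ∀ p q, coneDist p q ≤ C * dC p q)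
    (F : ℕ → Cone M → Cone M) {L : ℝ} (hL : 0 ≤ L)
    (F1 : ∀ n p, ((F n p).2 : ℝ) = p.2 + n) (F2 : ∀ n p q, d (F n p) (F n q) ≤ L * d p q)
    (F3 : ∀ n p, d (F n p) (F (n + 1) p) ≤ L) (F4 : ∀ p, F 0 p = p) :
    Nonempty (Flasque ((coneDisc m hd hC1 hC2 hC3).model hd.isMetric)) := by
  choose nb hnb1 hnb2 using exists_near m
  let π : ℕ → Idx m → Idx m := fun n i => nb (i.lvl + n) (F n i.base).1
  have hlvl : ∀ n i, (π n i).lvl = i.lvl + n := fun n i => hnb1 _ _
  have hnear : ∀ n i, d (F n i.base) (π n i).base ≤ C := by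
    intro n i
    refine (hd.le _ _).trans ((hC2 _ _).trans ?_)
    have h1 : coneDist (F n i.base) (π n i).base ≤ 1 := by
      have h2 : ((F n i.base).2 : ℝ) = (i.lvl + n : ℕ) + 1 := by
        rw [F1]
        show ((i.lvl : ℝ) + 1) + n = _
        push_cast
        ring
      have h3 : ((π n i).base.2 : ℝ) = (i.lvl + n : ℕ) + 1 := by
        show (((π n i).lvl : ℝ) + 1) = _
        rw [hlvl]
      unfold coneDist
      rw [h2, h3, sub_self, abs_zero, zero_add, min_self]
      have h4 := hnb2 (i.lvl + n) (F n i.base).1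
      have h5 : dist (F n i.base).1 (π n i).base.1 ≤ 2 * rad (i.lvl + n) := h4
      have h6 := rad_mul (i.lvl + n)
      have h7 : (((i.lvl + n : ℕ) : ℝ) + 1) * dist (F n i.base).1 (π n i).base.1 ≤
          (((i.lvl + n : ℕ) : ℝ) + 1) * (2 * rad (i.lvl + n)) := by gcongr
      linarith
    nlinarith
  have hM := hd.isMetric
  refine ⟨⟨π, 2 * C + L, by linarith, ?_, ?_, ?_, ?_⟩⟩
  · intro n i j
    show d (π n i).base (π n j).base ≤ (2 * C + L) * d i.base j.base + (2 * C + L)
    have h1 := hM.triangle (π n i).base (F n i.base) (π n j).base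
    have h2 := hM.triangle (F n i.base) (F n j.base) (π n j).base
    have h3 := hnear n i
    have h4 := hnear n j
    rw [hM.symm] at h3
    have h5 := F2 n i.base j.base
    have h6 := hM.nonneg i.base j.base
    nlinarith
  · intro n i
    show d (π n i).base (π (n + 1) i).base ≤ 2 * C + L
    have h1 := hM.triangle (π n i).base (F n i.base) (π (n + 1) i).base
    have h2 := hM.triangle (F n i.base) (F (n + 1) i.base) (π (n + 1) i).base
    have h3 := hnear n i
    have h4 := hnear (n + 1) i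
    rw [hM.symm] at h3
    have h5 := F3 n i.base
    linarith
  · intro i
    show d (π 0 i).base i.base ≤ 2 * C + L
    have h3 := hnear 0 i
    rw [F4, hM.symm] at h3
    linarith
  · intro i
    have h1 : ((Set.Iic i.lvl) ×ˢ {j : Idx m | j.lvl ≤ i.lvl} : Set (ℕ × Idx m)).Finite :=
      (Set.finite_Iic _).prod (finite_lvl m _)
    refine h1.subset ?_
    rintro ⟨n, j⟩ h
    have h2 : π n j = i := h
    have h3 := hlvl n j
    rw [h2] at h3
    exact ⟨by show n ≤ i.lvl; omega, by show j.lvl ≤ i.lvl; omega⟩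

/-- Vanishing of the K-theory of the Roe algebra of a warped cone from a family of maps. -/
theorem roe_vanish_of_maps [m.IsOpenPosMeasure] (hd : IsWarpedMetric S dC d) {C : ℝ} (hC1 : 1 ≤ C)
    (hC2 : ∀ p q, dC p q ≤ C * coneDist p q) (hC3 : ∀ p q, coneDist p q ≤ C * dC p q)
    (F : ℕ → Cone M → Cone M) {L : ℝ} (hL : 0 ≤ L)
    (F1 : ∀ n p, ((F n p).2 : ℝ) = p.2 + n) (F2 : ∀ n p q, d (F n p) (F n q) ≤ L * d p q)
    (F3 : ∀ n p, d (F n p) (F (n + 1) p) ≤ L) (F4 : ∀ p, F 0 p = p) :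
    ∃ A : NonUnitalSubalgebra ℂ (Lp ℂ 2 (coneMeasure m) →L[ℂ] Lp ℂ 2 (coneMeasure m)),
      LIsRoeAlgebra (coneMeasure m) d A ∧ ∀ n : ℕ, KT.KTop n A = ⊥ := by
  have hFl := exists_flasque m hd hC1 hC2 hC3 F hL F1 F2 F3 F4
  have hE : Encodable (Idx m) := Encodable.ofCountable _
  obtain ⟨Fl⟩ := hFl
  exact ⟨_, (coneDisc m hd hC1 hC2 hC3).isRoeAlgebra hd.isMetric,
    fun n => Flasque.KTop_roe_eq_bot Fl n⟩

/-- The maps `(x, t) ↦ (c (t / (t + n)) x, t + n)`. -/
noncomputable def shiftMap (c : ℝ → M → M) (n : ℕ) (p : Cone M) : Cone M :=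
  (c ((p.2 : ℝ) / (p.2 + n)) p.1, ⟨(p.2 : ℝ) + n, by
    have h1 : (1 : ℝ) ≤ p.2 := p.2.2
    have h2 : (0 : ℝ) ≤ n := Nat.cast_nonneg _
    show (1 : ℝ) ≤ p.2 + n
    linarith⟩)

omit [CompactSpace M] [MeasurableSpace M] [BorelSpace M] [Nonempty M] in
theorem ratio_bounds {t : ℝ} (ht : 1 ≤ t) (n : ℕ) : 0 < t / (t + n) ∧ t / (t + n) ≤ 1 := by
  have h2 : (0 : ℝ) ≤ n := Nat.cast_nonneg _
  constructor
  · positivity
  · rw [div_le_one (by linarith)]
    linarith

omit [CompactSpace M] [MeasurableSpace M] [BorelSpace M] [Nonempty M] in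
theorem coneDist_shiftMap {c : ℝ → M → M}
    (c2 : ∀ a, 0 < a → a ≤ 1 → ∀ x y, dist (c a x) (c a y) = a * dist x y)
    (c3 : ∀ a b, 0 < a → a ≤ 1 → 0 < b → b ≤ 1 → ∀ x, dist (c a x) (c b x) ≤ |a - b|)
    (n : ℕ) (p q : Cone M) :
    coneDist (shiftMap c n p) (shiftMap c n q) ≤ 2 * coneDist p q := by
  have key : ∀ (x y : M) (t s : ℝ) (ht : 1 ≤ t) (hs : 1 ≤ s), t ≤ s →
      (t + n) * dist (c (t / (t + n)) x) (c (s / (s + n)) y) ≤ t * dist x y + |t - s| := by
    intro x y t s ht hs hts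
    have hn : (0 : ℝ) ≤ n := Nat.cast_nonneg _
    obtain ⟨h1, h2⟩ := ratio_bounds ht n
    obtain ⟨h3, h4⟩ := ratio_bounds hs n
    have h5 := dist_triangle (c (t / (t + n)) x) (c (t / (t + n)) y) (c (s / (s + n)) y)
    rw [c2 _ h1 h2] at h5
    have h6 := c3 _ _ h1 h2 h3 h4 y
    have h7 : |t / (t + n) - s / (s + n)| = (s - t) * n / ((t + n) * (s + n)) := by
      have h8 : t / (t + n) - s / (s + n) = - ((s - t) * n / ((t + n) * (s + n))) := by
        field_simp
        ring
      rw [h8, abs_neg, abs_of_nonneg]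
      have : 0 ≤ s - t := by linarith
      positivity
    rw [h7] at h6
    have h8 : (t + n) * (t / (t + n) * dist x y) = t * dist x y := by field_simp
    have h9 : (t + n) * ((s - t) * n / ((t + n) * (s + n))) ≤ |t - s| := by
      rw [abs_of_nonpos (by linarith)]
      have h10 : (t + n) * ((s - t) * n / ((t + n) * (s + n))) = (s - t) * (n / (s + n)) := by
        field_simp
      rw [h10]
      have h11 : (n : ℝ) / (s + n) ≤ 1 := by
        rw [div_le_one (by linarith)]; linarith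
      have h12 : 0 ≤ s - t := by linarith
      nlinarith
    have h13 : (t + n) * dist (c (t / (t + n)) x) (c (s / (s + n)) y) ≤
        (t + n) * (t / (t + n) * dist x y + (s - t) * n / ((t + n) * (s + n))) := by
      gcongr
      linarith
    rw [mul_add, h8] at h13
    linarith
  obtain ⟨x, t, ht⟩ := p
  obtain ⟨y, s, hs⟩ := q
  have ht' : (1 : ℝ) ≤ t := ht
  have hs' : (1 : ℝ) ≤ s := hs
  show |(t + n) - (s + n)| + min (t + n) (s + n) * dist (c (t / (t + n)) x) (c (s / (s + n)) y) ≤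
    2 * (|t - s| + min t s * dist x y)
  rw [add_sub_add_right_eq_sub]
  have h0 : 0 ≤ dist x y := dist_nonneg
  rcases le_total t s with h | h
  · rw [min_eq_left h, min_eq_left (by linarith)]
    have := key x y t s ht' hs' h
    nlinarith
  · rw [min_eq_right h, min_eq_right (by linarith)]
    have := key y x s t hs' ht' h
    rw [dist_comm, dist_comm y x, abs_sub_comm s t] at this
    nlinarith

omit [CompactSpace M] [MeasurableSpace M] [BorelSpace M] [Nonempty M] in
theorem coneDist_shiftMap_succ {c : ℝ → M → M}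
    (c3 : ∀ a b, 0 < a → a ≤ 1 → 0 < b → b ≤ 1 → ∀ x, dist (c a x) (c b x) ≤ |a - b|)
    (n : ℕ) (p : Cone M) : coneDist (shiftMap c n p) (shiftMap c (n + 1) p) ≤ 2 := by
  obtain ⟨x, t, ht⟩ := p
  have ht' : (1 : ℝ) ≤ t := ht
  have hn : (0 : ℝ) ≤ n := Nat.cast_nonneg _
  obtain ⟨h1, h2⟩ := ratio_bounds ht' n
  obtain ⟨h3, h4⟩ := ratio_bounds ht' (n + 1)
  have h5 := c3 _ _ h1 h2 h3 h4 x
  show |(t + n) - (t + (n + 1 : ℕ))| + min (t + n) (t + (n + 1 : ℕ)) *
    dist (c (t / (t + n)) x) (c (t / (t + (n + 1 : ℕ))) x) ≤ 2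
  push_cast at h5 ⊢
  have h6 : (t + n) - (t + (n + 1)) = -1 := by ring
  rw [h6, abs_neg, abs_one, min_eq_left (by linarith)]
  have h7 : |t / (t + n) - t / (t + (n + 1))| = t / ((t + n) * (t + (n + 1))) := by
    have h8 : t / (t + n) - t / (t + (n + 1)) = t / ((t + n) * (t + (n + 1))) := by
      field_simp
      ring
    rw [h8, abs_of_nonneg]
    positivity
  rw [h7] at h5
  have h9 : (t + n) * dist (c (t / (t + n)) x) (c (t / (t + (n + 1))) x) ≤
      (t + n) * (t / ((t + n) * (t + (n + 1)))) := by gcongr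
  have h10 : (t + n) * (t / ((t + n) * (t + (n + 1)))) = t / (t + (n + 1)) := by field_simp
  have h11 : t / (t + (n + 1)) ≤ 1 := by
    rw [div_le_one (by linarith)]; linarith
  linarith

/-- The K-theory of the Roe algebra of the warped cone vanishes if the action commutes with
contractions. -/
theorem roe_vanish [m.IsOpenPosMeasure] (hC : IsConeMetric dC) (hd : IsWarpedMetric S dC d)
    (c : ℝ → M → M) (c1 : ∀ x, c 1 x = x)
    (c2 : ∀ a, 0 < a → a ≤ 1 → ∀ x y, dist (c a x) (c a y) = a * dist x y)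
    (c3 : ∀ a b, 0 < a → a ≤ 1 → 0 < b → b ≤ 1 → ∀ x, dist (c a x) (c b x) ≤ |a - b|)
    (c4 : ∀ a (s : G) x, c a (s • x) = s • c a x) :
    ∃ A : NonUnitalSubalgebra ℂ (Lp ℂ 2 (coneMeasure m) →L[ℂ] Lp ℂ 2 (coneMeasure m)),
      LIsRoeAlgebra (coneMeasure m) d A ∧ ∀ n : ℕ, KT.KTop n A = ⊥ := by
  have hbl := hC.bilipschitz
  obtain ⟨C, hC1, hC2⟩ := hbl
  have hC0 : 0 < C := by linarith
  have hCC : 1 ≤ C * C := by nlinarith
  apply roe_vanish_of_maps m hd hC1 (fun p q => (hC2 p q).1) (fun p q => (hC2 p q).2)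
    (shiftMap c) (L := 2 * C * C) (by positivity)
  · intro n p
    rfl
  · intro n
    apply hd.lipschitz
    · rintro ⟨x, t, ht⟩ ⟨y, s, hs⟩ h
      have h1 : t + n = s + n := congrArg (fun p : Cone M => (p.2 : ℝ)) h
      have h2 : t = s := by linarith
      subst h2
      have h3 : c (t / (t + n)) x = c (t / (t + n)) y := congrArg (fun p : Cone M => p.1) h
      obtain ⟨h4, h5⟩ := ratio_bounds (show (1 : ℝ) ≤ t from ht) n
      have h6 := c2 _ h4 h5 x y
      rw [h3, dist_self] at h6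
      have h7 : dist x y = 0 := by
        rcases mul_eq_zero.1 h6.symm with h8 | h8
        · exact absurd h8 h4.ne'
        · exact h8
      rw [dist_eq_zero.1 h7]
    · nlinarith
    · intro p q
      have h1 := coneDist_shiftMap c2 c3 n p q
      calc d (shiftMap c n p) (shiftMap c n q) ≤ dC (shiftMap c n p) (shiftMap c n q) := hd.le _ _
        _ ≤ C * coneDist (shiftMap c n p) (shiftMap c n q) := (hC2 _ _).1
        _ ≤ C * (2 * (C * dC p q)) := by
          gcongr
          exact h1.trans (by gcongr; exact (hC2 _ _).2)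
        _ = 2 * C * C * dC p q := by ring
    · intro s hs x t
      have h1 : shiftMap c n (s • x, t) = (s • (shiftMap c n (x, t)).1, (shiftMap c n (x, t)).2) := by
        unfold shiftMap
        simp only [c4]
      rw [h1]
      have h2 := hd.smul hs (shiftMap c n (x, t)).1 (shiftMap c n (x, t)).2
      refine h2.trans ?_
      nlinarith
  · intro n p
    have h1 := coneDist_shiftMap_succ c3 n p
    calc d (shiftMap c n p) (shiftMap c (n + 1) p) ≤ dC _ _ := hd.le _ _
      _ ≤ C * coneDist (shiftMap c n p) (shiftMap c (n + 1) p) := (hC2 _ _).1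
      _ ≤ C * 2 := by gcongr
      _ ≤ 2 * C * C := by nlinarith
  · rintro ⟨x, t, ht⟩
    have h0 : (0 : ℝ) < t := lt_of_lt_of_le one_pos ht
    unfold shiftMap
    simp only [Nat.cast_zero, add_zero]
    rw [div_self h0.ne', c1]

end Pool.Agent.H368.WC
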