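import Pool.Agent.H368.WC.KDef

/-!
# Warped cones and their Roe algebras: definitions

`O = M × [1, ∞)` with the measure `ν = m ⊗ Lebesgue`, cone metrics, warped metrics, the
multiplication representation of `C₀(O)` on `L²(O, ν)`, locally compact operators and operators of
finite propagation, and the hypotheses on the action.
-/

set_option autoImplicit false

namespace Pool.Agent.H368.WC

open MeasureTheory Filter Topology
open scoped ZeroAtInfty ENNReal NNReal

/-- `d` is a metric on `X`. -/
structure IsMetric {X : Type*} (d : X → X → ℝ) : Prop where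
  eq_zero_iff : ∀ p q, d p q = 0 ↔ p = q
  symm : ∀ p q, d p q = d q p
  triangle : ∀ p q r, d p r ≤ d p q + d q r

/-- The underlying set of the truncated cone over `M`, with its levels `M × {t}`, `t ≥ 1`. -/
abbrev Cone (M : Type*) : Type _ := M × Set.Ici (1 : ℝ)

/-- The product of the measure `m` on `M` and Lebesgue measure on `[1, ∞)`. -/
noncomputable def coneMeasure {M : Type*} [MeasurableSpace M] (m : Measure M) :
    Measure (Cone M) := m.prod (Measure.comap ((↑) : Set.Ici (1 : ℝ) → ℝ) volume)

/-- The function `|t - s| + min(t, s) dist(x, y)` of `(x, t)` and `(y, s)`. -/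
noncomputable def coneDist {M : Type*} [MetricSpace M] (p q : Cone M) : ℝ :=
  |(p.2 : ℝ) - q.2| + min (p.2 : ℝ) q.2 * dist p.1 q.1

/-- `d` is a cone metric: a metric on `M × [1, ∞)` which is bi-Lipschitz equivalent to
`|t - s| + min(t, s) dist(x, y)`. -/
structure IsConeMetric {M : Type*} [MetricSpace M] (d : Cone M → Cone M → ℝ) : Prop where
  isMetric : IsMetric d
  bilipschitz : ∃ C : ℝ, 1 ≤ C ∧ ∀ p q, d p q ≤ C * coneDist p q ∧ coneDist p q ≤ C * d p q

/-- The warped metric `d` which the action of the generators `s ∈ S` on the levels makes out of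
the cone metric `dC`: the largest metric `d ≤ dC` with `d ((x, t), (s x, t)) ≤ 1`. -/
def IsWarpedMetric {M G : Type*} [SMul G M] (S : Finset G) (dC d : Cone M → Cone M → ℝ) : Prop :=
  IsGreatest {d' : Cone M → Cone M → ℝ | IsMetric d' ∧ (∀ p q, d' p q ≤ dC p q) ∧
    ∀ s ∈ S, ∀ (x : M) (t : Set.Ici (1 : ℝ)), d' (x, t) (s • x, t) ≤ 1} d

section Roe

variable {X : Type*} [MeasurableSpace X]

/-- The Hilbert space `L²(X, ν)` of square integrable complex functions. -/
def L2 (ν : Measure X) : Type _ := Lp ℂ 2 ν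

noncomputable instance (ν : Measure X) : NormedAddCommGroup (L2 ν) :=
  (inferInstance : NormedAddCommGroup (Lp ℂ 2 ν))

noncomputable instance (ν : Measure X) : NormedSpace ℂ (L2 ν) :=
  (inferInstance : NormedSpace ℂ (Lp ℂ 2 ν))

/-- The identity from `L2 ν` to `Lp ℂ 2 ν`. -/
def L2.toLp {ν : Measure X} (u : L2 ν) : Lp ℂ 2 ν := u

/-- The function (up to equality almost everywhere) of an element of `L²(X, ν)`. -/
noncomputable def L2.fn {ν : Measure X} (u : L2 ν) : X → ℂ := u.toLp

/-- The Banach algebra of bounded operators on `L²(X, ν)`, with composition as the product and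
with the operator norm. -/
def Op (ν : Measure X) : Type _ := L2 ν →L[ℂ] L2 ν

noncomputable instance (ν : Measure X) : NormedRing (Op ν) :=
  (inferInstance : NormedRing (L2 ν →L[ℂ] L2 ν))

noncomputable instance (ν : Measure X) : NormedAlgebra ℂ (Op ν) :=
  (inferInstance : NormedAlgebra ℂ (L2 ν →L[ℂ] L2 ν))

/-- The identity from `Op ν` to the continuous linear maps. -/
def Op.toCLM {ν : Measure X} (T : Op ν) : L2 ν →L[ℂ] L2 ν := T

/-- The value of an operator. -/
noncomputable def Op.app {ν : Measure X} (T : Op ν) (u : L2 ν) : L2 ν := T.toCLM u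

/-- `T` is a compact operator. -/
def Op.IsCompact {ν : Measure X} (T : Op ν) : Prop := IsCompactOperator T.toCLM

variable [TopologicalSpace X] [BorelSpace X]

/-- Multiplication by `f ∈ C₀(X)` is a bounded operator on `L²(X, ν)`. -/
theorem exists_mulOp (ν : Measure X) (f : C₀(X, ℂ)) :
    ∃ M : Op ν, ∀ u : L2 ν, (M.app u).fn =ᵐ[ν] fun x => f x * u.fn x := by
  have hf : MemLp f ∞ ν := memLp_top_of_bound f.continuous.aestronglyMeasurable ‖f‖
    (Eventually.of_forall fun x => f.toBCF.norm_coe_le_norm x)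
  refine ⟨(ContinuousLinearMap.mul ℂ ℂ).holderL ν ∞ 2 2 (hf.toLp f), fun u => ?_⟩
  have h1 := (ContinuousLinearMap.mul ℂ ℂ).coeFn_holder (r := 2) (hf.toLp f) u.toLp
  filter_upwards [h1, hf.coeFn_toLp] with x h3 h4
  have h5 : (ContinuousLinearMap.mul ℂ ℂ) ((hf.toLp f : X → ℂ) x) (u.toLp x) = f x * u.fn x := by
    rw [h4]
    rfl
  exact h3.trans h5

/-- The operator on `L²(X, ν)` of multiplication by `f ∈ C₀(X)`. -/
noncomputable def mulOp (ν : Measure X) (f : C₀(X, ℂ)) : Op ν := (exists_mulOp ν f).choose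

/-- `T` is locally compact: `f T` and `T f` are compact for all `f ∈ C₀(X)`. -/
def LocallyCompact (ν : Measure X) (T : Op ν) : Prop :=
  ∀ f : C₀(X, ℂ), (mulOp ν f * T).IsCompact ∧ (T * mulOp ν f).IsCompact

/-- `T` has finite propagation with respect to `d`: for some `R > 0`, `φ T ψ = 0` whenever the
points of `supp φ` have distance greater than `R` from the points of `supp ψ`. -/
def FinitePropagation (ν : Measure X) (d : X → X → ℝ) (T : Op ν) : Prop :=
  ∃ R : ℝ, 0 < R ∧ ∀ φ ψ : C₀(X, ℂ), (∀ x ∈ tsupport φ, ∀ y ∈ tsupport ψ, R < d x y) →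
    mulOp ν φ * T * mulOp ν ψ = 0

/-- The Roe algebra of `X` with the measure `ν` and the metric `d`, as a set: the norm closure of
the set of all locally compact operators of finite propagation. -/
def roeSet (ν : Measure X) (d : X → X → ℝ) : Set (Op ν) :=
  closure {T | LocallyCompact ν T ∧ FinitePropagation ν d T}

end Roe

/-- A complex Banach algebra, which need not have a unit. -/
class BanachAlg (A : Type*) extends NonUnitalNormedRing A, NormedSpace ℂ A, CompleteSpace A where
  smul_mul' : ∀ (c : ℂ) (a b : A), (c • a) * b = c • (a * b)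
  mul_smul' : ∀ (c : ℂ) (a b : A), a * (c • b) = c • (a * b)

instance (A : Type*) [BanachAlg A] : IsScalarTower ℂ A A := ⟨fun c a b => BanachAlg.smul_mul' c a b⟩

instance (A : Type*) [BanachAlg A] : SMulCommClass ℂ A A :=
  ⟨fun c a b => (BanachAlg.mul_smul' c a b).symm⟩

/-- `ι : A → B` is an isometric homomorphism of Banach algebras from `A` to `B` with range `s`,
that is, `ι` identifies `A` with the subalgebra `s` of `B`. -/
structure IsIsometricIsoOnto {A : Type*} [BanachAlg A] {B : Type*} [NormedRing B]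
    [NormedAlgebra ℂ B] (ι : A → B) (s : Set B) : Prop where
  map_add : ∀ a b, ι (a + b) = ι a + ι b
  map_smul : ∀ (c : ℂ) (a : A), ι (c • a) = c • ι a
  map_mul : ∀ a b, ι (a * b) = ι a * ι b
  norm_map : ∀ a, ‖ι a‖ = ‖a‖
  range_eq : Set.range ι = s

/-- The topological `K`-group `Kₙ(A) = K₀(C₀(ℝⁿ, A))` of a complex Banach algebra `A`. -/
def KGroup (n : ℕ) (A : Type*) [BanachAlg A] : Type _ := KT.KTopGroup n A

noncomputable instance (n : ℕ) (A : Type*) [BanachAlg A] : AddCommGroup (KGroup n A) :=
  (inferInstance : AddCommGroup (KT.KTopGroup n A))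

/-- The hypotheses on the action: `m` is upper uniform, `S` is a finite symmetric generating set
of `G`, and `G` acts on `M` by bi-Lipschitz homeomorphisms, ergodically and preserving `m`, with
a spectral gap. -/
structure HasSpectralGapAction {M : Type*} [MetricSpace M] [MeasurableSpace M] (m : Measure M)
    {G : Type*} [Group G] [MulAction G M] (S : Finset G) : Prop where
  upper_uniform : Tendsto (fun R : ℝ => ⨆ x, m (Metric.closedBall x R)) (𝓝[>] 0) (𝓝 0)
  symm : ∀ s ∈ S, s⁻¹ ∈ S
  generates : Subgroup.closure (S : Set G) = ⊤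
  lipschitz : ∀ g : G, ∃ K : ℝ≥0, LipschitzWith K (fun x : M => g • x)
  ergodic : ErgodicSMul G M m
  spectral_gap : ∃ κ : ℝ≥0, 0 < κ ∧ ∀ f : M → ℂ, MemLp f 2 m → ∫ x, f x ∂m = 0 →
    ∃ s ∈ S, κ * eLpNorm f 2 m ≤ eLpNorm (fun x => f (s⁻¹ • x) - f x) 2 m

end Pool.Agent.H368.WC
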