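import Pool.Agent.H368.WC.ModelSwindle

/-!
# Vanishing of the K-theory of flasque discrete Roe algebras
-/

set_option autoImplicit false

namespace Pool.Agent.H368.Coarse

open scoped InnerProductSpace ENNReal

variable {H : Type*} [NormedAddCommGroup H] [InnerProductSpace ℂ H] [CompleteSpace H]
variable {I : Type*} [DecidableEq I]

namespace Flasque

variable {X : CoarseModel H I} (F : Flasque X) [Encodable I]

theorem inner_ψ (T : H →L[ℂ] H) (x y : H) :
    ⟪x, F.ψ T y⟫_ℂ = ⟪F.U' x, amp T (F.U' y)⟫_ℂ := by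
  show ⟪x, F.U (amp T (F.U' y))⟫_ℂ = _
  rw [← ContinuousLinearMap.adjoint_inner_left]
  rfl

theorem propLe_ψ {R : ℝ} {T : H →L[ℂ] H} (h : X.PropLe R T) :
    X.PropLe (F.K * R + F.K) (F.ψ T) := by
  intro i j hij k l
  rw [inner_ψ]
  by_cases hx : ∃ n x, F.θ n x = (i, k)
  swap
  · push Not at hx
    rw [F.U'_ne hx, inner_zero_left]
  by_cases hy : ∃ n x, F.θ n x = (j, l)
  swap
  · push Not at hy
    rw [F.U'_ne hy, map_zero, inner_zero_right]
  obtain ⟨n, ⟨i', k'⟩, hx⟩ := hx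
  obtain ⟨m, ⟨j', l'⟩, hy⟩ := hy
  rw [← hx, ← hy, U'_θ, U'_θ, amp_E]
  by_cases hnm : n = m
  · subst hnm
    rw [inner_E_self]
    apply h
    have h1 : F.π n i' = i := congrArg Prod.fst hx
    have h2 : F.π n j' = j := congrArg Prod.fst hy
    have h3 := F.lip n i' j'
    rw [h1, h2] at h3
    have h4 : F.K * R + F.K < F.K * X.D i' j' + F.K := hij.trans_le h3
    have h5 := F.hK
    by_contra hc
    push Not at hc
    have h6 : F.K * X.D i' j' ≤ F.K * R := by gcongr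
    linarith
  · exact inner_E_E hnm _ _

theorem propLe_V0 : X.PropLe F.K F.V0 := by
  intro i j hij k l
  have h1 : F.V0 (X.b (j, l)) = X.b (F.θ 0 (j, l)) := by
    show F.U (E 0 (X.b (j, l))) = _
    rw [U_E, V_b]
  rw [h1]
  apply hb_inner_ne
  intro h2
  have h3 : i = F.π 0 j := congrArg Prod.fst h2
  have h4 := F.zero j
  rw [← h3] at h4
  linarith

theorem propLe_W : X.PropLe F.K F.W := by
  intro i j hij k l
  by_cases hy : ∃ n x, F.θ n x = (j, l)
  swap
  · push Not at hy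
    have : F.W (X.b (j, l)) = 0 := by
      show F.U (sh (F.U' (X.b (j, l)))) = 0
      rw [F.U'_ne hy, map_zero, map_zero]
    rw [this, inner_zero_right]
  obtain ⟨m, ⟨j', l'⟩, hy⟩ := hy
  have h1 : F.W (X.b (j, l)) = X.b (F.θ (m + 1) (j', l')) := by
    show F.U (sh (F.U' (X.b (j, l)))) = _
    rw [← hy, U'_θ, sh_E, U_E, V_b]
  rw [h1]
  apply hb_inner_ne
  intro h2
  have h3 : i = F.π (m + 1) j' := congrArg Prod.fst h2
  have h4 : F.π m j' = j := congrArg Prod.fst hy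
  have h5 := F.close m j'
  rw [← h3, h4, X.D_symm] at h5
  linarith

/-- The projection of the sum of copies which corresponds to `P i`. -/
noncomputable def Q (i : I) : L2 H →L[ℂ] L2 H :=
  ∑ p ∈ (F.fin i).toFinset, E p.1 ∘L X.P p.2 ∘L ev p.1

theorem P_U (i : I) : X.P i ∘L F.U = F.U ∘L F.Q i := by
  apply L2_ext
  intro n x
  have h : X.P i ∘L F.U ∘L E n = F.U ∘L F.Q i ∘L E n := by
    apply hb_ext X.b
    rintro ⟨j, k⟩
    show X.P i (F.U (E n (X.b (j, k)))) = F.U (F.Q i (E n (X.b (j, k))))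
    rw [U_E, V_b]
    have h1 : F.Q i (E n (X.b (j, k))) =
        if F.π n j = i then E n (X.b (j, k)) else 0 := by
      rw [Q, sum_apply]
      have h2 : ∀ p : ℕ × I, (E p.1 ∘L X.P p.2 ∘L ev p.1) (E n (X.b (j, k))) =
          if (n, j) = p then E n (X.b (j, k)) else 0 := by
        rintro ⟨m, j'⟩
        show E m (X.P j' (ev m (E n (X.b (j, k))))) = _
        by_cases hm : m = n
        · subst hm
          rw [ev_E_self, X.P_b]
          by_cases hj : j = j'
          · subst hj; simp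
          · rw [if_neg hj, map_zero, if_neg (by simpa using hj)]
        · rw [ev_E_ne hm, map_zero, map_zero, if_neg]
          intro h3
          exact hm (congrArg Prod.fst h3).symm
      rw [Finset.sum_congr rfl fun p _ => h2 p, Finset.sum_ite_eq]
      have h4 : (n, j) ∈ (F.fin i).toFinset ↔ F.π n j = i := by simp
      simp only [h4]
    rw [h1]
    have h5 : X.P i (X.b (F.θ n (j, k))) = if F.π n j = i then X.b (F.θ n (j, k)) else 0 :=
      X.P_b i (F.π n j) _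
    rw [h5]
    split_ifs
    · rw [U_E, V_b]
    · rw [map_zero]
  exact DFunLike.congr_fun h x

theorem Q_adjoint (i : I) : ContinuousLinearMap.adjoint (F.Q i) = F.Q i := by
  rw [Q, map_sum]
  refine Finset.sum_congr rfl fun p _ => ?_
  rw [ContinuousLinearMap.adjoint_comp, ContinuousLinearMap.adjoint_comp,
    CoarseModel.P_adjoint, adjoint_E, adjoint_ev]
  rfl

theorem U'_P (i : I) : F.U' ∘L X.P i = F.Q i ∘L F.U' := by
  have h := congrArg ContinuousLinearMap.adjoint (F.P_U i)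
  rw [ContinuousLinearMap.adjoint_comp, ContinuousLinearMap.adjoint_comp,
    CoarseModel.P_adjoint, Q_adjoint] at h
  exact h

theorem LC_ψ {T : H →L[ℂ] H} (h : X.LC T) : X.LC (F.ψ T) := by
  intro i
  constructor
  · have e : X.P i ∘L F.ψ T = ∑ p ∈ (F.fin i).toFinset,
        (F.U ∘L E p.1) ∘L (X.P p.2 ∘L T) ∘L (ev p.1 ∘L F.U') := by
      have h1 : X.P i ∘L F.ψ T = (X.P i ∘L F.U) ∘L amp T ∘L F.U' := rfl
      rw [h1, P_U]
      ext x
      show F.U (F.Q i (amp T (F.U' x))) = _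
      rw [Q, sum_apply, map_sum, sum_apply]
      rfl
    rw [e]
    refine CoarseModel.isCompact_sum _ _ fun p _ => ?_
    exact (((h p.2).1).comp_clm (ev p.1 ∘L F.U')).clm_comp (F.U ∘L E p.1)
  · have e : F.ψ T ∘L X.P i = ∑ p ∈ (F.fin i).toFinset,
        (F.U ∘L E p.1) ∘L (T ∘L X.P p.2) ∘L (ev p.1 ∘L F.U') := by
      have h1 : F.ψ T ∘L X.P i = F.U ∘L amp T ∘L (F.U' ∘L X.P i) := rfl
      rw [h1, U'_P]
      ext x
      show F.U (amp T (F.Q i (F.U' x))) = _
      rw [Q, sum_apply, map_sum, map_sum, sum_apply]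
      refine Finset.sum_congr rfl fun p _ => ?_
      show F.U (amp T (E p.1 (X.P p.2 (ev p.1 (F.U' x))))) = _
      rw [amp_E]
      rfl
    rw [e]
    refine CoarseModel.isCompact_sum _ _ fun p _ => ?_
    exact (((h p.2).2).comp_clm (ev p.1 ∘L F.U')).clm_comp (F.U ∘L E p.1)

theorem ψ_mem {T : H →L[ℂ] H} (hT : T ∈ X.preRoe) : F.ψ T ∈ X.preRoe := by
  obtain ⟨⟨R, h1⟩, h2⟩ := hT
  exact ⟨⟨_, F.propLe_ψ h1⟩, F.LC_ψ h2⟩

theorem V0_mem : F.V0 ∈ KT.idealizer X.roe := CoarseModel.mem_idealizer_of_propLe F.propLe_V0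

theorem V0'_mem : F.V0' ∈ KT.idealizer X.roe := by
  rw [← adjoint_V0]
  exact CoarseModel.mem_idealizer_of_propLe F.propLe_V0.adjoint

theorem W_mem : F.W ∈ KT.idealizer X.roe := CoarseModel.mem_idealizer_of_propLe F.propLe_W

theorem W'_mem : F.W' ∈ KT.idealizer X.roe := by
  rw [← adjoint_W]
  exact CoarseModel.mem_idealizer_of_propLe F.propLe_W.adjoint

/-- `φ` as a linear map. -/
noncomputable def φL : (H →L[ℂ] H) →ₗ[ℂ] (H →L[ℂ] H) where
  toFun := F.φ
  map_add' := F.φ_add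
  map_smul' := F.φ_smul

theorem continuous_φ : Continuous F.φ :=
  (F.φL.mkContinuous 1 F.norm_φ).continuous

theorem φ_mem {T : H →L[ℂ] H} (hT : T ∈ X.roe) : F.φ T ∈ X.roe := by
  refine CoarseModel.closure_map F.continuous_φ (fun T hT => ?_) hT
  have h1 : F.φ T = F.ψ T - F.V0 * T * F.V0' := by rw [← ψ_eq]; abel
  rw [h1]
  refine sub_mem (CoarseModel.preRoe_le (F.ψ_mem hT)) ?_
  exact (F.V0'_mem _ (F.V0_mem _ (CoarseModel.preRoe_le hT)).1).2

/-- `φ` as an endomorphism of the Roe algebra. -/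
noncomputable def Φ : X.roe →ₙₐ[ℂ] X.roe where
  toFun T := ⟨F.φ T, F.φ_mem T.2⟩
  map_smul' c T := Subtype.ext (F.φ_smul c T)
  map_zero' := Subtype.ext F.φ_zero
  map_add' S T := Subtype.ext (F.φ_add S T)
  map_mul' S T := Subtype.ext (F.φ_mul S T)

/-- The K-theory of a flasque discrete Roe algebra vanishes. -/
theorem KTop_roe_eq_bot (F : Flasque X) (n : ℕ) : KT.KTop n X.roe = ⊥ := by
  refine KT.KTop_eq_bot X.roe CoarseModel.roe_isClosed F.Φ 1 (fun a => F.norm_φ a)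
    F.V0 F.V0' F.W F.W' F.V0_mem F.V0'_mem F.W_mem F.W'_mem F.V0'_V0 F.W_W'_W F.W'_W_W'
    (fun a => F.V0'_φ a) (fun a => F.φ_V0 a) (fun a => ?_) (fun a => ?_) (fun a => ?_) n
  · have : (F.V0 * (a : H →L[ℂ] H) * F.V0' + (F.Φ a : H →L[ℂ] H)) = F.ψ a := F.ψ_eq a
    rw [this]
    exact F.φ_eq a
  · have : (F.V0 * (a : H →L[ℂ] H) * F.V0' + (F.Φ a : H →L[ℂ] H)) = F.ψ a := F.ψ_eq a
    rw [this]
    exact F.W'_W_ψ a
  · have : (F.V0 * (a : H →L[ℂ] H) * F.V0' + (F.Φ a : H →L[ℂ] H)) = F.ψ a := F.ψ_eq a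
    rw [this]
    exact F.ψ_W'_W a

end Flasque

end Pool.Agent.H368.Coarse
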