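import Pool.Agent.H368.WC.Mul
import Pool.Agent.H368.WC.ModelMain

/-!
# Discretization of a Roe algebra
-/

set_option autoImplicit false

namespace Pool.Agent.H368.WC

open MeasureTheory Filter Topology Coarse
open scoped ZeroAtInfty ENNReal NNReal InnerProductSpace

/-- An infinite dimensional separable Hilbert space has a basis indexed by `ℕ`. -/
theorem exists_basis_nat (H : Type*) [NormedAddCommGroup H] [InnerProductSpace ℂ H]
    [CompleteSpace H] [TopologicalSpace.SeparableSpace H] (h : ¬ FiniteDimensional ℂ H) :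
    Nonempty (HilbertBasis ℕ ℂ H) := by
  obtain ⟨w, b, hb⟩ := exists_hilbertBasis ℂ H
  have h1 : Infinite w := by
    by_contra hc
    rw [not_infinite_iff_finite] at hc
    have := Fintype.ofFinite w
    exact h (Module.Finite.of_basis b.toOrthonormalBasis.toBasis)
  have h2 : w.Countable := by
    have h3 : w.PairwiseDisjoint (fun x => Metric.ball x (1 / 2 : ℝ)) := by
      intro x hx y hy hxy
      apply Metric.ball_disjoint_ball
      have o := b.orthonormal
      have ex : b ⟨x, hx⟩ = x := by rw [hb]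
      have ey : b ⟨y, hy⟩ = y := by rw [hb]
      have hi : ⟪x, y⟫_ℂ = 0 := by
        rw [← ex, ← ey]
        apply o.2
        intro hc
        exact hxy (congrArg Subtype.val hc)
      have hn : ‖x - y‖ ^ 2 = ‖x‖ ^ 2 - 2 * RCLike.re ⟪x, y⟫_ℂ + ‖y‖ ^ 2 :=
        norm_sub_sq (𝕜 := ℂ) x y
      have hnx : ‖x‖ = 1 := by rw [← ex]; exact o.1 _
      have hny : ‖y‖ = 1 := by rw [← ey]; exact o.1 _
      rw [dist_eq_norm]
      rw [hnx, hny, hi, map_zero] at hn
      nlinarith [norm_nonneg (x - y)]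
    exact h3.countable_of_isOpen (fun _ _ => Metric.isOpen_ball)
      (fun x _ => ⟨x, Metric.mem_ball_self (by norm_num)⟩)
  have h4 : Countable w := h2.to_subtype
  obtain ⟨e⟩ : Nonempty (ℕ ≃ w) := nonempty_equiv_of_countable
  refine ⟨HilbertBasis.mk (b.orthonormal.comp e e.injective) ?_⟩
  have h5 : Set.range (b ∘ e) = Set.range b := e.surjective.range_comp b
  rw [h5, b.dense_span]

/-- The data for a discretization of the measure space `(X, ν)` with the metric `d`. -/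
structure Disc (X : Type*) [TopologicalSpace X] [MeasurableSpace X] (ν : Measure X)
    (d : X → X → ℝ) (I : Type*) where
  Q : I → Set X
  meas : ∀ i, MeasurableSet (Q i)
  disj : ∀ i j, i ≠ j → Disjoint (Q i) (Q j)
  cover : ν (⋃ i, Q i)ᶜ = 0
  c : I → X
  r : ℝ
  near : ∀ i, ∀ x ∈ Q i, d x (c i) ≤ r
  u : I → C₀(X, ℂ)
  u_one : ∀ i, ∀ x ∈ Q i, u i x = 1
  u_supp : ∀ i, ∀ x ∈ tsupport (u i), d x (c i) ≤ r
  small : ∀ f : C₀(X, ℂ), ∀ ε : ℝ, 0 < ε → ∃ F : Finset I, ∀ i ∉ F, ∀ x ∈ Q i, ‖f x‖ ≤ ε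
  fin : ∀ i R, {j | d (c i) (c j) ≤ R}.Finite
  E : I → ℕ → Set X
  E_meas : ∀ i n, MeasurableSet (E i n)
  E_sub : ∀ i n, E i n ⊆ Q i
  E_disj : ∀ i n m, n ≠ m → Disjoint (E i n) (E i m)
  E_pos : ∀ i n, ν (E i n) ≠ 0
  E_top : ∀ i n, ν (E i n) ≠ ∞

namespace Disc

variable {X : Type*} [TopologicalSpace X] [MeasurableSpace X] {ν : Measure X}
  {d : X → X → ℝ} {I : Type*} (D : Disc X ν d I)

/-- The projection. -/
noncomputable def P (i : I) : Lp ℂ 2 ν →L[ℂ] Lp ℂ 2 ν := proj ν (D.meas i)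

/-- The range of the projection. -/
noncomputable def Hs (i : I) : Submodule ℂ (Lp ℂ 2 ν) :=
  LinearMap.eqLocus (D.P i).toLinearMap LinearMap.id

theorem mem_Hs {i : I} {u : Lp ℂ 2 ν} : u ∈ D.Hs i ↔ D.P i u = u := Iff.rfl

theorem isClosed_Hs (i : I) : IsClosed (D.Hs i : Set (Lp ℂ 2 ν)) := by
  have : (D.Hs i : Set (Lp ℂ 2 ν)) = {u | D.P i u = u} := rfl
  rw [this]
  exact isClosed_eq (D.P i).continuous continuous_id

theorem P_P (i : I) (u : Lp ℂ 2 ν) : D.P i (D.P i u) = D.P i u :=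
  DFunLike.congr_fun (proj_idem (D.meas i)) u

theorem P_P_ne {i j : I} (h : i ≠ j) (u : Lp ℂ 2 ν) : D.P i (D.P j u) = 0 :=
  DFunLike.congr_fun (proj_disj (D.meas i) (D.meas j) (D.disj i j h)) u

theorem inner_P (i : I) (u v : Lp ℂ 2 ν) : ⟪D.P i u, v⟫_ℂ = ⟪u, D.P i v⟫_ℂ :=
  inner_proj (D.meas i) u v

theorem eq_zero_of_P (u : Lp ℂ 2 ν) [Countable I] (h : ∀ i, D.P i u = 0) : u = 0 := by
  apply Lp.ext
  have h1 : ∀ᵐ x ∂ν, ∀ i, (D.Q i).indicator u x = 0 := by
    rw [ae_all_iff]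
    intro i
    have h2 := coeFn_proj (D.meas i) u
    have h3 : D.P i u =ᵐ[ν] (0 : X → ℂ) := by
      rw [h i]
      exact Lp.coeFn_zero ℂ 2 ν
    filter_upwards [h2, h3] with x h4 h5
    exact h4.symm.trans h5
  have h6 : ∀ᵐ x ∂ν, x ∈ ⋃ i, D.Q i := D.cover
  filter_upwards [h1, h6, Lp.coeFn_zero ℂ 2 ν] with x h7 h8 h9
  obtain ⟨i, hi⟩ := Set.mem_iUnion.1 h8
  have := h7 i
  rw [Set.indicator_of_mem hi] at this
  rw [this, h9]
  rfl

theorem not_finiteDimensional (i : I) : ¬ FiniteDimensional ℂ (D.Hs i) := by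
  intro hf
  let e : ℕ → Lp ℂ 2 ν := fun n => indicatorConstLp 2 (D.E_meas i n) (D.E_top i n) (1 : ℂ)
  have he : ∀ n, proj ν (D.E_meas i n) (e n) = e n := by
    intro n
    apply Lp.ext
    filter_upwards [coeFn_proj (D.E_meas i n) (e n),
      indicatorConstLp_coeFn (p := 2) (hs := D.E_meas i n) (hμs := D.E_top i n) (c := (1 : ℂ))]
      with x h1 h2
    rw [h1]
    have h3 : e n x = (D.E i n).indicator (fun _ => (1 : ℂ)) x := h2
    by_cases hx : x ∈ D.E i n
    · rw [Set.indicator_of_mem hx]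
    · rw [Set.indicator_of_notMem hx, h3, Set.indicator_of_notMem hx]
  have hne : ∀ n, e n ≠ 0 := by
    intro n h0
    have h1 := norm_indicatorConstLp (p := 2) (hs := D.E_meas i n) (hμs := D.E_top i n)
      (c := (1 : ℂ)) (by norm_num) (by norm_num)
    have h2 : ‖e n‖ = 0 := by rw [h0, norm_zero]
    have h3 : 0 < ν.real (D.E i n) := by
      rw [Measure.real, ENNReal.toReal_pos_iff]
      exact ⟨pos_iff_ne_zero.2 (D.E_pos i n), lt_top_iff_ne_top.2 (D.E_top i n)⟩
    have h4 : ‖e n‖ = ‖(1 : ℂ)‖ * ν.real (D.E i n) ^ (1 / (2 : ℝ≥0∞).toReal) := h1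
    have h5 : 0 < ν.real (D.E i n) ^ (1 / (2 : ℝ≥0∞).toReal) := Real.rpow_pos_of_pos h3 _
    rw [h2, norm_one, one_mul] at h4
    linarith
  have hmem : ∀ n, e n ∈ D.Hs i := by
    intro n
    rw [mem_Hs, ← he n]
    have h1 : D.P i ∘L proj ν (D.E_meas i n) = proj ν (D.E_meas i n) := by
      apply mulL_comp
      intro x
      by_cases hx : x ∈ D.E i n
      · simp [hx, D.E_sub i n hx]
      · simp [hx]
    exact DFunLike.congr_fun h1 (e n)
  have hlin : LinearIndependent ℂ (fun n => (⟨e n, hmem n⟩ : D.Hs i)) := by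
    apply linearIndependent_of_ne_zero_of_inner_eq_zero (𝕜 := ℂ)
    · intro n hn
      exact hne n (congrArg Subtype.val hn)
    · intro n m hnm
      show ⟪e n, e m⟫_ℂ = 0
      rw [← he n, ← he m, inner_proj]
      have := DFunLike.congr_fun (proj_disj (ν := ν) (D.E_meas i n) (D.E_meas i m)
        (D.E_disj i n m hnm)) (e m)
      have h2 : proj ν (D.E_meas i n) (proj ν (D.E_meas i m) (e m)) = 0 := this
      rw [h2, inner_zero_right]
  have := hlin.finite
  exact not_finite ℕ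

theorem exists_basis [MeasurableSpace.CountablyGenerated X] [SFinite ν] (i : I) :
    Nonempty (HilbertBasis ℕ ℂ (D.Hs i)) := by
  have h1 : CompleteSpace (D.Hs i) := (D.isClosed_Hs i).completeSpace_coe
  have h3 : Fact ((2 : ℝ≥0∞) ≠ ∞) := ⟨by norm_num⟩
  have h2 : SecondCountableTopology (Lp ℂ 2 ν) := inferInstance
  exact exists_basis_nat _ (D.not_finiteDimensional i)

/-- The basis of the range of the `i`-th projection. -/
noncomputable def bs [MeasurableSpace.CountablyGenerated X] [SFinite ν] (i : I) :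
    HilbertBasis ℕ ℂ (D.Hs i) := (D.exists_basis i).some

variable [MeasurableSpace.CountablyGenerated X] [SFinite ν]

/-- The vectors of the global basis. -/
noncomputable def vec (x : I × ℕ) : Lp ℂ 2 ν := (D.bs x.1 x.2 : Lp ℂ 2 ν)

theorem P_vec (i : I) (k : ℕ) : D.P i (D.vec (i, k)) = D.vec (i, k) := (D.bs i k).2

theorem P_vec_ne {i j : I} (h : i ≠ j) (k : ℕ) : D.P i (D.vec (j, k)) = 0 := by
  rw [← P_vec]
  exact D.P_P_ne h _

theorem orthonormal_vec : Orthonormal ℂ D.vec := by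
  constructor
  · rintro ⟨i, k⟩
    exact (D.bs i).orthonormal.1 k
  · rintro ⟨i, k⟩ ⟨j, l⟩ h
    show ⟪D.vec (i, k), D.vec (j, l)⟫_ℂ = 0
    by_cases hij : i = j
    · subst hij
      have hkl : k ≠ l := fun hc => h (by rw [hc])
      exact (D.bs i).orthonormal.2 hkl
    · rw [← P_vec, inner_P, P_vec_ne _ hij, inner_zero_right]

/-- The global basis. -/
noncomputable def basis [Countable I] : HilbertBasis (I × ℕ) ℂ (Lp ℂ 2 ν) :=
  HilbertBasis.mkOfOrthogonalEqBot D.orthonormal_vec (by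
    rw [eq_bot_iff]
    intro u hu
    rw [Submodule.mem_orthogonal] at hu
    rw [Submodule.mem_bot]
    apply D.eq_zero_of_P
    intro i
    have h1 : D.P i u ∈ D.Hs i := D.P_P i u
    have h2 : (⟨D.P i u, h1⟩ : D.Hs i) = 0 := by
      have : CompleteSpace (D.Hs i) := (D.isClosed_Hs i).completeSpace_coe
      apply hb_ext_inner (D.bs i)
      intro k
      rw [inner_zero_right]
      show ⟪D.vec (i, k), D.P i u⟫_ℂ = 0
      rw [← inner_P, P_vec]
      exact hu _ (Submodule.subset_span ⟨(i, k), rfl⟩)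
    exact congrArg Subtype.val h2)

theorem basis_apply [Countable I] (x : I × ℕ) : D.basis x = D.vec x := by
  rw [basis, HilbertBasis.coe_mkOfOrthogonalEqBot]

end Disc

end Pool.Agent.H368.WC
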