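import Pool.Agent.H368.WC.Disc

/-!
# The Roe algebra is the Roe algebra of the discretization
-/

set_option autoImplicit false

namespace Pool.Agent.H368.WC

open MeasureTheory Filter Topology Coarse
open scoped ZeroAtInfty ENNReal NNReal InnerProductSpace

namespace Disc

variable {X : Type*} [TopologicalSpace X] [MeasurableSpace X] {ν : Measure X}
  {d : X → X → ℝ} {I : Type*} (D : Disc X ν d I) [MeasurableSpace.CountablyGenerated X]
  [SFinite ν] [Countable I] [DecidableEq I]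

/-- The coarse model given by a discretization. -/
noncomputable def model (hd : IsMetric d) : CoarseModel (Lp ℂ 2 ν) I where
  b := D.basis
  P := D.P
  P_b := by
    intro i j k
    rw [basis_apply]
    by_cases h : j = i
    · subst h
      rw [if_pos rfl, P_vec]
    · rw [if_neg h, P_vec_ne _ (Ne.symm h)]
  D i j := d (D.c i) (D.c j)
  D_symm _ _ := hd.symm _ _
  D_tri _ _ _ := hd.triangle _ _ _
  fin := D.fin

theorem sum_P_ae (F : Finset I) (v : Lp ℂ 2 ν) :
    (∑ i ∈ F, D.P i) v =ᵐ[ν] fun x => ∑ i ∈ F, (D.Q i).indicator v x := by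
  induction F using Finset.induction_on with
  | empty =>
    rw [Finset.sum_empty]
    filter_upwards [Lp.coeFn_zero ℂ 2 ν] with x h1
    have : (0 : Lp ℂ 2 ν →L[ℂ] Lp ℂ 2 ν) v = 0 := rfl
    rw [this, h1]
    simp
  | insert a F ha ih =>
    rw [Finset.sum_insert ha]
    have : (D.P a + ∑ i ∈ F, D.P i) v = D.P a v + (∑ i ∈ F, D.P i) v := rfl
    rw [this]
    filter_upwards [Lp.coeFn_add (D.P a v) ((∑ i ∈ F, D.P i) v), ih, coeFn_proj (D.meas a) v]
      with x h1 h2 h3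
    rw [h1, Finset.sum_insert ha, Pi.add_apply, h2]
    have h4 : (D.P a v) x = (D.Q a).indicator v x := h3
    rw [h4]

variable [BorelSpace X] [SecondCountableTopology X]

theorem norm_sub_le (f : C₀(X, ℂ)) {ε : ℝ} (hε : 0 < ε) : ∃ F : Finset I,
    ‖LmulOp ν f - LmulOp ν f ∘L (∑ i ∈ F, D.P i)‖ ≤ ε := by
  obtain ⟨F, hF⟩ := D.small f ε hε
  refine ⟨F, ?_⟩
  apply ContinuousLinearMap.opNorm_le_bound _ hε.le
  intro v
  apply Lp.norm_le_mul_norm_of_ae_le_mul
  have h6 : ∀ᵐ x ∂ν, x ∈ ⋃ i, D.Q i := D.cover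
  have h0 : (LmulOp ν f - LmulOp ν f ∘L (∑ i ∈ F, D.P i)) v =
    LmulOp ν f v - LmulOp ν f ((∑ i ∈ F, D.P i) v) := rfl
  rw [h0]
  filter_upwards [Lp.coeFn_sub (LmulOp ν f v) (LmulOp ν f ((∑ i ∈ F, D.P i) v)),
    coeFn_mulL f (memLp_top ν f) v, coeFn_mulL f (memLp_top ν f) ((∑ i ∈ F, D.P i) v),
    D.sum_P_ae F v, h6] with x h1 h2 h3 h4 h5
  rw [h1, Pi.sub_apply]
  have h2' : (LmulOp ν f v) x = f x * v x := h2
  have h3' : (LmulOp ν f ((∑ i ∈ F, D.P i) v)) x = f x * ((∑ i ∈ F, D.P i) v) x := h3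
  rw [h2', h3', h4]
  obtain ⟨j, hj⟩ := Set.mem_iUnion.1 h5
  have h7 : ∀ i, i ≠ j → (D.Q i).indicator v x = 0 := by
    intro i hi
    apply Set.indicator_of_notMem
    intro hx
    exact (Set.disjoint_left.1 (D.disj i j hi)) hx hj
  by_cases hjF : j ∈ F
  · rw [Finset.sum_eq_single j (fun i _ hi => h7 i hi) (fun h => absurd hjF h),
      Set.indicator_of_mem hj, sub_self, norm_zero]
    positivity
  · rw [Finset.sum_eq_zero (fun i hi => h7 i (fun h => hjF (h ▸ hi))), mul_zero, sub_zero,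
      norm_mul]
    gcongr
    exact hF j hjF x hj

theorem isCompact_of_approx {T : Lp ℂ 2 ν →L[ℂ] Lp ℂ 2 ν}
    (h : ∀ ε : ℝ, 0 < ε → ∃ S : Lp ℂ 2 ν →L[ℂ] Lp ℂ 2 ν, IsCompactOperator S ∧ ‖T - S‖ ≤ ε) :
    IsCompactOperator T := by
  have h1 : IsClosed {f : Lp ℂ 2 ν →L[ℂ] Lp ℂ 2 ν | IsCompactOperator f} :=
    isClosed_setOfPred_isCompactOperator
  have h2 : T ∈ closure {f : Lp ℂ 2 ν →L[ℂ] Lp ℂ 2 ν | IsCompactOperator f} := by
    rw [Metric.mem_closure_iff]
    intro ε hε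
    obtain ⟨S, hS, hS'⟩ := h (ε / 2) (by positivity)
    exact ⟨S, hS, by rw [dist_eq_norm]; linarith⟩
  rw [h1.closure_eq] at h2
  exact h2

theorem model_LC_iff (hd : IsMetric d) (T : Lp ℂ 2 ν →L[ℂ] Lp ℂ 2 ν) :
    (D.model hd).LC T ↔ LLocallyCompact ν T := by
  constructor
  · intro h f
    constructor
    · apply isCompact_of_approx
      intro ε hε
      obtain ⟨F, hF⟩ := D.norm_sub_le f (ε := ε / (‖T‖ + 1)) (by positivity)
      refine ⟨LmulOp ν f ∘L (∑ i ∈ F, D.P i) ∘L T, ?_, ?_⟩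
      · have h1 : (∑ i ∈ F, D.P i) ∘L T = ∑ i ∈ F, D.P i ∘L T := by
          ext1 v
          simp
        rw [h1]
        exact (CoarseModel.isCompact_sum F _ fun i _ => (h i).1).clm_comp (LmulOp ν f)
      · have h1 : LmulOp ν f ∘L T - LmulOp ν f ∘L (∑ i ∈ F, D.P i) ∘L T =
          (LmulOp ν f - LmulOp ν f ∘L (∑ i ∈ F, D.P i)) ∘L T := rfl
        rw [h1]
        refine (ContinuousLinearMap.opNorm_comp_le _ _).trans ?_
        calc ‖LmulOp ν f - LmulOp ν f ∘L (∑ i ∈ F, D.P i)‖ * ‖T‖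
            ≤ ε / (‖T‖ + 1) * (‖T‖ + 1) := by gcongr; linarith
          _ = ε := by field_simp
    · apply isCompact_of_approx
      intro ε hε
      obtain ⟨F, hF⟩ := D.norm_sub_le f (ε := ε / (‖T‖ + 1)) (by positivity)
      refine ⟨T ∘L (∑ i ∈ F, D.P i) ∘L LmulOp ν f, ?_, ?_⟩
      · have h1 : T ∘L (∑ i ∈ F, D.P i) ∘L LmulOp ν f =
            ∑ i ∈ F, (T ∘L D.P i) ∘L LmulOp ν f := by
          ext1 v
          simp [map_sum]
        rw [h1]
        exact CoarseModel.isCompact_sum F _ fun i _ => ((h i).2).comp_clm (LmulOp ν f)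
      · have h0 : (∑ i ∈ F, D.P i) ∘L LmulOp ν f = LmulOp ν f ∘L (∑ i ∈ F, D.P i) := by
          ext1 v
          simp only [ContinuousLinearMap.comp_apply, sum_apply, map_sum]
          refine Finset.sum_congr rfl fun i _ => ?_
          exact (DFunLike.congr_fun (LmulOp_comp_proj_comm (ν := ν) f (D.meas i)) v).symm
        have h1 : T ∘L LmulOp ν f - T ∘L (∑ i ∈ F, D.P i) ∘L LmulOp ν f =
            T ∘L (LmulOp ν f - LmulOp ν f ∘L (∑ i ∈ F, D.P i)) := by
          rw [h0, ContinuousLinearMap.comp_sub]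
        rw [h1]
        refine (ContinuousLinearMap.opNorm_comp_le _ _).trans ?_
        calc ‖T‖ * ‖LmulOp ν f - LmulOp ν f ∘L (∑ i ∈ F, D.P i)‖
            ≤ (‖T‖ + 1) * (ε / (‖T‖ + 1)) := by gcongr; linarith
          _ = ε := by field_simp
  · intro h i
    have h1 : LmulOp ν (D.u i) ∘L D.P i = D.P i := LmulOp_comp_proj_eq _ (D.meas i) (D.u_one i)
    have h2 : D.P i ∘L LmulOp ν (D.u i) = D.P i :=
      (LmulOp_comp_proj_comm (ν := ν) (D.u i) (D.meas i)).symm.trans h1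
    constructor
    · have h3 : D.P i ∘L T = D.P i ∘L (LmulOp ν (D.u i) ∘L T) := by
        rw [← ContinuousLinearMap.comp_assoc, h2]
      show IsCompactOperator (D.P i ∘L T)
      rw [h3]
      exact ((h (D.u i)).1).clm_comp (D.P i)
    · have h3 : T ∘L D.P i = (T ∘L LmulOp ν (D.u i)) ∘L D.P i := by
        rw [ContinuousLinearMap.comp_assoc, h1]
      show IsCompactOperator (T ∘L D.P i)
      rw [h3]
      exact ((h (D.u i)).2).comp_clm (D.P i)

theorem PTP_eq_zero {T : Lp ℂ 2 ν →L[ℂ] Lp ℂ 2 ν} {i j : I}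
    (h : ∀ k l, ⟪D.vec (i, k), T (D.vec (j, l))⟫_ℂ = 0) (v : Lp ℂ 2 ν) :
    D.P i (T (D.P j v)) = 0 := by
  have : D.P i ∘L T ∘L D.P j = 0 := by
    apply hb_ext D.basis
    rintro ⟨j', l⟩
    apply hb_ext_inner D.basis
    rintro ⟨i', k⟩
    rw [basis_apply, basis_apply]
    show ⟪D.vec (i', k), D.P i (T (D.P j (D.vec (j', l))))⟫_ℂ = ⟪D.vec (i', k), 0⟫_ℂ
    rw [inner_zero_right, ← inner_P]
    by_cases hi : i = i'
    · subst hi
      rw [P_vec]
      by_cases hj : j = j'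
      · subst hj
        rw [P_vec]
        exact h k l
      · rw [P_vec_ne _ hj, map_zero, inner_zero_right]
    · rw [P_vec_ne _ hi, inner_zero_left]
  exact DFunLike.congr_fun this v

theorem model_prop_iff (hd : IsMetric d) (T : Lp ℂ 2 ν →L[ℂ] Lp ℂ 2 ν) :
    (∃ R, (D.model hd).PropLe R T) ↔ LFinitePropagation ν d T := by
  constructor
  · rintro ⟨R, hR⟩
    refine ⟨|R| + 2 * |D.r| + 1, by positivity, fun φ ψ h => ?_⟩
    apply hb_ext D.basis
    rintro ⟨j, l⟩
    apply hb_ext_inner D.basis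
    rintro ⟨i, k⟩
    rw [basis_apply, basis_apply, zero_apply, inner_zero_right]
    show ⟪D.vec (i, k), LmulOp ν φ (T (LmulOp ν ψ (D.vec (j, l))))⟫_ℂ = 0
    by_cases h1 : ∀ y ∈ D.Q j, ψ y = 0
    · have h2 : LmulOp ν ψ (D.P j (D.vec (j, l))) = 0 :=
        DFunLike.congr_fun (LmulOp_comp_proj_zero (ν := ν) ψ (D.meas j) h1) _
      rw [P_vec] at h2
      rw [h2, map_zero, map_zero, inner_zero_right]
    by_cases h3 : ∀ x ∈ D.Q i, φ x = 0
    · have h4 : ∀ v, D.P i (LmulOp ν φ v) = 0 := by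
        intro v
        have h5 := DFunLike.congr_fun (LmulOp_comp_proj_comm (ν := ν) φ (D.meas i)) v
        have h6 := DFunLike.congr_fun (LmulOp_comp_proj_zero (ν := ν) φ (D.meas i) h3) v
        exact h5.symm.trans h6
      rw [← P_vec, inner_P, h4, inner_zero_right]
    push Not at h1 h3
    obtain ⟨y, hy, hy'⟩ := h1
    obtain ⟨x, hx, hx'⟩ := h3
    have h5 := h x (subset_tsupport _ hx') y (subset_tsupport _ hy')
    have h6 := D.near i x hx
    have h7 := D.near j y hy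
    have h8 := hd.triangle x (D.c i) y
    have h9 := hd.triangle (D.c i) (D.c j) y
    rw [hd.symm (D.c j) y] at h9
    have h10 : R < d (D.c i) (D.c j) := by
      have := le_abs_self R
      have := le_abs_self D.r
      linarith
    have h11 : ∀ k l, ⟪D.vec (i, k), T (D.vec (j, l))⟫_ℂ = 0 := by
      intro k l
      have h12 := hR i j h10 k l
      have h13 : ⟪D.basis (i, k), T (D.basis (j, l))⟫_ℂ = 0 := h12
      rwa [basis_apply, basis_apply] at h13
    have h14 : ∀ v, D.P i (LmulOp ν φ v) = LmulOp ν φ (D.P i v) := fun v =>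
      (DFunLike.congr_fun (LmulOp_comp_proj_comm (ν := ν) φ (D.meas i)) v).symm
    have h15 : ∀ v, LmulOp ν ψ (D.P j v) = D.P j (LmulOp ν ψ v) := fun v =>
      DFunLike.congr_fun (LmulOp_comp_proj_comm (ν := ν) ψ (D.meas j)) v
    rw [← P_vec, inner_P, h14, ← D.P_vec j l, h15, D.PTP_eq_zero h11, map_zero, inner_zero_right]
  · rintro ⟨R, -, hR⟩
    refine ⟨R + 2 * D.r, fun i j hij k l => ?_⟩
    have h0 : R + 2 * D.r < d (D.c i) (D.c j) := hij
    have h1 : LmulOp ν (D.u i) ∘L T ∘L LmulOp ν (D.u j) = 0 := by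
      apply hR
      intro x hx y hy
      have h2 := D.u_supp i x hx
      have h3 := D.u_supp j y hy
      have h4 := hd.triangle (D.c i) x (D.c j)
      have h5 := hd.triangle x y (D.c j)
      rw [hd.symm (D.c i) x] at h4
      linarith
    have h6 : LmulOp ν (D.u j) ∘L D.P j = D.P j := LmulOp_comp_proj_eq _ (D.meas j) (D.u_one j)
    have h7 : D.P i ∘L LmulOp ν (D.u i) = D.P i :=
      (LmulOp_comp_proj_comm (ν := ν) (D.u i) (D.meas i)).symm.trans
        (LmulOp_comp_proj_eq _ (D.meas i) (D.u_one i))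
    show ⟪D.basis (i, k), T (D.basis (j, l))⟫_ℂ = 0
    rw [basis_apply, basis_apply, ← P_vec, inner_P, ← D.P_vec j l]
    have h8 : D.P i (T (D.P j (D.vec (j, l)))) =
        D.P i (LmulOp ν (D.u i) (T (LmulOp ν (D.u j) (D.P j (D.vec (j, l)))))) := by
      have h9 : LmulOp ν (D.u j) (D.P j (D.vec (j, l))) = D.P j (D.vec (j, l)) :=
        DFunLike.congr_fun h6 _
      rw [h9]
      exact (DFunLike.congr_fun h7 _).symm
    rw [h8]
    have h10 : LmulOp ν (D.u i) (T (LmulOp ν (D.u j) (D.P j (D.vec (j, l))))) = 0 :=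
      DFunLike.congr_fun h1 _
    rw [h10, map_zero, inner_zero_right]

theorem isRoeAlgebra (hd : IsMetric d) : LIsRoeAlgebra ν d (D.model hd).roe := by
  have h1 : {T | LLocallyCompact ν T ∧ LFinitePropagation ν d T} =
      ((D.model hd).preRoe : Set (Lp ℂ 2 ν →L[ℂ] Lp ℂ 2 ν)) := by
    ext T
    show LLocallyCompact ν T ∧ LFinitePropagation ν d T ↔
      (∃ R, (D.model hd).PropLe R T) ∧ (D.model hd).LC T
    rw [D.model_LC_iff hd, D.model_prop_iff hd, and_comm]
  show ((D.model hd).roe : Set (Lp ℂ 2 ν →L[ℂ] Lp ℂ 2 ν)) = _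
  rw [h1]
  rfl

end Disc

end Pool.Agent.H368.WC
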