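import Pool.Agent.H368.WC.BernDense

/-!
# The spectral gap of the Bernoulli action
-/

set_option autoImplicit false

namespace Pool.Agent.H368.WC.Bern

open MeasureTheory Filter Topology
open scoped ENNReal NNReal InnerProductSpace ComplexConjugate

theorem tr_one (k : F2 →₀ ℕ) : tr 1 k = k := by
  ext g
  rw [tr_apply, inv_one, one_mul]

theorem tr_mul (h h' : F2) (k : F2 →₀ ℕ) : tr (h * h') k = tr h (tr h' k) := by
  ext g
  rw [tr_apply, tr_apply, tr_apply, mul_inv_rev, mul_assoc]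

theorem tr_ne_zero {h : F2} {k : F2 →₀ ℕ} (hk : k ≠ 0) : tr h k ≠ 0 := by
  intro h0
  apply hk
  have h1 := congrArg (tr h⁻¹) h0
  rw [← tr_mul, inv_mul_cancel, tr_one] at h1
  rw [h1]
  ext g
  rfl

theorem tr_free {h : F2} {k : F2 →₀ ℕ} (hk : k ≠ 0) (h1 : tr h k = k) : h = 1 := by
  obtain ⟨g, hg⟩ : ∃ g, k g ≠ 0 := by
    by_contra hc
    push Not at hc
    exact hk (Finsupp.ext hc)
  have h2 : ∀ n : ℕ, k (h ^ n * g) = k g := by
    intro n
    induction n with
    | zero => rw [pow_zero, one_mul]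
    | succ n ih =>
      have h3 : tr h k (h ^ (n + 1) * g) = k (h ^ n * g) := by
        rw [tr_apply, pow_succ', mul_assoc, inv_mul_cancel_left]
      rw [h1] at h3
      rw [h3, ih]
  have h3 : ¬ Function.Injective (fun n : ℕ => h ^ n * g) := by
    intro hi
    have h4 : (Set.range fun n : ℕ => h ^ n * g) ⊆ (k.support : Set F2) := by
      rintro _ ⟨n, rfl⟩
      rw [Finset.mem_coe, Finsupp.mem_support_iff, h2]
      exact hg
    exact (Set.infinite_range_of_injective hi) (k.support.finite_toSet.subset h4)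
  by_contra hne
  apply h3
  intro n m hnm
  have h4 : h ^ n = h ^ m := mul_right_cancel hnm
  exact (injective_pow_iff_not_isOfFinOrder.2 (not_isOfFinOrder_of_isMulTorsionFree hne)) h4

/-- An equivariant map from the nonzero indices to the group. -/
theorem exists_equivariant : ∃ γ : (F2 →₀ ℕ) → F2, ∀ (h : F2) (k : F2 →₀ ℕ), k ≠ 0 →
    γ (tr h k) = h * γ k := by
  let s : Setoid (F2 →₀ ℕ) :=
    { r := fun k l => ∃ h, tr h k = l
      iseqv := ⟨fun k => ⟨1, tr_one k⟩, by
        rintro k _ ⟨h, rfl⟩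
        exact ⟨h⁻¹, by rw [← tr_mul, inv_mul_cancel, tr_one]⟩, by
        rintro k _ _ ⟨h, rfl⟩ ⟨h', rfl⟩
        exact ⟨h' * h, tr_mul _ _ _⟩⟩ }
  let rep : (F2 →₀ ℕ) → (F2 →₀ ℕ) := fun k => Quotient.out (Quotient.mk s k)
  have h1 : ∀ k, ∃ h, tr h (rep k) = k := by
    intro k
    have : Quotient.mk s (rep k) = Quotient.mk s k := Quotient.out_eq _
    exact Quotient.exact this
  choose γ hγ using h1
  refine ⟨γ, fun h k hk => ?_⟩
  have h2 : rep (tr h k) = rep k := by
    show Quotient.out _ = Quotient.out _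
    congr 1
    exact Quotient.sound ⟨h⁻¹, by rw [← tr_mul, inv_mul_cancel, tr_one]⟩
  have h3 := hγ (tr h k)
  rw [h2] at h3
  have h4 : rep k ≠ 0 := by
    intro h0
    have h5 := hγ k
    rw [h0] at h5
    apply hk
    rw [← h5]
    ext g
    rfl
  have h5 : tr ((h * γ k)⁻¹ * γ (tr h k)) (rep k) = rep k := by
    rw [tr_mul, h3, mul_inv_rev, tr_mul, ← tr_mul h⁻¹ h, inv_mul_cancel, tr_one]
    have h7 := congrArg (tr (γ k)⁻¹) (hγ k)
    rw [← tr_mul, inv_mul_cancel, tr_one] at h7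
    exact h7.symm
  have h6 := tr_free h4 h5
  exact (inv_mul_eq_one.1 h6).symm

theorem head_aux (i : Fin 2) (g : F2) : g.toWord.head? = some (i, true) ∨
    ((FreeGroup.of i)⁻¹ * g).toWord.head? = some (i, false) := by
  have h1 : ((FreeGroup.of i)⁻¹ * g).toWord = FreeGroup.reduce ((i, false) :: g.toWord) := by
    rw [FreeGroup.toWord_mul, FreeGroup.toWord_inv, FreeGroup.toWord_of]
    rfl
  have h2 := FreeGroup.reduce.cons (L := g.toWord) (i, false)
  rw [FreeGroup.reduce_toWord] at h2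
  rw [h1, h2]
  rcases hw : g.toWord with _ | ⟨hd, tl⟩
  · right
    rfl
  · by_cases hc : i = hd.1 ∧ false = !hd.2
    · left
      obtain ⟨h3, h4⟩ := hc
      have h5 : hd = (i, true) := by
        apply Prod.ext
        · exact h3.symm
        · simpa using h4
      rw [h5]
      rfl
    · right
      show (if (i, false).1 = hd.1 ∧ (i, false).2 = !hd.2 then tl else
        (i, false) :: hd :: tl).head? = _
      rw [if_neg hc]
      rfl

/-- The squares of the coefficients. -/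
noncomputable def A (f : Lp ℂ 2 μ) (k : F2 →₀ ℕ) : ℝ := ‖⟪hb k, f⟫_ℂ‖ ^ 2

theorem hasSum_A (f : Lp ℂ 2 μ) : HasSum (A f) (‖f‖ ^ 2) := by
  have h1 := hb.hasSum_inner_mul_inner f f
  have h2 := Complex.hasSum_re h1
  have h3 : ∀ k, (⟪f, hb k⟫_ℂ * ⟪hb k, f⟫_ℂ).re = A f k := by
    intro k
    unfold A
    rw [← inner_conj_symm f (hb k), ← Complex.normSq_eq_conj_mul_self, Complex.ofReal_re,
      Complex.normSq_eq_norm_sq]
  simp only [h3] at h2
  have h4 : (⟪f, f⟫_ℂ).re = ‖f‖ ^ 2 := by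
    rw [inner_self_eq_norm_sq_to_K]
    norm_cast
  rw [h4] at h2
  exact h2

theorem coef_kp (h : F2) (f : Lp ℂ 2 μ) (k : F2 →₀ ℕ) :
    ⟪hb k, kp h f⟫_ℂ = ⟪hb (tr h⁻¹ k), f⟫_ℂ := by
  have h1 : hb k = kp h (hb (tr h⁻¹ k)) := by
    rw [hb_apply, hb_apply, kp_ev, ← tr_mul, mul_inv_cancel, tr_one]
  rw [h1, LinearIsometry.inner_map_map]

theorem A_nonneg (f : Lp ℂ 2 μ) (k : F2 →₀ ℕ) : 0 ≤ A f k := by unfold A; positivity

theorem A_le (h : F2) (f : Lp ℂ 2 μ) (k : F2 →₀ ℕ) :
    A f k ≤ 3 / 2 * A f (tr h⁻¹ k) + 3 * A (kp h f - f) k := by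
  unfold A
  rw [inner_sub_right, coef_kp]
  set a := ⟪hb k, f⟫_ℂ
  set b := ⟪hb (tr h⁻¹ k), f⟫_ℂ
  have h1 : ‖a‖ ≤ ‖b‖ + ‖b - a‖ := by
    have : a = b - (b - a) := by ring
    calc ‖a‖ = ‖b - (b - a)‖ := by rw [← this]
      _ ≤ ‖b‖ + ‖b - a‖ := norm_sub_le _ _
  have h2 := norm_nonneg a
  have h3 := norm_nonneg b
  have h4 := norm_nonneg (b - a)
  nlinarith [sq_nonneg (‖b‖ - 2 * ‖b - a‖)]

theorem key (f : Lp ℂ 2 μ) (h0 : ⟪hb 0, f⟫_ℂ = 0) :
    ‖f‖ ^ 2 ≤ 6 * (‖kp (FreeGroup.of 0) f - f‖ ^ 2 + ‖kp (FreeGroup.of 1) f - f‖ ^ 2) := by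
  classical
  obtain ⟨γ, hγ⟩ := exists_equivariant
  let c : Fin 2 → Bool → (F2 →₀ ℕ) → ℝ := fun i b k =>
    if (γ k).toWord.head? = some (i, b) then 1 else 0
  have hc0 : ∀ i b k, 0 ≤ c i b k := by
    intro i b k
    simp only [c]
    split_ifs <;> norm_num
  have hc1 : ∀ i b k, c i b k ≤ 1 := by
    intro i b k
    simp only [c]
    split_ifs <;> norm_num
  have hA0 : A f 0 = 0 := by
    unfold A
    rw [h0]
    simp
  have hSA := hasSum_A f
  have hsum : ∀ i b, Summable fun k => c i b k * A f k := by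
    intro i b
    refine Summable.of_nonneg_of_le (fun k => mul_nonneg (hc0 i b k) (A_nonneg f k)) (fun k => ?_)
      hSA.summable
    have := A_nonneg f k
    have := hc1 i b k
    nlinarith
  have hstep : ∀ i, ‖f‖ ^ 2 ≤ 3 / 2 * (∑' k, c i true k * A f k + ∑' k, c i false k * A f k) +
      3 * ‖kp (FreeGroup.of i) f - f‖ ^ 2 := by
    intro i
    let e : (F2 →₀ ℕ) ≃ (F2 →₀ ℕ) :=
      { toFun := tr (FreeGroup.of i)⁻¹
        invFun := tr (FreeGroup.of i)
        left_inv := fun k => by rw [← tr_mul, mul_inv_cancel, tr_one]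
        right_inv := fun k => by rw [← tr_mul, inv_mul_cancel, tr_one] }
    have hp : ∀ k, A f k ≤ 3 / 2 * (c i true k * A f k) +
        3 / 2 * (c i false (e k) * A f (e k)) + 3 * A (kp (FreeGroup.of i) f - f) k := by
      intro k
      have hn1 := A_nonneg f k
      have hn2 := A_nonneg f (e k)
      have hn3 := A_nonneg (kp (FreeGroup.of i) f - f) k
      have hn4 := hc0 i true k
      have hn5 := hc0 i false (e k)
      have hn6 : 0 ≤ c i true k * A f k := by positivity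
      have hn7 : 0 ≤ c i false (e k) * A f (e k) := by positivity
      by_cases hk : k = 0
      · subst hk
        rw [hA0, mul_zero, mul_zero, zero_add]
        positivity
      · rcases head_aux i (γ k) with h1 | h1
        · have h2 : c i true k = 1 := if_pos h1
          rw [h2] at hn6 ⊢
          linarith
        · have h2 : γ (e k) = (FreeGroup.of i)⁻¹ * γ k := hγ _ _ hk
          have h3 : c i false (e k) = 1 := by
            apply if_pos
            rw [h2]
            exact h1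
          rw [h3, one_mul]
          have h4 : A f k ≤ 3 / 2 * A f (e k) + 3 * A (kp (FreeGroup.of i) f - f) k :=
            A_le (FreeGroup.of i) f k
          linarith
    have hs1 : HasSum (fun k => 3 / 2 * (c i true k * A f k)) (3 / 2 * ∑' k, c i true k * A f k) :=
      (hsum i true).hasSum.mul_left _
    have hs2 : HasSum (fun k => 3 / 2 * (c i false (e k) * A f (e k)))
        (3 / 2 * ∑' k, c i false k * A f k) :=
      (e.hasSum_iff.2 (hsum i false).hasSum).mul_left _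
    have hs3 := (hasSum_A (kp (FreeGroup.of i) f - f)).mul_left 3
    have := hasSum_le hp hSA ((hs1.add hs2).add hs3)
    linarith
  have hdisj : ∀ k, c 0 true k + c 0 false k + c 1 true k + c 1 false k ≤ 1 := by
    intro k
    simp only [c]
    rcases (γ k).toWord.head? with _ | ⟨i, b⟩
    · simp
    · fin_cases i <;> cases b <;> simp
  have htot : ∑' k, c 0 true k * A f k + ∑' k, c 0 false k * A f k +
      ∑' k, c 1 true k * A f k + ∑' k, c 1 false k * A f k ≤ ‖f‖ ^ 2 := by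
    have hs := (((hsum 0 true).hasSum.add (hsum 0 false).hasSum).add (hsum 1 true).hasSum).add
      (hsum 1 false).hasSum
    refine hasSum_le (fun k => ?_) hs hSA
    have h1 := hdisj k
    have h2 := A_nonneg f k
    nlinarith
  have h1 := hstep 0
  have h2 := hstep 1
  linarith

/-- The generating set. -/
def gens : Finset F2 :=
  {FreeGroup.of 0, FreeGroup.of 1, (FreeGroup.of 0)⁻¹, (FreeGroup.of 1)⁻¹}

theorem gens_symm : ∀ s ∈ gens, s⁻¹ ∈ gens := by
  intro s hs
  unfold gens at hs ⊢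
  simp only [Finset.mem_insert, Finset.mem_singleton] at hs ⊢
  rcases hs with rfl | rfl | rfl | rfl <;> simp

theorem closure_gens : Subgroup.closure (gens : Set F2) = ⊤ := by
  rw [eq_top_iff, ← FreeGroup.closure_range_of (Fin 2)]
  apply Subgroup.closure_mono
  rintro _ ⟨i, rfl⟩
  fin_cases i <;> simp [gens]

theorem spectral_gap (f : Bern → ℂ) (hf : MemLp f 2 μ) (h0 : ∫ x, f x ∂μ = 0) :
    ∃ s ∈ gens, ((1 / 4 : ℝ≥0) : ℝ≥0∞) * eLpNorm f 2 μ ≤
      eLpNorm (fun x => f (s⁻¹ • x) - f x) 2 μ := by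
  let F : Lp ℂ 2 μ := hf.toLp f
  have hF : F =ᵐ[μ] f := hf.coeFn_toLp
  have hn : ‖F‖ = (eLpNorm f 2 μ).toReal := Lp.norm_toLp f hf
  have hc : ⟪hb 0, F⟫_ℂ = 0 := by
    rw [hb_apply, ev, inner_smul_left, L2.inner_def]
    have h1 : ∫ x, ⟪(ContinuousMap.toLp (E := ℂ) 2 μ ℂ (uC 0)) x, F x⟫_ℂ ∂μ = ∫ x, f x ∂μ := by
      apply integral_congr_ae
      filter_upwards [hF, ContinuousMap.coeFn_toLp (𝕜 := ℂ) (p := 2) μ (uC 0)] with x h2 h3
      rw [h2, h3]
      have h4 : (uC 0) x = 1 := by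
        show ((u 0 x : ℝ) : ℂ) = 1
        unfold u
        simp
      rw [h4]
      simp
    rw [h1, h0, mul_zero]
  have hk := key F hc
  have hd : ∀ s : F2, ‖kp s F - F‖ = (eLpNorm (fun x => f (s⁻¹ • x) - f x) 2 μ).toReal := by
    intro s
    rw [Lp.norm_def]
    congr 1
    apply eLpNorm_congr_ae
    have h1 := (measurePreserving_smul s⁻¹).quasiMeasurePreserving.ae hF
    filter_upwards [Lp.coeFn_sub (kp s F) F, kp_ae s F, hF, h1] with x h2 h3 h4 h5
    rw [h2, Pi.sub_apply, h3, h4, h5]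
  have hfin : ∀ s : F2, eLpNorm (fun x => f (s⁻¹ • x) - f x) 2 μ ≠ ∞ := by
    intro s
    exact ((hf.comp_measurePreserving (measurePreserving_smul s⁻¹)).sub hf).eLpNorm_ne_top
  have hfin0 : eLpNorm f 2 μ ≠ ∞ := hf.eLpNorm_ne_top
  have hor : ‖F‖ ≤ 4 * ‖kp (FreeGroup.of 0) F - F‖ ∨ ‖F‖ ≤ 4 * ‖kp (FreeGroup.of 1) F - F‖ := by
    by_contra hcc
    push Not at hcc
    obtain ⟨h1, h2⟩ := hcc
    have h3 := norm_nonneg (kp (FreeGroup.of 0) F - F)
    have h4 := norm_nonneg (kp (FreeGroup.of 1) F - F)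
    have h5 : (4 * ‖kp (FreeGroup.of 0) F - F‖) ^ 2 < ‖F‖ ^ 2 := by gcongr
    have h6 : (4 * ‖kp (FreeGroup.of 1) F - F‖) ^ 2 < ‖F‖ ^ 2 := by gcongr
    nlinarith
  have hconv : ∀ s : F2, ‖F‖ ≤ 4 * ‖kp s F - F‖ → ((1 / 4 : ℝ≥0) : ℝ≥0∞) * eLpNorm f 2 μ ≤
      eLpNorm (fun x => f (s⁻¹ • x) - f x) 2 μ := by
    intro s hs
    rw [hn, hd] at hs
    rw [← ENNReal.toReal_le_toReal (ENNReal.mul_ne_top ENNReal.coe_ne_top hfin0) (hfin s),
      ENNReal.toReal_mul]
    rw [ENNReal.coe_toReal]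
    push_cast
    linarith
  rcases hor with h | h
  · exact ⟨FreeGroup.of 0, by simp [gens], hconv _ h⟩
  · exact ⟨FreeGroup.of 1, by simp [gens], hconv _ h⟩

instance : ErgodicSMul F2 Bern μ where
  measure_preimage_smul g s hs := (measurePreserving_smul g).measure_preimage hs.nullMeasurableSet
  aeconst_of_forall_preimage_smul_ae_eq := by
    intro s hs hinv
    let f : Bern → ℂ := fun x => s.indicator (fun _ => (1 : ℂ)) x - (μ.real s : ℂ)
    have hfi : MemLp (s.indicator (fun _ => (1 : ℂ))) 2 μ :=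
      memLp_indicator_const 2 hs 1 (Or.inr (measure_ne_top _ _))
    have hf : MemLp f 2 μ := hfi.sub (memLp_const _)
    have h0 : ∫ x, f x ∂μ = 0 := by
      show ∫ x, (s.indicator (fun _ => (1 : ℂ)) x - (μ.real s : ℂ)) ∂μ = 0
      rw [integral_sub ((integrable_const _).indicator hs) (integrable_const _),
        integral_indicator hs, integral_const, integral_const]
      simp [Measure.real]
    obtain ⟨g, -, hg⟩ := spectral_gap f hf h0
    have h1 : (fun x => f (g⁻¹ • x) - f x) =ᵐ[μ] (0 : Bern → ℂ) := by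
      filter_upwards [hinv g⁻¹] with x hx
      have h2 : g⁻¹ • x ∈ s ↔ x ∈ s := by
        have : (x ∈ (fun y => g⁻¹ • y) ⁻¹' s) = (x ∈ s) := hx
        exact iff_of_eq this
      show (s.indicator (fun _ => (1 : ℂ)) (g⁻¹ • x) - (μ.real s : ℂ)) -
        (s.indicator (fun _ => (1 : ℂ)) x - (μ.real s : ℂ)) = 0
      by_cases hx2 : x ∈ s
      · rw [Set.indicator_of_mem hx2, Set.indicator_of_mem (h2.2 hx2)]
        ring
      · rw [Set.indicator_of_notMem hx2, Set.indicator_of_notMem (fun h => hx2 (h2.1 h))]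
        ring
    rw [eLpNorm_congr_ae h1, eLpNorm_zero] at hg
    have h2 : eLpNorm f 2 μ = 0 := by
      have h3 := le_antisymm hg (zero_le)
      rcases mul_eq_zero.1 h3 with h4 | h4
      · norm_num at h4
      · exact h4
    have h3 : f =ᵐ[μ] 0 := (eLpNorm_eq_zero_iff hf.1 (by norm_num)).1 h2
    rw [eventuallyConst_set]
    by_cases h4 : (μ.real s : ℂ) = 1
    · left
      filter_upwards [h3] with x hx
      by_contra hc
      have h5 : s.indicator (fun _ => (1 : ℂ)) x - (μ.real s : ℂ) = 0 := hx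
      rw [Set.indicator_of_notMem hc, h4] at h5
      norm_num at h5
    · right
      filter_upwards [h3] with x hx hc
      have h5 : s.indicator (fun _ => (1 : ℂ)) x - (μ.real s : ℂ) = 0 := hx
      rw [Set.indicator_of_mem hc] at h5
      exact h4 (sub_eq_zero.1 h5).symm

end Pool.Agent.H368.WC.Bern

namespace Pool.Agent.H368.WC

theorem surjective_of_subsingleton {K : Type*} [AddCommGroup K] (h : Subsingleton K)
    {L : Type*} [AddCommGroup L] (μ : L →+ K) : Function.Surjective μ :=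
  fun _ => ⟨0, Subsingleton.elim _ _⟩

end Pool.Agent.H368.WC
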