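import Pool.Agent.H368.WC.Warp

/-!
# Multiplication operators and the Roe algebra, in terms of `Lp`
-/

set_option autoImplicit false

namespace Pool.Agent.H368.WC

open MeasureTheory Filter Topology
open scoped ZeroAtInfty ENNReal NNReal

section Roe

variable {X : Type*} [TopologicalSpace X] [MeasurableSpace X]

/-- The operator on `L²(X, ν)` of multiplication by an essentially bounded function. -/
noncomputable def mulL (ν : Measure X) (f : X → ℂ) (hf : MemLp f ∞ ν) :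
    Lp ℂ 2 ν →L[ℂ] Lp ℂ 2 ν :=
  (ContinuousLinearMap.mul ℂ ℂ).holderL ν ∞ 2 2 (hf.toLp f)

variable [BorelSpace X] [SecondCountableTopology X]

theorem memLp_top (ν : Measure X) (f : C₀(X, ℂ)) : MemLp f ∞ ν :=
  memLp_top_of_bound f.continuous.aestronglyMeasurable ‖f‖
    (Eventually.of_forall fun x => f.toBCF.norm_coe_le_norm x)

/-- The operator on `L²(X, ν)` of multiplication by `f ∈ C₀(X)`. -/
noncomputable def LmulOp (ν : Measure X) (f : C₀(X, ℂ)) : Lp ℂ 2 ν →L[ℂ] Lp ℂ 2 ν :=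
  mulL ν f (memLp_top ν f)

/-- `T` is locally compact: `f T` and `T f` are compact for all `f ∈ C₀(X)`. -/
def LLocallyCompact (ν : Measure X) (T : Lp ℂ 2 ν →L[ℂ] Lp ℂ 2 ν) : Prop :=
  ∀ f : C₀(X, ℂ), IsCompactOperator (LmulOp ν f ∘L T) ∧ IsCompactOperator (T ∘L LmulOp ν f)

/-- `T` has finite propagation with respect to `d`. -/
def LFinitePropagation (ν : Measure X) (d : X → X → ℝ) (T : Lp ℂ 2 ν →L[ℂ] Lp ℂ 2 ν) : Prop :=
  ∃ R : ℝ, 0 < R ∧ ∀ φ ψ : C₀(X, ℂ), (∀ x ∈ tsupport φ, ∀ y ∈ tsupport ψ, R < d x y) →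
    LmulOp ν φ ∘L T ∘L LmulOp ν ψ = 0

/-- `A` is the Roe algebra of `X` with the measure `ν` and the metric `d`. -/
def LIsRoeAlgebra (ν : Measure X) (d : X → X → ℝ)
    (A : NonUnitalSubalgebra ℂ (Lp ℂ 2 ν →L[ℂ] Lp ℂ 2 ν)) : Prop :=
  (A : Set (Lp ℂ 2 ν →L[ℂ] Lp ℂ 2 ν)) = closure {T | LLocallyCompact ν T ∧ LFinitePropagation ν d T}

end Roe

end Pool.Agent.H368.WC
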