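import Pool.Agent.H368.WC.KMain

/-!
# The swindle for `C₀(X, J)`
-/

set_option autoImplicit false

namespace Pool.Agent.H368.KT

open Matrix Filter Topology
open scoped ZeroAtInfty BoundedContinuousFunction

universe u v

/-- `K₀` of a retract. -/
theorem K0_eq_bot_of_retract {A A' : Type*} [NonUnitalRing A] [Module ℂ A] [IsScalarTower ℂ A A]
    [SMulCommClass ℂ A A] [NonUnitalRing A'] [Module ℂ A'] [IsScalarTower ℂ A' A']
    [SMulCommClass ℂ A' A'] (f : A →ₙₐ[ℂ] A') (g : A' →ₙₐ[ℂ] A) (hgf : ∀ a, g (f a) = a)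
    (h : K0 A' = ⊥) : K0 A = ⊥ := by
  rw [eq_bot_iff]
  intro x hx
  let F : Unitization ℂ A →ₐ[ℂ] Unitization ℂ A' :=
    Unitization.lift ((Unitization.inrNonUnitalAlgHom ℂ A').comp f)
  let G : Unitization ℂ A' →ₐ[ℂ] Unitization ℂ A :=
    Unitization.lift ((Unitization.inrNonUnitalAlgHom ℂ A).comp g)
  have h1 : K0u.map (F : Unitization ℂ A →+* Unitization ℂ A') x ∈ K0 A' := by
    show K0u.map (Unitization.fstHom ℂ A').toRingHom _ = 0
    rw [K0u.map_map]
    have e : (Unitization.fstHom ℂ A').toRingHom.comp (F : Unitization ℂ A →+* Unitization ℂ A') =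
        (Unitization.fstHom ℂ A).toRingHom := by
      have : (Unitization.fstHom ℂ A').comp F = Unitization.fstHom ℂ A := by
        apply Unitization.algHom_ext
        · intro a
          simp [F]
        · intro r
          simp
      ext r
      exact DFunLike.congr_fun this r
    rw [e]
    exact hx
  rw [h, AddSubgroup.mem_bot] at h1
  have h2 : K0u.map (G : Unitization ℂ A' →+* Unitization ℂ A)
      (K0u.map (F : Unitization ℂ A →+* Unitization ℂ A') x) = x := by
    rw [K0u.map_map]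
    apply K0u.map_id'
    intro r
    have : G.comp F = AlgHom.id ℂ _ := by
      apply Unitization.algHom_ext
      · intro a
        simp [F, G, hgf]
      · intro r
        simp
    exact DFunLike.congr_fun this r
  rw [h1, map_zero] at h2
  rw [← h2]
  exact zero_mem _

variable {B : Type u} [NormedRing B] [NormedAlgebra ℂ B] [CompleteSpace B]
variable {X : Type v} [TopologicalSpace X]

/-- The functions with values in `J` which vanish at infinity, as a subalgebra of the bounded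
continuous functions with values in `B`. -/
def C0J (X : Type v) [TopologicalSpace X] (J : NonUnitalSubalgebra ℂ B) :
    NonUnitalSubalgebra ℂ (X →ᵇ B) where
  carrier := {f | (∀ x, f x ∈ J) ∧ Tendsto f (cocompact X) (𝓝 0)}
  add_mem' := by
    rintro f g ⟨h1, h2⟩ ⟨h3, h4⟩
    refine ⟨fun x => add_mem (h1 x) (h3 x), ?_⟩
    have := h2.add h4
    rwa [add_zero] at this
  zero_mem' := ⟨fun _ => zero_mem J, tendsto_const_nhds⟩
  mul_mem' := by
    rintro f g ⟨h1, h2⟩ ⟨h3, h4⟩
    refine ⟨fun x => mul_mem (h1 x) (h3 x), ?_⟩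
    have := h2.mul h4
    rwa [mul_zero] at this
  smul_mem' := by
    rintro c f ⟨h1, h2⟩
    refine ⟨fun x => SMulMemClass.smul_mem c (h1 x), ?_⟩
    have := h2.const_smul c
    rwa [smul_zero] at this

omit [CompleteSpace B] in
theorem C0J_isClosedIdeal {J : NonUnitalSubalgebra ℂ B} (hJ : IsClosedIdeal J) :
    IsClosedIdeal (C0J X J) where
  closed := by
    have h1 : IsClosed {f : X →ᵇ B | ∀ x, f x ∈ J} := by
      have : {f : X →ᵇ B | ∀ x, f x ∈ J} = ⋂ x, (fun f : X →ᵇ B => f x) ⁻¹' (J : Set B) := by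
        ext f
        simp
      rw [this]
      exact isClosed_iInter fun x => hJ.closed.preimage (by fun_prop)
    have h2 : IsClosed {f : X →ᵇ B | Tendsto f (cocompact X) (𝓝 0)} := by
      rw [← isSeqClosed_iff_isClosed]
      intro f g hf hg
      have hu : TendstoUniformly (fun n => (f n : X → B)) g atTop :=
        BoundedContinuousFunction.tendsto_iff_tendstoUniformly.1 hg
      rw [Metric.tendstoUniformly_iff] at hu
      show Tendsto g (cocompact X) (𝓝 0)
      rw [Metric.tendsto_nhds]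
      intro ε hε
      obtain ⟨n, hn⟩ := (hu (ε / 2) (by positivity)).exists
      have hfn : Tendsto (f n) (cocompact X) (𝓝 0) := hf n
      rw [Metric.tendsto_nhds] at hfn
      filter_upwards [hfn (ε / 2) (by positivity)] with x hx
      calc dist (g x) 0 ≤ dist (g x) (f n x) + dist (f n x) 0 := dist_triangle _ _ _
        _ < ε / 2 + ε / 2 := add_lt_add (hn x) hx
        _ = ε := by ring
    exact h1.inter h2
  left := by
    rintro b f ⟨h1, h2⟩
    refine ⟨fun x => hJ.left _ (h1 x), ?_⟩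
    have h3 : Tendsto (fun x => ‖b‖ * ‖f x‖) (cocompact X) (𝓝 0) := by
      have := (h2.norm).const_mul ‖b‖
      rwa [norm_zero, mul_zero] at this
    refine squeeze_zero_norm (fun x => ?_) h3
    calc ‖(b * f) x‖ ≤ ‖b x‖ * ‖f x‖ := norm_mul_le _ _
      _ ≤ ‖b‖ * ‖f x‖ := by gcongr; exact b.norm_coe_le_norm x
  right := by
    rintro b f ⟨h1, h2⟩
    refine ⟨fun x => hJ.right _ (h1 x), ?_⟩
    have h3 : Tendsto (fun x => ‖f x‖ * ‖b‖) (cocompact X) (𝓝 0) := by
      have := (h2.norm).mul_const ‖b‖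
      rwa [norm_zero, zero_mul] at this
    refine squeeze_zero_norm (fun x => ?_) h3
    calc ‖(f * b) x‖ ≤ ‖f x‖ * ‖b x‖ := norm_mul_le _ _
      _ ≤ ‖f x‖ * ‖b‖ := by gcongr; exact b.norm_coe_le_norm x

/-- The continuous functions vanishing at infinity, in two forms. -/
noncomputable def toC0J (J : NonUnitalSubalgebra ℂ B) : C₀(X, J) →ₙₐ[ℂ] C0J X J where
  toFun f := ⟨BoundedContinuousFunction.mkOfBound ⟨fun x => (f x : B), by fun_prop⟩
      (2 * ‖f.toBCF‖) (by
        intro x y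
        have := BoundedContinuousFunction.dist_le_two_norm f.toBCF x y
        exact this), by
      refine ⟨fun x => (f x).2, ?_⟩
      have := f.zero_at_infty'
      exact (continuous_subtype_val.tendsto (0 : J)).comp this⟩
  map_smul' c f := rfl
  map_zero' := rfl
  map_add' f g := rfl
  map_mul' f g := rfl

/-- The inverse of `toC0J`. -/
noncomputable def ofC0J (J : NonUnitalSubalgebra ℂ B) : C0J X J →ₙₐ[ℂ] C₀(X, J) where
  toFun f := ⟨⟨fun x => ⟨(f : X →ᵇ B) x, f.2.1 x⟩, by fun_prop⟩, by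
    have h := f.2.2
    rw [Metric.tendsto_nhds] at h ⊢
    exact h⟩
  map_smul' c f := rfl
  map_zero' := rfl
  map_add' f g := rfl
  map_mul' f g := rfl

omit [CompleteSpace B] in
theorem K0_C0_eq_bot {J : NonUnitalSubalgebra ℂ B} (h : K0 (C0J X J) = ⊥) :
    K0 C₀(X, J) = ⊥ :=
  K0_eq_bot_of_retract (toC0J J) (ofC0J J) (fun _ => rfl) h

/-- Pointwise application of a bounded homomorphism. -/
noncomputable def phiX {J : NonUnitalSubalgebra ℂ B} (Φ : J →ₙₐ[ℂ] J) (C : ℝ)
    (hC : ∀ a : J, ‖Φ a‖ ≤ C * ‖a‖) : C0J X J →ₙₐ[ℂ] C0J X J where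
  toFun f := ⟨BoundedContinuousFunction.ofNormedAddCommGroup
      (fun x => (Φ ⟨(f : X →ᵇ B) x, f.2.1 x⟩ : B)) (by
        have h1 : Continuous Φ :=
          (AddMonoidHomClass.continuous_of_bound Φ C hC)
        have h2 : Continuous fun x => (⟨(f : X →ᵇ B) x, f.2.1 x⟩ : J) := by fun_prop
        exact continuous_subtype_val.comp (h1.comp h2)) (|C| * ‖(f : X →ᵇ B)‖) (by
        intro x
        calc ‖(Φ ⟨(f : X →ᵇ B) x, f.2.1 x⟩ : B)‖ = ‖Φ ⟨(f : X →ᵇ B) x, f.2.1 x⟩‖ := rfl
          _ ≤ C * ‖(⟨(f : X →ᵇ B) x, f.2.1 x⟩ : J)‖ := hC _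
          _ ≤ |C| * ‖(f : X →ᵇ B) x‖ := by
            refine mul_le_mul_of_nonneg_right (le_abs_self C) (norm_nonneg _)
          _ ≤ |C| * ‖(f : X →ᵇ B)‖ := by
            gcongr
            exact (f : X →ᵇ B).norm_coe_le_norm x), by
      refine ⟨fun x => (Φ _).2, ?_⟩
      have h3 : Tendsto (fun x => C * ‖(f : X →ᵇ B) x‖) (cocompact X) (𝓝 0) := by
        have := (f.2.2.norm).const_mul C
        rwa [norm_zero, mul_zero] at this
      exact squeeze_zero_norm (fun x => hC _) h3⟩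
  map_smul' c f := by
    apply Subtype.ext
    ext x
    exact congrArg Subtype.val (map_smul Φ c (⟨(f : X →ᵇ B) x, f.2.1 x⟩ : J))
  map_zero' := by
    apply Subtype.ext
    ext x
    exact congrArg Subtype.val (map_zero Φ)
  map_add' f g := by
    apply Subtype.ext
    ext x
    exact congrArg Subtype.val (map_add Φ (⟨(f : X →ᵇ B) x, f.2.1 x⟩ : J)
      (⟨(g : X →ᵇ B) x, g.2.1 x⟩ : J))
  map_mul' f g := by
    apply Subtype.ext
    ext x
    exact congrArg Subtype.val (map_mul Φ (⟨(f : X →ᵇ B) x, f.2.1 x⟩ : J)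
      (⟨(g : X →ᵇ B) x, g.2.1 x⟩ : J))

/-- The swindle, pointwise. -/
noncomputable def Swindle.lift {J : NonUnitalSubalgebra ℂ B} (D : Swindle J) (C : ℝ)
    (hC : ∀ a : J, ‖D.Φ a‖ ≤ C * ‖a‖) : Swindle (C0J X J) where
  Φ := phiX D.Φ C hC
  v := BoundedContinuousFunction.const X D.v
  v' := BoundedContinuousFunction.const X D.v'
  w := BoundedContinuousFunction.const X D.w
  w' := BoundedContinuousFunction.const X D.w'
  hv := by ext x; exact D.hv
  hw1 := by ext x; exact D.hw1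
  hw2 := by ext x; exact D.hw2
  h1 a := by ext x; exact D.h1 ⟨(a : X →ᵇ B) x, a.2.1 x⟩
  h2 a := by ext x; exact D.h2 ⟨(a : X →ᵇ B) x, a.2.1 x⟩
  h3 a := by ext x; exact D.h3 ⟨(a : X →ᵇ B) x, a.2.1 x⟩
  h4 a := by ext x; exact D.h4 ⟨(a : X →ᵇ B) x, a.2.1 x⟩
  h5 a := by ext x; exact D.h5 ⟨(a : X →ᵇ B) x, a.2.1 x⟩

/-- All topological `K`-groups of `J` vanish. -/
theorem Swindle.KTop_eq_bot {J : NonUnitalSubalgebra ℂ B} (hJ : IsClosedIdeal J) (D : Swindle J)
    (C : ℝ) (hC : ∀ a : J, ‖D.Φ a‖ ≤ C * ‖a‖) (n : ℕ) : KTop n J = ⊥ :=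
  K0_C0_eq_bot ((D.lift C hC).K0_eq_bot (C0J_isClosedIdeal hJ))

end Pool.Agent.H368.KT
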