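import Mathlib

/-!
# Algebraic `K₀` of rings and the topological `K`-groups `Kₙ(A) = K₀(C₀(ℝⁿ, A))`
-/

set_option autoImplicit false

namespace Pool.Agent.H368.KT

open Matrix

universe u v

section Unital

variable (R : Type u) [Ring R]

/-- An idempotent matrix over `R`, of any finite size. -/
structure Idem where
  /-- the size -/
  n : ℕ
  /-- the matrix -/
  e : Matrix (Fin n) (Fin n) R
  idem : e * e = e

variable {R}

/-- Equivalence of matrices: `x * y = e` and `y * x = f`. -/
def MvN {ι κ : Type*} [Fintype ι] [Fintype κ] (e : Matrix ι ι R) (f : Matrix κ κ R) : Prop :=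
  ∃ (x : Matrix ι κ R) (y : Matrix κ ι R), x * y = e ∧ y * x = f

theorem MvN.refl {ι : Type*} [Fintype ι] {e : Matrix ι ι R} (he : e * e = e) : MvN e e :=
  ⟨e, e, he, he⟩

theorem MvN.symm {ι κ : Type*} [Fintype ι] [Fintype κ] {e : Matrix ι ι R} {f : Matrix κ κ R}
    (h : MvN e f) : MvN f e := by
  obtain ⟨x, y, h1, h2⟩ := h
  exact ⟨y, x, h2, h1⟩

theorem MvN.trans {ι κ l : Type*} [Fintype ι] [Fintype κ] [Fintype l] {e : Matrix ι ι R}
    {f : Matrix κ κ R} {g : Matrix l l R} (he : e * e = e) (hg : g * g = g)
    (h1 : MvN e f) (h2 : MvN f g) : MvN e g := by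
  obtain ⟨x, y, h1, h1'⟩ := h1
  obtain ⟨z, w, h2, h2'⟩ := h2
  refine ⟨x * z, w * y, ?_, ?_⟩
  · calc x * z * (w * y) = x * (z * w) * y := by simp only [Matrix.mul_assoc]
      _ = (x * y) * (x * y) := by rw [h2, ← h1']; simp only [Matrix.mul_assoc]
      _ = e := by rw [h1, he]
  · calc w * y * (x * z) = w * (y * x) * z := by simp only [Matrix.mul_assoc]
      _ = (w * z) * (w * z) := by rw [h1', ← h2]; simp only [Matrix.mul_assoc]
      _ = g := by rw [h2', hg]

/-- The equivalence relation on idempotent matrices. -/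
instance idemSetoid (R : Type u) [Ring R] : Setoid (Idem R) where
  r p q := MvN p.e q.e
  iseqv := ⟨fun p => MvN.refl p.idem, fun h => h.symm,
    fun {p _ r} h1 h2 => h1.trans p.idem r.idem h2⟩

/-- Equivalence classes of idempotent matrices over `R`. -/
def V (R : Type u) [Ring R] : Type u := Quotient (idemSetoid R)

/-- A matrix over a finite index type, with the index type renumbered. -/
noncomputable def renum {ι : Type*} [Fintype ι] (e : Matrix ι ι R) :
    Matrix (Fin (Fintype.card ι)) (Fin (Fintype.card ι)) R :=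
  e.submatrix (Fintype.equivFin ι).symm (Fintype.equivFin ι).symm

theorem renum_idem {ι : Type*} [Fintype ι] {e : Matrix ι ι R} (he : e * e = e) :
    renum e * renum e = renum e := by
  unfold renum
  rw [Matrix.submatrix_mul_equiv, he]

/-- The class of an idempotent matrix whose rows and columns are indexed by any finite type. -/
noncomputable def cls {ι : Type*} [Fintype ι] (e : Matrix ι ι R) (he : e * e = e) : V R :=
  Quotient.mk (idemSetoid R) ⟨Fintype.card ι, renum e, renum_idem he⟩

theorem mvn_submatrix {ι κ : Type*} [Fintype ι] [Fintype κ] (σ : κ ≃ ι) {e : Matrix ι ι R}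
    (he : e * e = e) : MvN (e.submatrix σ σ) e := by
  classical
  refine ⟨e.submatrix σ id, e.submatrix id σ, ?_, ?_⟩
  · have : e.submatrix σ id * e.submatrix id σ = (e * e).submatrix σ σ := by
      rw [← Matrix.submatrix_mul e e σ id σ Function.bijective_id]
    rw [this, he]
  · rw [Matrix.submatrix_mul_equiv, he, Matrix.submatrix_id_id]

theorem cls_eq_iff {ι κ : Type*} [Fintype ι] [Fintype κ] {e : Matrix ι ι R} {f : Matrix κ κ R}
    (he : e * e = e) (hf : f * f = f) : cls e he = cls f hf ↔ MvN e f := by
  have h1 := mvn_submatrix (Fintype.equivFin ι).symm he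
  have h2 := mvn_submatrix (Fintype.equivFin κ).symm hf
  have he' : (e.submatrix (Fintype.equivFin ι).symm (Fintype.equivFin ι).symm) *
      (e.submatrix (Fintype.equivFin ι).symm (Fintype.equivFin ι).symm) =
      (e.submatrix (Fintype.equivFin ι).symm (Fintype.equivFin ι).symm) := by
    rw [Matrix.submatrix_mul_equiv, he]
  have hf' : (f.submatrix (Fintype.equivFin κ).symm (Fintype.equivFin κ).symm) *
      (f.submatrix (Fintype.equivFin κ).symm (Fintype.equivFin κ).symm) =
      (f.submatrix (Fintype.equivFin κ).symm (Fintype.equivFin κ).symm) := by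
    rw [Matrix.submatrix_mul_equiv, hf]
  constructor
  · intro h
    have h3 : MvN (e.submatrix (Fintype.equivFin ι).symm (Fintype.equivFin ι).symm)
      (f.submatrix (Fintype.equivFin κ).symm (Fintype.equivFin κ).symm) := Quotient.exact h
    exact h1.symm.trans he hf (h3.trans he' hf h2)
  · intro h
    apply Quotient.sound
    exact h1.trans he' hf' (h.trans he hf' h2.symm)

theorem cls_fin (p : Idem R) : cls p.e p.idem = Quotient.mk (idemSetoid R) p := by
  apply Quotient.sound
  exact mvn_submatrix (Fintype.equivFin (Fin p.n)).symm p.idem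

theorem fromBlocks_idem {ι κ : Type*} [Fintype ι] [Fintype κ] {e : Matrix ι ι R}
    {f : Matrix κ κ R} (he : e * e = e) (hf : f * f = f) :
    fromBlocks e 0 0 f * fromBlocks e 0 0 f = fromBlocks e 0 0 f := by
  rw [fromBlocks_multiply]
  simp [he, hf]

theorem mvn_fromBlocks {ι κ ι' κ' : Type*} [Fintype ι] [Fintype κ] [Fintype ι'] [Fintype κ']
    {e : Matrix ι ι R} {f : Matrix κ κ R} {e' : Matrix ι' ι' R} {f' : Matrix κ' κ' R}
    (h1 : MvN e e') (h2 : MvN f f') :
    MvN (fromBlocks e 0 0 f) (fromBlocks e' 0 0 f') := by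
  obtain ⟨x, y, h1, h1'⟩ := h1
  obtain ⟨z, w, h2, h2'⟩ := h2
  refine ⟨fromBlocks x 0 0 z, fromBlocks y 0 0 w, ?_, ?_⟩
  · rw [fromBlocks_multiply]; simp [h1, h2]
  · rw [fromBlocks_multiply]; simp [h1', h2']

/-- The block diagonal matrix of two idempotent matrices. -/
def Idem.diag (p q : Idem R) : Matrix (Fin p.n ⊕ Fin q.n) (Fin p.n ⊕ Fin q.n) R :=
  fromBlocks p.e 0 0 q.e

theorem Idem.diag_idem (p q : Idem R) : p.diag q * p.diag q = p.diag q :=
  fromBlocks_idem p.idem q.idem

/-- The direct sum of idempotent matrices. -/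
noncomputable def Idem.add (p q : Idem R) : Idem R :=
  ⟨Fintype.card (Fin p.n ⊕ Fin q.n), renum (p.diag q), renum_idem (p.diag_idem q)⟩

theorem Idem.add_congr (p p' : Idem R) (h1 : (idemSetoid R).r p p') (q q' : Idem R)
    (h2 : (idemSetoid R).r q q') : (idemSetoid R).r (p.add q) (p'.add q') := by
  have h3 : MvN (fromBlocks p.e 0 0 q.e) (fromBlocks p'.e 0 0 q'.e) := mvn_fromBlocks h1 h2
  have := (cls_eq_iff (fromBlocks_idem p.idem q.idem) (fromBlocks_idem p'.idem q'.idem)).2 h3
  exact Quotient.exact this

/-- The sum of classes of idempotent matrices. -/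
noncomputable def V.add : V R → V R → V R :=
  Quotient.map₂' (s₁ := idemSetoid R) (s₂ := idemSetoid R) (s₃ := idemSetoid R) Idem.add
    Idem.add_congr

/-- The direct sum of idempotent matrices. -/
noncomputable instance (R : Type u) [Ring R] : Add (V R) where
  add := V.add

theorem cls_add {ι κ : Type*} [Fintype ι] [Fintype κ] {e : Matrix ι ι R} {f : Matrix κ κ R}
    (he : e * e = e) (hf : f * f = f) :
    cls e he + cls f hf = cls (fromBlocks e 0 0 f) (fromBlocks_idem he hf) := by
  have h1 := mvn_submatrix (Fintype.equivFin ι).symm he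
  have h2 := mvn_submatrix (Fintype.equivFin κ).symm hf
  have he' : (e.submatrix (Fintype.equivFin ι).symm (Fintype.equivFin ι).symm) *
      (e.submatrix (Fintype.equivFin ι).symm (Fintype.equivFin ι).symm) =
      (e.submatrix (Fintype.equivFin ι).symm (Fintype.equivFin ι).symm) := by
    rw [Matrix.submatrix_mul_equiv, he]
  have hf' : (f.submatrix (Fintype.equivFin κ).symm (Fintype.equivFin κ).symm) *
      (f.submatrix (Fintype.equivFin κ).symm (Fintype.equivFin κ).symm) =
      (f.submatrix (Fintype.equivFin κ).symm (Fintype.equivFin κ).symm) := by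
    rw [Matrix.submatrix_mul_equiv, hf]
  have h3 : cls e he + cls f hf = cls (fromBlocks
      (e.submatrix (Fintype.equivFin ι).symm (Fintype.equivFin ι).symm) 0 0
      (f.submatrix (Fintype.equivFin κ).symm (Fintype.equivFin κ).symm))
      (fromBlocks_idem he' hf') := rfl
  rw [h3, cls_eq_iff]
  exact mvn_fromBlocks h1 h2

/-- The zero matrix of size `0` is the neutral element. -/
noncomputable instance (R : Type u) [Ring R] : Zero (V R) where
  zero := cls (0 : Matrix (Fin 0) (Fin 0) R) (by simp)

theorem cls_zero {ι : Type*} [Fintype ι] : cls (0 : Matrix ι ι R) (by simp) = 0 := by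
  refine (cls_eq_iff _ _).2 ⟨0, 0, ?_, ?_⟩ <;> simp

theorem V.ind {motive : V R → Prop}
    (h : ∀ (n : ℕ) (e : Matrix (Fin n) (Fin n) R) (he : e * e = e), motive (cls e he))
    (x : V R) : motive x := by
  induction x using Quotient.inductionOn with
  | _ p =>
    have := h p.n p.e p.idem
    rwa [cls_fin] at this

noncomputable instance (R : Type u) [Ring R] : AddCommMonoid (V R) where
  add_assoc a b c := by
    induction a using V.ind with
    | _ n e he =>
    induction b using V.ind with
    | _ m f hf =>
    induction c using V.ind with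
    | _ l g hg =>
    rw [cls_add, cls_add, cls_add, cls_add, cls_eq_iff]
    have h := mvn_submatrix (Equiv.sumAssoc (Fin n) (Fin m) (Fin l))
      (fromBlocks_idem he (fromBlocks_idem hf hg))
    convert h using 1
    ext i j
    rcases i with (i | i) | i <;> rcases j with (j | j) | j <;> rfl
  zero_add a := by
    induction a using V.ind with
    | _ n e he =>
    show cls (0 : Matrix (Fin 0) (Fin 0) R) (by simp) + cls e he = cls e he
    rw [cls_add, cls_eq_iff]
    have h := mvn_submatrix (Equiv.emptySum (Fin 0) (Fin n)) he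
    convert h using 1
    ext i j
    rcases i with i | i
    · exact i.elim0
    rcases j with j | j
    · exact j.elim0
    rfl
  add_zero a := by
    induction a using V.ind with
    | _ n e he =>
    show cls e he + cls (0 : Matrix (Fin 0) (Fin 0) R) (by simp) = cls e he
    rw [cls_add, cls_eq_iff]
    have h := mvn_submatrix (Equiv.sumEmpty (Fin n) (Fin 0)) he
    convert h using 1
    ext i j
    rcases i with i | i
    swap
    · exact i.elim0
    rcases j with j | j
    swap
    · exact j.elim0
    rfl
  add_comm a b := by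
    induction a using V.ind with
    | _ n e he =>
    induction b using V.ind with
    | _ m f hf =>
    rw [cls_add, cls_add, cls_eq_iff]
    refine ⟨fromBlocks 0 e f 0, fromBlocks 0 f e 0, ?_, ?_⟩
    · rw [fromBlocks_multiply]; simp [he, hf]
    · rw [fromBlocks_multiply]; simp [he, hf]
  nsmul := nsmulRec

theorem map_idem {ι : Type*} [Fintype ι] {S : Type v} [Ring S] (φ : R →+* S) {e : Matrix ι ι R}
    (he : e * e = e) : e.map φ * e.map φ = e.map φ := by
  rw [← Matrix.map_mul, he]

theorem mvn_map {ι κ : Type*} [Fintype ι] [Fintype κ] {S : Type v} [Ring S] (φ : R →+* S)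
    {e : Matrix ι ι R} {f : Matrix κ κ R} (h : MvN e f) : MvN (e.map φ) (f.map φ) := by
  obtain ⟨x, y, h1, h2⟩ := h
  refine ⟨x.map φ, y.map φ, ?_, ?_⟩
  · rw [← Matrix.map_mul, h1]
  · rw [← Matrix.map_mul, h2]

/-- A homomorphism of rings induces a homomorphism on classes of idempotent matrices. -/
noncomputable def V.map {S : Type v} [Ring S] (φ : R →+* S) : V R →+ V S where
  toFun := Quotient.lift (s := idemSetoid R) (fun p => cls (p.e.map φ) (map_idem φ p.idem)) (by
    intro p q h
    exact (cls_eq_iff _ _).2 (mvn_map φ h))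
  map_zero' := by
    show cls (Matrix.map _ φ) _ = 0
    rw [← cls_zero (ι := Fin 0), cls_eq_iff]
    refine ⟨0, 0, ?_, ?_⟩
    · ext i; exact (Fin.cast (by simp) i : Fin 0).elim0
    · simp
  map_add' a b := by
    induction a using V.ind with
    | _ n e he =>
    induction b using V.ind with
    | _ m f hf =>
    rw [cls_add]
    have key : ∀ {ι : Type} [Fintype ι] (e : Matrix ι ι R) (he : e * e = e),
        Quotient.lift (s := idemSetoid R) (fun p => cls (p.e.map φ) (map_idem φ p.idem)) (by
          intro p q h
          exact (cls_eq_iff _ _).2 (mvn_map φ h)) (cls e he) = cls (e.map φ) (map_idem φ he) := by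
      intro ι _ e he
      refine (cls_eq_iff _ _).2 ?_
      exact mvn_map φ (mvn_submatrix (Fintype.equivFin ι).symm he)
    rw [key, key, key, cls_add, cls_eq_iff]
    rw [fromBlocks_map]
    simp only [Matrix.map_zero, map_zero]
    exact MvN.refl (fromBlocks_idem (map_idem φ he) (map_idem φ hf))

theorem V.map_cls {ι : Type*} [Fintype ι] {S : Type v} [Ring S] (φ : R →+* S)
    (e : Matrix ι ι R) (he : e * e = e) : V.map φ (cls e he) = cls (e.map φ) (map_idem φ he) := by
  have h := mvn_map φ (mvn_submatrix (Fintype.equivFin ι).symm he)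
  have he' : (e.submatrix (Fintype.equivFin ι).symm (Fintype.equivFin ι).symm) *
      (e.submatrix (Fintype.equivFin ι).symm (Fintype.equivFin ι).symm) =
      (e.submatrix (Fintype.equivFin ι).symm (Fintype.equivFin ι).symm) := by
    rw [Matrix.submatrix_mul_equiv, he]
  exact (cls_eq_iff (map_idem φ he') (map_idem φ he)).2 h

/-- `K₀` of a unital ring: the Grothendieck group of the monoid of classes of idempotent
matrices. -/
def K0u (R : Type u) [Ring R] : Type u := Algebra.GrothendieckAddGroup (V R)

noncomputable instance (R : Type u) [Ring R] : AddCommGroup (K0u R) :=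
  (inferInstance : AddCommGroup (Algebra.GrothendieckAddGroup (V R)))

/-- The class in `K₀` of an element of the monoid. -/
noncomputable def K0u.of : V R →+ K0u R := Algebra.GrothendieckAddGroup.of

/-- Functoriality of `K₀`. -/
noncomputable def K0u.map {S : Type v} [Ring S] (φ : R →+* S) : K0u R →+ K0u S :=
  Algebra.GrothendieckAddGroup.lift (K0u.of.comp (V.map φ))

theorem K0u.map_of {S : Type v} [Ring S] (φ : R →+* S) (x : V R) :
    K0u.map φ (K0u.of x) = K0u.of (V.map φ x) := by
  have := Algebra.GrothendieckAddGroup.lift.symm_apply_apply (K0u.of.comp (V.map φ))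
  exact DFunLike.congr_fun this x

theorem K0u.exists_sub (x : K0u R) : ∃ a b : V R, x = K0u.of a - K0u.of b := by
  induction x using AddLocalization.ind with
  | _ y =>
    obtain ⟨a, b⟩ := y
    refine ⟨a, b, ?_⟩
    have : (AddLocalization.mk a b : Algebra.GrothendieckAddGroup (V R)) =
      Algebra.GrothendieckAddGroup.of a - Algebra.GrothendieckAddGroup.of (b : V R) := by
      rw [eq_sub_iff_add_eq]
      show AddLocalization.mk a b + AddLocalization.mk (b : V R) 0 = AddLocalization.mk a 0
      rw [AddLocalization.mk_add, AddLocalization.mk_eq_mk_iff, AddLocalization.r_iff_exists]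
      refine ⟨0, ?_⟩
      simp [add_comm]
    exact this

end Unital

section NonUnital

variable (A : Type u) [NonUnitalRing A] [Module ℂ A] [IsScalarTower ℂ A A] [SMulCommClass ℂ A A]

/-- `K₀(A)` of a complex algebra `A` which need not have a unit: the kernel of
`K₀(A⁺) → K₀(ℂ)`, where `A⁺ = ℂ ⊕ A` is the algebra with an adjoined unit. -/
noncomputable def K0 : AddSubgroup (K0u (Unitization ℂ A)) :=
  (K0u.map (Unitization.fstHom ℂ A).toRingHom).ker

/-- `K₀(A)` as a type. -/
def K0Group : Type u := K0 A

noncomputable instance : AddCommGroup (K0Group A) := (inferInstance : AddCommGroup (K0 A))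

end NonUnital

open scoped ZeroAtInfty

/-- The topological `K`-group `Kₙ(A) = K₀(C₀(ℝⁿ, A))` of a complex (Banach) algebra `A`. -/
noncomputable def KTop (n : ℕ) (A : Type u) [NonUnitalRing A] [TopologicalSpace A]
    [IsTopologicalRing A] [Module ℂ A] [ContinuousConstSMul ℂ A]
    [IsScalarTower ℂ A A] [SMulCommClass ℂ A A] :
    AddSubgroup (K0u (Unitization ℂ C₀(Fin n → ℝ, A))) :=
  K0 C₀(Fin n → ℝ, A)

section

variable (n : ℕ) (A : Type u) [NonUnitalRing A] [TopologicalSpace A]
    [IsTopologicalRing A] [Module ℂ A] [ContinuousConstSMul ℂ A]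
    [IsScalarTower ℂ A A] [SMulCommClass ℂ A A]

/-- The topological `K`-group `Kₙ(A) = K₀(C₀(ℝⁿ, A))` as a type. -/
def KTopGroup : Type u := K0Group C₀(Fin n → ℝ, A)

noncomputable instance : AddCommGroup (KTopGroup n A) :=
  (inferInstance : AddCommGroup (K0Group C₀(Fin n → ℝ, A)))

theorem subsingleton_KTopGroup (h : KTop n A = ⊥) : Subsingleton (KTopGroup n A) := by
  have h1 : Subsingleton (KTop n A) := by
    rw [h]
    infer_instance
  exact h1

end

end Pool.Agent.H368.KT
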