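import Pool.Agent.H368.WC.KC0

/-!
# The swindle for a closed subalgebra of a Banach algebra and elements of its idealizer
-/

set_option autoImplicit false

namespace Pool.Agent.H368.KT

open Matrix Filter Topology
open scoped ZeroAtInfty BoundedContinuousFunction

universe u v

variable {B : Type u} [NormedRing B] [NormedAlgebra ℂ B]

/-- Composition with a homomorphism of bounded norm. -/
noncomputable def mapC0 {X : Type v} [TopologicalSpace X] {A A' : Type*} [NonUnitalNormedRing A]
    [Module ℂ A] [ContinuousConstSMul ℂ A] [NonUnitalNormedRing A'] [Module ℂ A']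
    [ContinuousConstSMul ℂ A'] (f : A →ₙₐ[ℂ] A') (hf : Continuous f) :
    C₀(X, A) →ₙₐ[ℂ] C₀(X, A') where
  toFun g := ⟨⟨fun x => f (g x), by fun_prop⟩, by
    have h := g.zero_at_infty'
    have h2 : Tendsto f (𝓝 0) (𝓝 0) := by
      have := hf.tendsto 0
      rwa [map_zero] at this
    exact h2.comp h⟩
  map_smul' c g := by ext x; exact map_smul f c (g x)
  map_zero' := by ext x; exact map_zero f
  map_add' g h := by ext x; exact map_add f (g x) (h x)
  map_mul' g h := by ext x; exact map_mul f (g x) (h x)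

/-- The idealizer of a subalgebra. -/
noncomputable def idealizer (A : NonUnitalSubalgebra ℂ B) : Subalgebra ℂ B where
  carrier := {b | ∀ a ∈ A, b * a ∈ A ∧ a * b ∈ A}
  mul_mem' := by
    intro b c hb hc a ha
    refine ⟨?_, ?_⟩
    · rw [mul_assoc]; exact (hb _ (hc a ha).1).1
    · rw [← mul_assoc]; exact (hc _ (hb a ha).2).2
  add_mem' := by
    intro b c hb hc a ha
    refine ⟨?_, ?_⟩
    · rw [add_mul]; exact add_mem (hb a ha).1 (hc a ha).1
    · rw [mul_add]; exact add_mem (hb a ha).2 (hc a ha).2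
  algebraMap_mem' := by
    intro r a ha
    refine ⟨?_, ?_⟩
    · rw [← Algebra.smul_def]; exact SMulMemClass.smul_mem r ha
    · rw [← Algebra.commutes, ← Algebra.smul_def]; exact SMulMemClass.smul_mem r ha

theorem mem_idealizer {A : NonUnitalSubalgebra ℂ B} {b : B} :
    b ∈ idealizer A ↔ ∀ a ∈ A, b * a ∈ A ∧ a * b ∈ A := Iff.rfl

theorem isClosed_idealizer {A : NonUnitalSubalgebra ℂ B} (hA : IsClosed (A : Set B)) :
    IsClosed (idealizer A : Set B) := by
  have : (idealizer A : Set B) = ⋂ a : A, ((fun b => b * (a : B)) ⁻¹' (A : Set B)) ∩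
      ((fun b => (a : B) * b) ⁻¹' (A : Set B)) := by
    ext b
    simp only [SetLike.mem_coe, mem_idealizer, Set.mem_iInter, Set.mem_inter_iff,
      Set.mem_preimage, Subtype.forall]
  rw [this]
  exact isClosed_iInter fun a => (hA.preimage (by fun_prop)).inter (hA.preimage (by fun_prop))

theorem le_idealizer {A : NonUnitalSubalgebra ℂ B} {a : B} (ha : a ∈ A) : a ∈ idealizer A :=
  fun _ h => ⟨mul_mem ha h, mul_mem h ha⟩

/-- `A` as an ideal of its idealizer. -/
noncomputable def inIdealizer (A : NonUnitalSubalgebra ℂ B) : NonUnitalSubalgebra ℂ (idealizer A) :=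
  A.comap ((idealizer A).val : idealizer A →ₙₐ[ℂ] B)

theorem mem_inIdealizer {A : NonUnitalSubalgebra ℂ B} {b : idealizer A} :
    b ∈ inIdealizer A ↔ (b : B) ∈ A := NonUnitalSubalgebra.mem_comap _ _ _

theorem inIdealizer_closed {A : NonUnitalSubalgebra ℂ B} (hA : IsClosed (A : Set B)) :
    IsClosedIdeal (inIdealizer A) where
  closed := by
    have : ((inIdealizer A : NonUnitalSubalgebra ℂ (idealizer A)) : Set (idealizer A)) =
      Subtype.val ⁻¹' (A : Set B) := by
      ext b
      exact mem_inIdealizer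
    rw [this]
    exact hA.preimage continuous_subtype_val
  left b _ ha := mem_inIdealizer.2 (b.2 _ (mem_inIdealizer.1 ha)).1
  right b _ ha := mem_inIdealizer.2 (b.2 _ (mem_inIdealizer.1 ha)).2

/-- The identity from `A` to `A` as an ideal of the idealizer. -/
noncomputable def toI (A : NonUnitalSubalgebra ℂ B) : A →ₙₐ[ℂ] inIdealizer A where
  toFun a := ⟨⟨a, le_idealizer a.2⟩, mem_inIdealizer.2 a.2⟩
  map_smul' _ _ := rfl
  map_zero' := rfl
  map_add' _ _ := rfl
  map_mul' _ _ := rfl

/-- The identity from `A` as an ideal of the idealizer to `A`. -/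
noncomputable def fromI (A : NonUnitalSubalgebra ℂ B) : inIdealizer A →ₙₐ[ℂ] A where
  toFun a := ⟨(a : idealizer A), mem_inIdealizer.1 a.2⟩
  map_smul' _ _ := rfl
  map_zero' := rfl
  map_add' _ _ := rfl
  map_mul' _ _ := rfl

theorem continuous_toI (A : NonUnitalSubalgebra ℂ B) : Continuous (toI A) :=
  Continuous.subtype_mk (Continuous.subtype_mk continuous_subtype_val _) _

theorem continuous_fromI (A : NonUnitalSubalgebra ℂ B) : Continuous (fromI A) :=
  Continuous.subtype_mk (continuous_subtype_val.comp continuous_subtype_val) _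

/-- **Eilenberg swindle.** -/
theorem KTop_eq_bot [CompleteSpace B] (A : NonUnitalSubalgebra ℂ B) (hA : IsClosed (A : Set B))
    (Φ : A →ₙₐ[ℂ] A) (C : ℝ) (hC : ∀ a : A, ‖Φ a‖ ≤ C * ‖a‖) (v v' w w' : B)
    (mv : v ∈ idealizer A) (mv' : v' ∈ idealizer A) (mw : w ∈ idealizer A)
    (mw' : w' ∈ idealizer A)
    (hv : v' * v = 1) (hw1 : w * w' * w = w) (hw2 : w' * w * w' = w')
    (h1 : ∀ a : A, v' * (Φ a : B) = 0) (h2 : ∀ a : A, (Φ a : B) * v = 0)
    (h3 : ∀ a : A, (Φ a : B) = w * (v * a * v' + Φ a) * w')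
    (h4 : ∀ a : A, w' * w * (v * a * v' + Φ a) = v * a * v' + Φ a)
    (h5 : ∀ a : A, (v * a * v' + Φ a) * (w' * w) = v * a * v' + Φ a) (n : ℕ) :
    KTop n A = ⊥ := by
  have : CompleteSpace (idealizer A) := (isClosed_idealizer hA).completeSpace_coe
  let D : Swindle (inIdealizer A) :=
    { Φ := (toI A).comp (Φ.comp (fromI A))
      v := ⟨v, mv⟩
      v' := ⟨v', mv'⟩
      w := ⟨w, mw⟩
      w' := ⟨w', mw'⟩
      hv := Subtype.ext hv
      hw1 := Subtype.ext hw1
      hw2 := Subtype.ext hw2
      h1 := fun a => Subtype.ext (h1 (fromI A a))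
      h2 := fun a => Subtype.ext (h2 (fromI A a))
      h3 := fun a => Subtype.ext (h3 (fromI A a))
      h4 := fun a => Subtype.ext (h4 (fromI A a))
      h5 := fun a => Subtype.ext (h5 (fromI A a)) }
  have key := D.KTop_eq_bot (inIdealizer_closed hA) C (fun a => hC (fromI A a)) n
  exact K0_eq_bot_of_retract (mapC0 (toI A) (continuous_toI A))
    (mapC0 (fromI A) (continuous_fromI A)) (fun _ => rfl) key

end Pool.Agent.H368.KT
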