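import Pool.Agent.H368.WC.KPath

/-!
# `K₀` of a closed ideal of a Banach algebra: conjugation by multipliers
-/

set_option autoImplicit false

namespace Pool.Agent.H368.KT

open Matrix

universe u v

variable {B : Type u} [NormedRing B] [NormedAlgebra ℂ B]

/-- A closed two-sided ideal. -/
structure IsClosedIdeal (J : NonUnitalSubalgebra ℂ B) : Prop where
  closed : IsClosed (J : Set B)
  left : ∀ (b : B) {a : B}, a ∈ J → b * a ∈ J
  right : ∀ (b : B) {a : B}, a ∈ J → a * b ∈ J

/-- A complex matrix as a matrix over `B`. -/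
noncomputable def cm {κ : Type v} (s : Matrix κ κ ℂ) : Matrix κ κ B := s.map (algebraMap ℂ B)

variable {κ : Type v}

section
variable [Fintype κ]

theorem cm_mul (s t : Matrix κ κ ℂ) : (cm (s * t) : Matrix κ κ B) = cm s * cm t := by
  unfold cm
  rw [Matrix.map_mul]

/-- The pair `(s, A)` defines an idempotent. -/
def IdemPair (s : Matrix κ κ ℂ) (A : Matrix κ κ B) : Prop :=
  s * s = s ∧ cm s * A + A * cm s + A * A = A

theorem IdemPair.conj [DecidableEq κ] {s : Matrix κ κ ℂ} {A g g' : Matrix κ κ B}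
    (h : IdemPair s A) (h1 : g' * g = 1) (h2 : g * cm s = cm s * g) (h3 : g' * cm s = cm s * g') :
    IdemPair s (g * A * g') := by
  refine ⟨h.1, ?_⟩
  have e : cm s * (g * A * g') + g * A * g' * cm s + g * A * g' * (g * A * g') =
      g * (cm s * A + A * cm s + A * (g' * g) * A) * g' := by
    have e1 : cm s * (g * A * g') = g * (cm s * A) * g' := by
      rw [← Matrix.mul_assoc, ← Matrix.mul_assoc, ← h2]; simp only [Matrix.mul_assoc]
    have e2 : g * A * g' * cm s = g * (A * cm s) * g' := by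
      rw [Matrix.mul_assoc (g * A) g' (cm s), h3]; simp only [Matrix.mul_assoc]
    rw [e1, e2]
    simp only [Matrix.mul_assoc, Matrix.mul_add, Matrix.add_mul]
  rw [e, h1, Matrix.mul_one, h.2]

end

variable (J : NonUnitalSubalgebra ℂ B)

noncomputable instance instNormedSpaceSub : NormedSpace ℂ J where
  norm_smul_le c x := norm_smul_le c (x : B)

theorem fst_sum {ι : Type*} (t : Finset ι) (f : ι → Unitization ℂ J) :
    (∑ i ∈ t, f i).fst = ∑ i ∈ t, (f i).fst :=
  map_sum ((AddMonoidHom.fst ℂ J).comp (Unitization.addEquiv ℂ J).toAddMonoidHom) f t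

theorem snd_sum {ι : Type*} (t : Finset ι) (f : ι → Unitization ℂ J) :
    (∑ i ∈ t, f i).snd = ∑ i ∈ t, (f i).snd :=
  map_sum ((AddMonoidHom.snd ℂ J).comp (Unitization.addEquiv ℂ J).toAddMonoidHom) f t

/-- The matrix over the algebra `J⁺` with scalar part `s` and `J`-part `A`. -/
noncomputable def mk (s : Matrix κ κ ℂ) (A : Matrix κ κ B) (hA : ∀ i j, A i j ∈ J) :
    Matrix κ κ (Unitization ℂ J) :=
  Matrix.of fun i j => Unitization.inl (s i j) + Unitization.inr ⟨A i j, hA i j⟩

variable {J}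

theorem mk_inj {s t : Matrix κ κ ℂ} {A C : Matrix κ κ B} {hA : ∀ i j, A i j ∈ J}
    {hC : ∀ i j, C i j ∈ J} : mk J s A hA = mk J t C hC ↔ s = t ∧ A = C := by
  constructor
  · intro h
    constructor
    · ext i j
      have := congrArg (fun x : Unitization ℂ J => x.fst) (congrFun (congrFun h i) j)
      simpa [mk] using this
    · ext i j
      have := congrArg (fun x : Unitization ℂ J => x.snd) (congrFun (congrFun h i) j)
      simpa [mk] using this
  · rintro ⟨rfl, rfl⟩
    rfl

theorem exists_mk (E : Matrix κ κ (Unitization ℂ J)) : ∃ (s : Matrix κ κ ℂ) (A : Matrix κ κ B)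
    (hA : ∀ i j, A i j ∈ J), E = mk J s A hA := by
  refine ⟨fun i j => (E i j).fst, fun i j => ((E i j).snd : J), fun i j => ((E i j).snd : J).2, ?_⟩
  ext i j
  · simp [mk]
  · simp [mk]

theorem mk_map_fst (s : Matrix κ κ ℂ) (A : Matrix κ κ B) (hA : ∀ i j, A i j ∈ J) :
    (mk J s A hA).map (Unitization.fstHom ℂ J).toRingHom = s := by
  ext i j
  simp [mk]

section
variable [Fintype κ]

theorem mem_mul_left (hJ : IsClosedIdeal J) (g : Matrix κ κ B) {A : Matrix κ κ B}
    (hA : ∀ i j, A i j ∈ J) : ∀ i j, (g * A) i j ∈ J := by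
  intro i j
  rw [Matrix.mul_apply]
  exact sum_mem fun k _ => hJ.left _ (hA k j)

theorem mem_mul_right (hJ : IsClosedIdeal J) (g : Matrix κ κ B) {A : Matrix κ κ B}
    (hA : ∀ i j, A i j ∈ J) : ∀ i j, (A * g) i j ∈ J := by
  intro i j
  rw [Matrix.mul_apply]
  exact sum_mem fun k _ => hJ.right _ (hA i k)

omit [Fintype κ] in
theorem mem_add {A C : Matrix κ κ B} (hA : ∀ i j, A i j ∈ J) (hC : ∀ i j, C i j ∈ J) :
    ∀ i j, (A + C) i j ∈ J := fun i j => add_mem (hA i j) (hC i j)

theorem mem_mk_mul (hJ : IsClosedIdeal J) (s t : Matrix κ κ ℂ) {A C : Matrix κ κ B}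
    (hA : ∀ i j, A i j ∈ J) (hC : ∀ i j, C i j ∈ J) :
    ∀ i j, (cm s * C + A * cm t + A * C : Matrix κ κ B) i j ∈ J :=
  mem_add (mem_add (mem_mul_left hJ _ hC) (mem_mul_right hJ _ hA)) (mem_mul_left hJ _ hC)

theorem mk_mul (hJ : IsClosedIdeal J) (s t : Matrix κ κ ℂ) {A C : Matrix κ κ B}
    (hA : ∀ i j, A i j ∈ J) (hC : ∀ i j, C i j ∈ J) :
    mk J s A hA * mk J t C hC =
      mk J (s * t) (cm s * C + A * cm t + A * C) (mem_mk_mul hJ s t hA hC) := by
  ext i j
  · simp [mk, Matrix.mul_apply, fst_sum]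
  · simp only [mk, Matrix.mul_apply, Matrix.of_apply, snd_sum, Matrix.add_apply,
      Unitization.snd_add, Unitization.snd_inl, Unitization.snd_inr, zero_add]
    rw [AddSubmonoidClass.coe_finsetSum, ← Finset.sum_add_distrib, ← Finset.sum_add_distrib]
    refine Finset.sum_congr rfl fun k _ => ?_
    simp [cm, Algebra.smul_def, Algebra.commutes]

theorem mk_idem (hJ : IsClosedIdeal J) {s : Matrix κ κ ℂ} {A : Matrix κ κ B}
    {hA : ∀ i j, A i j ∈ J} : mk J s A hA * mk J s A hA = mk J s A hA ↔ IdemPair s A := by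
  rw [mk_mul hJ, mk_inj]
  rfl

/-- The class in `V(J⁺)` of the idempotent `(s, A)`. -/
noncomputable def cl (hJ : IsClosedIdeal J) (s : Matrix κ κ ℂ) (A : Matrix κ κ B)
    (hA : ∀ i j, A i j ∈ J) (h : IdemPair s A) : V (Unitization ℂ J) :=
  cls (mk J s A hA) ((mk_idem hJ).2 h)

theorem cl_path [CompleteSpace B] [DecidableEq κ] (hJ : IsClosedIdeal J) (s : Matrix κ κ ℂ)
    (A : unitInterval → Matrix κ κ B) (hA : ∀ t i j, A t i j ∈ J) (h : ∀ t, IdemPair s (A t))
    (hc : Continuous A) : cl hJ s (A 0) (hA 0) (h 0) = cl hJ s (A 1) (hA 1) (h 1) := by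
  have : CompleteSpace J := hJ.closed.completeSpace_coe
  let R := WithLp 1 (Unitization ℂ J)
  let φ : R ≃+* Unitization ℂ J := (WithLp.unitizationAlgEquiv ℂ (𝕜 := ℂ) (A := J)).toRingEquiv
  let e : unitInterval → Matrix κ κ R := fun t => (mk J s (A t) (hA t)).map φ.symm
  have he : ∀ t, e t * e t = e t := fun t => by
    show (mk J s (A t) (hA t)).map φ.symm * (mk J s (A t) (hA t)).map φ.symm = _
    rw [← Matrix.map_mul, (mk_idem hJ).2 (h t)]
  have hce : Continuous e := by
    refine continuous_matrix fun i j => ?_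
    have h1 : Continuous fun t => (⟨A t i j, hA t i j⟩ : J) :=
      Continuous.subtype_mk (hc.matrix_elem i j) _
    have h2 : Continuous fun t => WithLp.toLp 1 ((⟨A t i j, hA t i j⟩ : J) : Unitization ℂ J) :=
      WithLp.unitization_isometry_inr.continuous.comp h1
    have h3 : (fun t => e t i j) = fun t => WithLp.toLp 1 (Unitization.inl (s i j)) +
      WithLp.toLp 1 ((⟨A t i j, hA t i j⟩ : J) : Unitization ℂ J) := by
      funext t
      rfl
    rw [h3]
    exact continuous_const.add h2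
  have key := cls_path he hce
  have key2 := congrArg (V.map φ.toRingHom) key
  rw [V.map_cls, V.map_cls] at key2
  have h4 : ∀ t, (e t).map φ.toRingHom = mk J s (A t) (hA t) := by
    intro t
    ext i j <;> simp [e]
  unfold cl
  rw [cls_eq_iff] at key2 ⊢
  rw [h4, h4] at key2
  exact key2

end

end Pool.Agent.H368.KT
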