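import Pool.Agent.H368.WC.KSwindle

/-!
# The Eilenberg swindle: vanishing of `K₀`
-/

set_option autoImplicit false

namespace Pool.Agent.H368.KT

open Matrix

universe u v

section functor

variable {R S T : Type*} [Ring R] [Ring S] [Ring T]

theorem K0u.ind {motive : K0u R → Prop}
    (h : ∀ (n m : ℕ) (e : Matrix (Fin n) (Fin n) R) (f : Matrix (Fin m) (Fin m) R)
      (he : e * e = e) (hf : f * f = f), motive (K0u.of (cls e he) - K0u.of (cls f hf)))
    (x : K0u R) : motive x := by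
  obtain ⟨a, b, rfl⟩ := K0u.exists_sub x
  induction a using V.ind with
  | _ n e he =>
  induction b using V.ind with
  | _ m f hf =>
  exact h n m e f he hf

theorem K0u.map_map (φ : R →+* S) (ψ : S →+* T) (x : K0u R) :
    K0u.map ψ (K0u.map φ x) = K0u.map (ψ.comp φ) x := by
  induction x using K0u.ind with
  | _ n m e f he hf =>
  simp only [map_sub, K0u.map_of, V.map_cls]
  rfl

theorem K0u.map_id' (φ : R →+* R) (h : ∀ r, φ r = r) (x : K0u R) : K0u.map φ x = x := by
  have : φ = RingHom.id R := RingHom.ext h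
  subst this
  induction x using K0u.ind with
  | _ n m e f he hf =>
  simp only [map_sub, K0u.map_of, V.map_cls]
  rfl

end functor

section swindle

variable {B : Type u} [NormedRing B] [NormedAlgebra ℂ B] [CompleteSpace B]
variable {J : NonUnitalSubalgebra ℂ B} {κ : Type v} [Fintype κ] [DecidableEq κ]

/-- The data for the Eilenberg swindle. -/
structure Swindle (J : NonUnitalSubalgebra ℂ B) where
  /-- the infinite sum -/
  Φ : J →ₙₐ[ℂ] J
  v : B
  v' : B
  w : B
  w' : B
  hv : v' * v = 1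
  hw1 : w * w' * w = w
  hw2 : w' * w * w' = w'
  h1 : ∀ a : J, v' * (Φ a : B) = 0
  h2 : ∀ a : J, (Φ a : B) * v = 0
  h3 : ∀ a : J, (Φ a : B) = w * (v * a * v' + Φ a) * w'
  h4 : ∀ a : J, w' * w * (v * a * v' + Φ a) = v * a * v' + Φ a
  h5 : ∀ a : J, (v * a * v' + Φ a) * (w' * w) = v * a * v' + Φ a

/-- Entrywise application of the homomorphism. -/
noncomputable def phiM (Φ : J →ₙₐ[ℂ] J) (A : Matrix κ κ B) (hA : ∀ i j, A i j ∈ J) : Matrix κ κ B :=
  Matrix.of fun i j => (Φ ⟨A i j, hA i j⟩ : B)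

omit [CompleteSpace B] [Fintype κ] [DecidableEq κ] in
theorem phiM_mem (Φ : J →ₙₐ[ℂ] J) (A : Matrix κ κ B) (hA : ∀ i j, A i j ∈ J) :
    ∀ i j, phiM Φ A hA i j ∈ J := fun i j => (Φ ⟨A i j, hA i j⟩).2

omit [CompleteSpace B] [DecidableEq κ] in
theorem phiM_idem (Φ : J →ₙₐ[ℂ] J) {s : Matrix κ κ ℂ} {A : Matrix κ κ B}
    {hA : ∀ i j, A i j ∈ J} (h : IdemPair s A) : IdemPair s (phiM Φ A hA) := by
  refine ⟨h.1, ?_⟩
  have key : ∀ i j, (∑ k, s i k • (⟨A k j, hA k j⟩ : J)) + (∑ k, s k j • (⟨A i k, hA i k⟩ : J)) +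
      ∑ k, (⟨A i k, hA i k⟩ : J) * ⟨A k j, hA k j⟩ = ⟨A i j, hA i j⟩ := by
    intro i j
    have := congrFun (congrFun h.2 i) j
    apply Subtype.ext
    simp only [Matrix.add_apply, Matrix.mul_apply, cm, Matrix.map_apply] at this
    refine Eq.trans ?_ this
    simp [Algebra.smul_def, Algebra.commutes]
  ext i j
  have h1 := congrArg (fun x : J => ((Φ x : J) : B)) (key i j)
  simp only [map_add, map_sum, map_smul, map_mul] at h1
  simp only [Matrix.add_apply, Matrix.mul_apply, cm, Matrix.map_apply, phiM, Matrix.of_apply]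
  rw [← h1]
  simp [Algebra.smul_def, Algebra.commutes]

theorem Swindle.kc_eq (hJ : IsClosedIdeal J) (D : Swindle J) (s : Matrix κ κ ℂ)
    (A : Matrix κ κ B) (hA : ∀ i j, A i j ∈ J) (h : IdemPair s A) :
    kc hJ s A hA h = kc hJ s 0 mem_zero (idemPair_zero h.1) := by
  have hv : (dg D.v' : Matrix κ κ B) * dg D.v = 1 := by rw [← dg_mul, D.hv, dg_one]
  have hα : IdemPair s (dg D.v * A * dg D.v') := h.conj hv (dg_comm _ _) (dg_comm _ _)
  have hφ : IdemPair s (phiM D.Φ A hA) := phiM_idem D.Φ h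
  have z1 : (dg D.v' : Matrix κ κ B) * phiM D.Φ A hA = 0 := by
    ext i j
    rw [dg_mul_apply]
    exact D.h1 _
  have z2 : phiM D.Φ A hA * (dg D.v : Matrix κ κ B) = 0 := by
    ext i j
    rw [mul_dg_apply]
    exact D.h2 _
  have hαm := mem_conj hJ (dg D.v) (dg D.v') hA
  have hφm := phiM_mem D.Φ A hA
  have hsum : IdemPair s (dg D.v * A * dg D.v' + phiM D.Φ A hA) := by
    refine ⟨h.1, ?_⟩
    have e1 : dg D.v * A * dg D.v' * phiM D.Φ A hA = 0 := by
      rw [Matrix.mul_assoc, z1, Matrix.mul_zero]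
    have e2 : phiM D.Φ A hA * (dg D.v * A * dg D.v') = 0 := by
      rw [← Matrix.mul_assoc, ← Matrix.mul_assoc, z2, Matrix.zero_mul, Matrix.zero_mul]
    have : cm s * (dg D.v * A * dg D.v' + phiM D.Φ A hA) +
        (dg D.v * A * dg D.v' + phiM D.Φ A hA) * cm s +
        (dg D.v * A * dg D.v' + phiM D.Φ A hA) * (dg D.v * A * dg D.v' + phiM D.Φ A hA) =
        (cm s * (dg D.v * A * dg D.v') + (dg D.v * A * dg D.v') * cm s +
          (dg D.v * A * dg D.v') * (dg D.v * A * dg D.v')) +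
        (cm s * phiM D.Φ A hA + phiM D.Φ A hA * cm s + phiM D.Φ A hA * phiM D.Φ A hA) +
        (dg D.v * A * dg D.v' * phiM D.Φ A hA + phiM D.Φ A hA * (dg D.v * A * dg D.v')) := by
      simp only [Matrix.mul_add, Matrix.add_mul]
      abel
    rw [this, hα.2, hφ.2, e1, e2, add_zero, add_zero]
  have e0 : dg (D.v * D.v') * (dg D.v * A * dg D.v') = dg D.v * A * dg D.v' := by
    rw [dg_mul, Matrix.mul_assoc (dg D.v) (dg D.v') _, ← Matrix.mul_assoc (dg D.v') _ _,
      ← Matrix.mul_assoc (dg D.v') (dg D.v) A, hv, Matrix.one_mul, Matrix.mul_assoc]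
  have e0' : dg D.v * A * dg D.v' * dg (D.v * D.v') = dg D.v * A * dg D.v' := by
    rw [dg_mul, Matrix.mul_assoc (dg D.v * A) (dg D.v') _, ← Matrix.mul_assoc (dg D.v') _ _,
      hv, Matrix.one_mul]
  -- additivity
  have k1 := kc_orthogonal hJ s (dg D.v * A * dg D.v') (phiM D.Φ A hA) (D.v * D.v') (by
      calc D.v * D.v' * (D.v * D.v') = D.v * (D.v' * D.v) * D.v' := by simp only [mul_assoc]
        _ = _ := by rw [D.hv, mul_one]) hαm hφm hα hφ hsum e0 e0'
      (by rw [dg_mul, Matrix.mul_assoc, z1, Matrix.mul_zero])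
      (by rw [dg_mul, ← Matrix.mul_assoc, z2, Matrix.zero_mul])
  -- the isometry `v`
  have k2 := kc_partialIso hJ s A D.v D.v' (by rw [mul_assoc, D.hv, mul_one])
    (by rw [D.hv, one_mul]) hA h (by rw [hv, Matrix.one_mul]) (by rw [hv, Matrix.mul_one]) hα
  -- the partial isometry `w`
  have f1 : dg D.w' * dg D.w * (dg D.v * A * dg D.v' + phiM D.Φ A hA) =
      dg D.v * A * dg D.v' + phiM D.Φ A hA := by
    rw [← dg_mul]
    ext i j
    rw [dg_mul_apply, Matrix.add_apply, mul_dg_apply, dg_mul_apply]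
    exact D.h4 ⟨A i j, hA i j⟩
  have f2 : (dg D.v * A * dg D.v' + phiM D.Φ A hA) * (dg D.w' * dg D.w) =
      dg D.v * A * dg D.v' + phiM D.Φ A hA := by
    rw [← dg_mul]
    ext i j
    rw [mul_dg_apply, Matrix.add_apply, mul_dg_apply, dg_mul_apply]
    exact D.h5 ⟨A i j, hA i j⟩
  have f3 : dg D.w * (dg D.v * A * dg D.v' + phiM D.Φ A hA) * dg D.w' = phiM D.Φ A hA := by
    ext i j
    rw [mul_dg_apply, dg_mul_apply, Matrix.add_apply, mul_dg_apply, dg_mul_apply]
    exact (D.h3 ⟨A i j, hA i j⟩).symm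
  have k3 := kc_partialIso hJ s (dg D.v * A * dg D.v' + phiM D.Φ A hA) D.w D.w' D.hw1 D.hw2
    (mem_add hαm hφm) hsum f1 f2 (by rw [f3]; exact hφ)
  have k4 : kc hJ s (phiM D.Φ A hA) hφm hφ =
      kc hJ s (dg D.v * A * dg D.v' + phiM D.Φ A hA) (mem_add hαm hφm) hsum := by
    rw [← k3]
    exact kc_congr hJ f3.symm
  rw [k2, k4, add_comm (kc hJ s A hA h)] at k1
  exact (add_left_cancel k1).symm

theorem Swindle.K0_eq_bot (hJ : IsClosedIdeal J) (D : Swindle J) : K0 J = ⊥ := by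
  rw [eq_bot_iff]
  intro x hx
  have hx' : K0u.map (Unitization.fstHom ℂ J).toRingHom x = 0 := hx
  have hex : ∃ y : K0u ℂ, x = K0u.map (algebraMap ℂ (Unitization ℂ J)) y := by
    have hc : ∀ (n : ℕ) (e : Matrix (Fin n) (Fin n) (Unitization ℂ J)) (he : e * e = e),
        ∃ y : K0u ℂ, K0u.of (cls e he) = K0u.map (algebraMap ℂ (Unitization ℂ J)) y := by
      intro n e he
      obtain ⟨s, A, hA, rfl⟩ := exists_mk e
      have h := (mk_idem hJ).1 he
      refine ⟨K0u.of (cls s h.1), ?_⟩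
      rw [K0u.map_of, V.map_cls]
      have h1 := D.kc_eq hJ s A hA h
      refine h1.trans ?_
      unfold kc cl
      congr 1
      rw [cls_eq_iff]
      have : KT.mk J s 0 mem_zero = s.map (algebraMap ℂ (Unitization ℂ J)) := by
        ext i j
        · simp only [KT.mk, Matrix.of_apply, Matrix.zero_apply, Matrix.map_apply,
            Unitization.fst_add, Unitization.fst_inl, Unitization.fst_inr, add_zero]
          rfl
        · simp only [KT.mk, Matrix.of_apply, Matrix.zero_apply, Matrix.map_apply,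
            Unitization.snd_add, Unitization.snd_inl, Unitization.snd_inr, zero_add]
          rfl
      rw [this]
      exact MvN.refl (map_idem _ h.1)
    induction x using K0u.ind with
    | _ n m e f he hf =>
      obtain ⟨y, hy⟩ := hc n e he
      obtain ⟨z, hz⟩ := hc m f hf
      exact ⟨y - z, by rw [hy, hz, map_sub]⟩
  obtain ⟨y, rfl⟩ := hex
  rw [K0u.map_map, K0u.map_id' _ (fun r => by simp)] at hx'
  rw [hx', map_zero]
  exact zero_mem _

end swindle

end Pool.Agent.H368.KT
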