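import Pool.Agent.H368.WC.KDef

/-!
# Homotopies of idempotents
-/

set_option autoImplicit false

namespace Pool.Agent.H368.KT

open Matrix

universe u v

section near

variable {R : Type u} [Ring R] {κ : Type v} [Fintype κ] [DecidableEq κ]

theorem mvn_of_unit {e f : Matrix κ κ R} (he : e * e = e) (hf : f * f = f)
    (h : IsUnit (f * e + (1 - f) * (1 - e))) : MvN e f := by
  obtain ⟨z, hz⟩ := h
  have h1 : f * (z : Matrix κ κ R) = z * e := by
    rw [hz]
    have h2 : f * (f * e + (1 - f) * (1 - e)) = f * e := by
      have : f * (f * e + (1 - f) * (1 - e)) = (f * f) * e + (f - f * f) * (1 - e) := by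
        noncomm_ring
      rw [this, hf]; simp
    have h3 : (f * e + (1 - f) * (1 - e)) * e = f * e := by
      have : (f * e + (1 - f) * (1 - e)) * e = f * (e * e) + (1 - f) * (e - e * e) := by
        noncomm_ring
      rw [this, he]; simp
    rw [h2, h3]
  refine ⟨e * (↑z⁻¹ : Matrix κ κ R), z * e, ?_, ?_⟩
  · calc e * (↑z⁻¹ : Matrix κ κ R) * (z * e) = e * ((↑z⁻¹ : Matrix κ κ R) * z) * e := by
          simp only [Matrix.mul_assoc]
      _ = e := by rw [Units.inv_mul]; rw [Matrix.mul_one, he]
  · calc (z : Matrix κ κ R) * e * (e * (↑z⁻¹ : Matrix κ κ R))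
          = z * (e * e) * (↑z⁻¹ : Matrix κ κ R) := by
          simp only [Matrix.mul_assoc]
      _ = f * (z * (↑z⁻¹ : Matrix κ κ R)) := by rw [he, ← h1, Matrix.mul_assoc]
      _ = f := by rw [Units.mul_inv, Matrix.mul_one]

end near

section path

variable {R : Type u} [NormedRing R] [CompleteSpace R] {κ : Type v} [Fintype κ] [DecidableEq κ]

attribute [local instance] Matrix.linftyOpNormedRing in
theorem matrix_isOpen_units : IsOpen {x : Matrix κ κ R | IsUnit x} := by
  have h : @CompleteSpace (Matrix κ κ R)
      (Matrix.linftyOpNormedRing.toMetricSpace.toUniformSpace) := by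
    exact (inferInstance : CompleteSpace (κ → κ → R))
  haveI : HasSummableGeomSeries (Matrix κ κ R) := @instHasSummableGeomSeriesOfCompleteSpace _ _ h
  exact Units.isOpen

theorem matrix_isUnit_nhds {f : unitInterval → Matrix κ κ R} (hf : Continuous f)
    (t : unitInterval) (h : f t = 1) : ∀ᶠ s in nhds t, IsUnit (f s) := by
  have h1 : IsOpen {x : Matrix κ κ R | IsUnit x} := matrix_isOpen_units
  exact hf.continuousAt.eventually (h1.mem_nhds (by rw [h]; exact isUnit_one))

theorem cls_path {e : unitInterval → Matrix κ κ R} (he : ∀ t, e t * e t = e t)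
    (hc : Continuous e) : cls (e 0) (he 0) = cls (e 1) (he 1) := by
  have h : IsLocallyConstant fun t => cls (e t) (he t) := by
    rw [IsLocallyConstant.iff_eventually_eq]
    intro t
    have h1 : Continuous fun s => e s * e t + (1 - e s) * (1 - e t) := by fun_prop
    have h2 := matrix_isUnit_nhds h1 t (by
      have : e t * e t + (1 - e t) * (1 - e t) = 1 + 2 • (e t * e t - e t) := by noncomm_ring
      rw [this, he]; simp)
    filter_upwards [h2] with s hs
    exact ((cls_eq_iff _ _).2 (mvn_of_unit (he t) (he s) hs)).symm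
  exact h.apply_eq_of_preconnectedSpace 0 1

end path

end Pool.Agent.H368.KT
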