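import Pool.Agent.H368.WC.KIdeal

/-!
# The Eilenberg swindle
-/

set_option autoImplicit false

namespace Pool.Agent.H368.KT

open Matrix

universe u v

variable {B : Type u} [NormedRing B] [NormedAlgebra ℂ B] [CompleteSpace B]
variable {J : NonUnitalSubalgebra ℂ B} {κ : Type v} [Fintype κ] [DecidableEq κ]

omit [CompleteSpace B] [DecidableEq κ] in
theorem mem_conj (hJ : IsClosedIdeal J) (g g' : Matrix κ κ B) {A : Matrix κ κ B}
    (hA : ∀ i j, A i j ∈ J) : ∀ i j, (g * A * g') i j ∈ J :=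
  mem_mul_right hJ _ (mem_mul_left hJ _ hA)

omit [CompleteSpace B] [DecidableEq κ] in
theorem cl_congr (hJ : IsClosedIdeal J) {s : Matrix κ κ ℂ} {A C : Matrix κ κ B}
    {hA : ∀ i j, A i j ∈ J} {hC : ∀ i j, C i j ∈ J} {h : IdemPair s A} {h' : IdemPair s C}
    (e : A = C) : cl hJ s A hA h = cl hJ s C hC h' := by
  subst e
  rfl

omit [CompleteSpace B] in
theorem unip_inv {X : Matrix κ κ B} (hX : X * X = 0) (c : ℂ) :
    (1 - c • X) * (1 + c • X) = 1 := by
  rw [sub_mul, mul_add, mul_add, one_mul, mul_one, one_mul, smul_mul_assoc, mul_smul_comm, hX,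
    smul_zero, smul_zero, add_zero, add_sub_cancel_right]

theorem cl_unipotent (hJ : IsClosedIdeal J) (s : Matrix κ κ ℂ) (A X : Matrix κ κ B)
    (hA : ∀ i j, A i j ∈ J) (h : IdemPair s A) (hX : X * X = 0) (hs : X * cm s = cm s * X)
    (h' : IdemPair s ((1 + X) * A * (1 - X))) :
    cl hJ s A hA h = cl hJ s ((1 + X) * A * (1 - X)) (mem_conj hJ _ _ hA) h' := by
  have hpair : ∀ c : ℂ, IdemPair s ((1 + c • X) * A * (1 - c • X)) := by
    intro c
    refine h.conj (unip_inv hX c) ?_ ?_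
    · simp only [add_mul, mul_add, one_mul, mul_one, smul_mul_assoc, mul_smul_comm, hs]
    · simp only [sub_mul, mul_sub, one_mul, mul_one, smul_mul_assoc, mul_smul_comm, hs]
  have key := cl_path hJ s (fun t => (1 + ((t : ℝ) : ℂ) • X) * A * (1 - ((t : ℝ) : ℂ) • X))
    (fun t => mem_conj hJ _ _ hA) (fun t => hpair _) (by fun_prop)
  have e0 : (((0 : unitInterval) : ℝ) : ℂ) = 0 := by simp
  have e1 : (((1 : unitInterval) : ℝ) : ℂ) = 1 := by simp
  calc cl hJ s A hA h = _ := cl_congr hJ (by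
        show A = (1 + (((0 : unitInterval) : ℝ) : ℂ) • X) * A *
          (1 - (((0 : unitInterval) : ℝ) : ℂ) • X)
        rw [e0, zero_smul, add_zero, sub_zero, Matrix.one_mul, Matrix.mul_one])
    _ = _ := key
    _ = _ := cl_congr hJ (by
        show (1 + (((1 : unitInterval) : ℝ) : ℂ) • X) * A *
          (1 - (((1 : unitInterval) : ℝ) : ℂ) • X) = _
        rw [e1, one_smul])

/-- Conjugation by the pair `(g, g')` does not change classes. -/
structure Good (hJ : IsClosedIdeal J) (s : Matrix κ κ ℂ) (g g' : Matrix κ κ B) : Prop where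
  inv : g' * g = 1
  comm : g * cm s = cm s * g
  comm' : g' * cm s = cm s * g'
  cl_eq : ∀ (A : Matrix κ κ B) (hA : ∀ i j, A i j ∈ J) (h : IdemPair s A)
    (h' : IdemPair s (g * A * g')),
    cl hJ s A hA h = cl hJ s (g * A * g') (mem_conj hJ _ _ hA) h'

omit [CompleteSpace B] in
theorem Good.mul {hJ : IsClosedIdeal J} {s : Matrix κ κ ℂ} {g g' k k' : Matrix κ κ B}
    (h1 : Good hJ s g g') (h2 : Good hJ s k k') : Good hJ s (g * k) (k' * g') where
  inv := by
    calc k' * g' * (g * k) = k' * (g' * g) * k := by simp only [Matrix.mul_assoc]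
      _ = 1 := by rw [h1.inv, Matrix.mul_one, h2.inv]
  comm := by rw [Matrix.mul_assoc, h2.comm, ← Matrix.mul_assoc, h1.comm, Matrix.mul_assoc]
  comm' := by rw [Matrix.mul_assoc, h1.comm', ← Matrix.mul_assoc, h2.comm', Matrix.mul_assoc]
  cl_eq A hA h h' := by
    have hp : IdemPair s (k * A * k') := h.conj h2.inv h2.comm h2.comm'
    rw [h2.cl_eq A hA h hp, h1.cl_eq _ (mem_conj hJ _ _ hA) hp (hp.conj h1.inv h1.comm h1.comm')]
    exact cl_congr hJ (by simp only [Matrix.mul_assoc])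

theorem good_unipotent (hJ : IsClosedIdeal J) (s : Matrix κ κ ℂ) (X : Matrix κ κ B)
    (hX : X * X = 0) (hs : X * cm s = cm s * X) : Good hJ s (1 + X) (1 - X) where
  inv := by
    have := unip_inv hX 1
    rwa [one_smul] at this
  comm := by simp only [add_mul, mul_add, one_mul, mul_one, hs]
  comm' := by simp only [sub_mul, mul_sub, one_mul, mul_one, hs]
  cl_eq A hA h h' := cl_unipotent hJ s A X hA h hX hs h'

omit [CompleteSpace B] [Fintype κ] [DecidableEq κ] in
theorem cm_fromBlocks (s t : Matrix κ κ ℂ) :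
    (cm (fromBlocks s 0 0 t) : Matrix (κ ⊕ κ) (κ ⊕ κ) B) = fromBlocks (cm s) 0 0 (cm t) := by
  unfold cm
  rw [fromBlocks_map]
  simp

theorem good_E12 (hJ : IsClosedIdeal J) (s : Matrix κ κ ℂ) (x : Matrix κ κ B)
    (hs : x * cm s = cm s * x) :
    Good hJ (fromBlocks s 0 0 s) (fromBlocks 1 x 0 1) (fromBlocks 1 (-x) 0 1) := by
  have h := good_unipotent hJ (fromBlocks s 0 0 s) (fromBlocks 0 x 0 0)
    (by rw [fromBlocks_multiply]; simp) (by
      rw [cm_fromBlocks, fromBlocks_multiply, fromBlocks_multiply]; simp [hs])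
  have e1 : (1 : Matrix (κ ⊕ κ) (κ ⊕ κ) B) + fromBlocks 0 x 0 0 = fromBlocks 1 x 0 1 := by
    rw [← fromBlocks_one, fromBlocks_add]; simp
  have e2 : (1 : Matrix (κ ⊕ κ) (κ ⊕ κ) B) - fromBlocks 0 x 0 0 = fromBlocks 1 (-x) 0 1 := by
    rw [← fromBlocks_one, sub_eq_add_neg, fromBlocks_neg, fromBlocks_add]; simp
  rwa [e1, e2] at h

theorem good_E21 (hJ : IsClosedIdeal J) (s : Matrix κ κ ℂ) (x : Matrix κ κ B)
    (hs : x * cm s = cm s * x) :
    Good hJ (fromBlocks s 0 0 s) (fromBlocks 1 0 x 1) (fromBlocks 1 0 (-x) 1) := by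
  have h := good_unipotent hJ (fromBlocks s 0 0 s) (fromBlocks 0 0 x 0)
    (by rw [fromBlocks_multiply]; simp) (by
      rw [cm_fromBlocks, fromBlocks_multiply, fromBlocks_multiply]; simp [hs])
  have e1 : (1 : Matrix (κ ⊕ κ) (κ ⊕ κ) B) + fromBlocks 0 0 x 0 = fromBlocks 1 0 x 1 := by
    rw [← fromBlocks_one, fromBlocks_add]; simp
  have e2 : (1 : Matrix (κ ⊕ κ) (κ ⊕ κ) B) - fromBlocks 0 0 x 0 = fromBlocks 1 0 (-x) 1 := by
    rw [← fromBlocks_one, sub_eq_add_neg, fromBlocks_neg, fromBlocks_add]; simp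
  rwa [e1, e2] at h

theorem good_diag (hJ : IsClosedIdeal J) (s : Matrix κ κ ℂ) (g g' : Matrix κ κ B)
    (h1 : g * g' = 1) (h2 : g' * g = 1) (h3 : g * cm s = cm s * g) (h4 : g' * cm s = cm s * g') :
    Good hJ (fromBlocks s 0 0 s) (fromBlocks g 0 0 g') (fromBlocks g' 0 0 g) := by
  have hneg : (-g') * cm s = cm s * (-g') := by rw [neg_mul, h4, mul_neg]
  have hone : (1 : Matrix κ κ B) * cm s = cm s * 1 := by rw [one_mul, mul_one]
  have hone' : (-1 : Matrix κ κ B) * cm s = cm s * (-1) := by rw [neg_mul, hone, mul_neg]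
  have h := (((((good_E12 hJ s g h3).mul (good_E21 hJ s (-g') hneg)).mul (good_E12 hJ s g h3)).mul
    (good_E12 hJ s (-1) hone')).mul (good_E21 hJ s 1 hone)).mul (good_E12 hJ s (-1) hone')
  have e1 : fromBlocks 1 g 0 1 * fromBlocks 1 0 (-g') 1 * fromBlocks 1 g 0 1 *
      fromBlocks 1 (-1) 0 1 * fromBlocks 1 0 1 1 * fromBlocks 1 (-1) 0 1 =
      fromBlocks g 0 0 g' := by
    simp only [fromBlocks_multiply, Matrix.mul_zero, Matrix.zero_mul, Matrix.mul_one,
      Matrix.one_mul, add_zero, zero_add, mul_neg, neg_mul, h1, h2]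
    simp
  have e2 : fromBlocks 1 (- -1) 0 1 * (fromBlocks 1 0 (-1) 1 * (fromBlocks 1 (- -1) 0 1 *
      (fromBlocks 1 (-g) 0 1 * (fromBlocks 1 0 (- -g') 1 * fromBlocks 1 (-g) 0 1)))) =
      fromBlocks g' 0 0 g := by
    simp only [fromBlocks_multiply, Matrix.mul_zero, Matrix.mul_one,
      Matrix.one_mul, add_zero, zero_add, mul_neg, neg_mul, h1, h2, neg_neg]
    simp
  rw [e1, e2] at h
  exact h

/-- The class in `K₀(J⁺)` of the idempotent `(s, A)`. -/
noncomputable def kc (hJ : IsClosedIdeal J) (s : Matrix κ κ ℂ) (A : Matrix κ κ B)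
    (hA : ∀ i j, A i j ∈ J) (h : IdemPair s A) : K0u (Unitization ℂ J) :=
  K0u.of (cl hJ s A hA h)

omit [CompleteSpace B] [DecidableEq κ] in
theorem idemPair_diag {s t : Matrix κ κ ℂ} {A C : Matrix κ κ B} (h : IdemPair s A)
    (h' : IdemPair t C) : IdemPair (fromBlocks s 0 0 t) (fromBlocks A 0 0 C) := by
  refine ⟨fromBlocks_idem h.1 h'.1, ?_⟩
  rw [cm_fromBlocks, fromBlocks_multiply, fromBlocks_multiply, fromBlocks_multiply,
    fromBlocks_add, fromBlocks_add]
  simp [h.2, h'.2]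

omit [CompleteSpace B] [DecidableEq κ] [Fintype κ] in
theorem mem_diag {A C : Matrix κ κ B} (hA : ∀ i j, A i j ∈ J) (hC : ∀ i j, C i j ∈ J) :
    ∀ i j, (fromBlocks A 0 0 C : Matrix (κ ⊕ κ) (κ ⊕ κ) B) i j ∈ J := by
  rintro (i | i) (j | j)
  · exact hA i j
  · exact zero_mem J
  · exact zero_mem J
  · exact hC i j

omit [CompleteSpace B] [DecidableEq κ] in
theorem kc_add (hJ : IsClosedIdeal J) {s t : Matrix κ κ ℂ} {A C : Matrix κ κ B}
    {hA : ∀ i j, A i j ∈ J} {hC : ∀ i j, C i j ∈ J} (h : IdemPair s A) (h' : IdemPair t C) :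
    kc hJ s A hA h + kc hJ t C hC h' =
      kc hJ (fromBlocks s 0 0 t) (fromBlocks A 0 0 C) (mem_diag hA hC) (idemPair_diag h h') := by
  unfold kc
  rw [← map_add]
  congr 1
  unfold cl
  rw [cls_add, cls_eq_iff]
  have e : fromBlocks (mk J s A hA) 0 0 (mk J t C hC) =
      mk J (fromBlocks s 0 0 t) (fromBlocks A 0 0 C) (mem_diag hA hC) := by
    ext i j
    · rcases i with i | i <;> rcases j with j | j <;> simp [mk]
    · rcases i with i | i <;> rcases j with j | j <;> simp [mk]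
  rw [e]
  exact MvN.refl ((mk_idem hJ).2 (idemPair_diag h h'))

omit [CompleteSpace B] [DecidableEq κ] in
theorem kc_congr (hJ : IsClosedIdeal J) {s : Matrix κ κ ℂ} {A C : Matrix κ κ B}
    {hA : ∀ i j, A i j ∈ J} {hC : ∀ i j, C i j ∈ J} {h : IdemPair s A} {h' : IdemPair s C}
    (e : A = C) : kc hJ s A hA h = kc hJ s C hC h' := by
  subst e
  rfl

omit [CompleteSpace B] [DecidableEq κ] in
theorem idemPair_zero {s : Matrix κ κ ℂ} (h : s * s = s) : IdemPair s (0 : Matrix κ κ B) :=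
  ⟨h, by simp⟩

omit [CompleteSpace B] [DecidableEq κ] [Fintype κ] in
theorem mem_zero : ∀ i j, (0 : Matrix κ κ B) i j ∈ J := fun _ _ => zero_mem J

/-- Conjugation by an invertible matrix over `B` which commutes with the scalar part does not
change the class in `K₀(J⁺)`. -/
theorem kc_conj (hJ : IsClosedIdeal J) (s : Matrix κ κ ℂ) (g g' A : Matrix κ κ B)
    (h1 : g * g' = 1) (h2 : g' * g = 1) (h3 : g * cm s = cm s * g) (h4 : g' * cm s = cm s * g')
    (hA : ∀ i j, A i j ∈ J) (h : IdemPair s A) (h' : IdemPair s (g * A * g')) :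
    kc hJ s (g * A * g') (mem_conj hJ _ _ hA) h' = kc hJ s A hA h := by
  have hG := good_diag hJ s g g' h1 h2 h3 h4
  have h0 : IdemPair s (0 : Matrix κ κ B) := idemPair_zero h.1
  have hd : IdemPair (fromBlocks s 0 0 s) (fromBlocks A 0 0 (0 : Matrix κ κ B)) :=
    idemPair_diag h h0
  have key := hG.cl_eq (fromBlocks A 0 0 0) (mem_diag hA mem_zero) hd
    (hd.conj hG.inv hG.comm hG.comm')
  have e : fromBlocks g 0 0 g' * fromBlocks A 0 0 0 * fromBlocks g' 0 0 g =
      fromBlocks (g * A * g') 0 0 (0 : Matrix κ κ B) := by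
    simp [fromBlocks_multiply]
  have k1 := kc_add hJ (hA := hA) (hC := mem_zero) h h0
  have k2 := kc_add hJ (hA := mem_conj hJ g g' hA) (hC := mem_zero) h' h0
  have k3 : kc hJ (fromBlocks s 0 0 s) (fromBlocks A 0 0 0) (mem_diag hA mem_zero) hd =
      kc hJ (fromBlocks s 0 0 s) (fromBlocks (g * A * g') 0 0 0)
        (mem_diag (mem_conj hJ g g' hA) mem_zero) (idemPair_diag h' h0) := by
    unfold kc
    rw [key]
    exact kc_congr hJ e
  rw [← k1, ← k2] at k3
  exact (add_right_cancel k3).symm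

section scalar

/-- The scalar matrix with entry `w` in `B`. -/
noncomputable def dg (w : B) : Matrix κ κ B := Matrix.scalar κ w

omit [CompleteSpace B] [NormedAlgebra ℂ B] in
theorem dg_mul_apply (w : B) (A : Matrix κ κ B) (i j : κ) :
    (dg w * A : Matrix κ κ B) i j = w * A i j := by
  simp [dg]

omit [CompleteSpace B] [NormedAlgebra ℂ B] in
theorem mul_dg_apply (w : B) (A : Matrix κ κ B) (i j : κ) :
    (A * dg w : Matrix κ κ B) i j = A i j * w := by
  simp [dg]

omit [CompleteSpace B] in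
theorem dg_comm (w : B) (s : Matrix κ κ ℂ) :
    (dg w * cm s : Matrix κ κ B) = cm s * dg w := by
  ext i j
  rw [dg_mul_apply, mul_dg_apply]
  simp [cm, Algebra.commutes]

omit [CompleteSpace B] [NormedAlgebra ℂ B] in
theorem dg_mul (w v : B) : (dg (w * v) : Matrix κ κ B) = dg w * dg v := by
  simp [dg]

omit [CompleteSpace B] [NormedAlgebra ℂ B] in
theorem dg_one : (dg (1 : B) : Matrix κ κ B) = 1 := by
  simp [dg]

omit [CompleteSpace B] in
theorem comm_one_sub {g : Matrix κ κ B} {s : Matrix κ κ ℂ} (h : g * cm s = cm s * g) :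
    (1 - g) * cm s = cm s * (1 - g) := by
  rw [sub_mul, mul_sub, h, one_mul, mul_one]

/-- Conjugation by a partial isometry over `B`. -/
theorem kc_partialIso (hJ : IsClosedIdeal J) (s : Matrix κ κ ℂ) (A : Matrix κ κ B) (w w' : B)
    (h1 : w * w' * w = w) (h2 : w' * w * w' = w')
    (hA : ∀ i j, A i j ∈ J) (h : IdemPair s A) (e1 : dg w' * dg w * A = A)
    (e2 : A * (dg w' * dg w) = A) (h' : IdemPair s (dg w * A * dg w')) :
    kc hJ s (dg w * A * dg w') (mem_conj hJ _ _ hA) h' = kc hJ s A hA h := by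
  have c1 : (dg w : Matrix κ κ B) * dg w' * dg w = dg w := by rw [← dg_mul, ← dg_mul, h1]
  have c2 : (dg w' : Matrix κ κ B) * dg w * dg w' = dg w' := by rw [← dg_mul, ← dg_mul, h2]
  set g : Matrix κ κ B := dg w with hg
  set g' : Matrix κ κ B := dg w' with hg'
  have hgc : g * cm s = cm s * g := dg_comm w s
  have hgc' : g' * cm s = cm s * g' := dg_comm w' s
  have hpc : (1 - g * g') * cm s = cm s * (1 - g * g') :=
    comm_one_sub (by rw [Matrix.mul_assoc, hgc', ← Matrix.mul_assoc, hgc, Matrix.mul_assoc])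
  have hqc : (1 - g' * g) * cm s = cm s * (1 - g' * g) :=
    comm_one_sub (by rw [Matrix.mul_assoc, hgc, ← Matrix.mul_assoc, hgc', Matrix.mul_assoc])
  have c1' : g * (g' * g) = g := by rw [← Matrix.mul_assoc, c1]
  have c2' : g' * (g * g') = g' := by rw [← Matrix.mul_assoc, c2]
  have p1 : (1 - g * g') * (1 - g * g') = 1 - g * g' := by
    have : g * g' * (g * g') = g * g' := by rw [← Matrix.mul_assoc, c1]
    exact IsIdempotentElem.one_sub this
  have q1 : (1 - g' * g) * (1 - g' * g) = 1 - g' * g := by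
    have : g' * g * (g' * g) = g' * g := by rw [← Matrix.mul_assoc, c2]
    exact IsIdempotentElem.one_sub this
  have z1 : g * (1 - g' * g) = 0 := by rw [mul_sub, mul_one, c1', sub_self]
  have z2 : (1 - g * g') * g = 0 := by rw [sub_mul, one_mul, c1, sub_self]
  have z3 : g' * (1 - g * g') = 0 := by rw [mul_sub, mul_one, c2', sub_self]
  have z4 : (1 - g' * g) * g' = 0 := by rw [sub_mul, one_mul, c2, sub_self]
  have hUU : fromBlocks g (1 - g * g') (1 - g' * g) g' *
      fromBlocks g' (1 - g' * g) (1 - g * g') g = 1 := by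
    rw [fromBlocks_multiply, p1, q1, z1, z2, z3, z4, ← fromBlocks_one]
    congr 1 <;> abel
  have hUU' : fromBlocks g' (1 - g' * g) (1 - g * g') g *
      fromBlocks g (1 - g * g') (1 - g' * g) g' = 1 := by
    rw [fromBlocks_multiply, p1, q1, z1, z2, z3, z4, ← fromBlocks_one]
    congr 1 <;> abel
  have hcU : fromBlocks g (1 - g * g') (1 - g' * g) g' * cm (fromBlocks s 0 0 s) =
      cm (fromBlocks s 0 0 s) * fromBlocks g (1 - g * g') (1 - g' * g) g' := by
    rw [cm_fromBlocks, fromBlocks_multiply, fromBlocks_multiply, hgc, hgc', hpc, hqc]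
    simp
  have hcU' : fromBlocks g' (1 - g' * g) (1 - g * g') g * cm (fromBlocks s 0 0 s) =
      cm (fromBlocks s 0 0 s) * fromBlocks g' (1 - g' * g) (1 - g * g') g := by
    rw [cm_fromBlocks, fromBlocks_multiply, fromBlocks_multiply, hgc, hgc', hpc, hqc]
    simp
  have h0 : IdemPair s (0 : Matrix κ κ B) := idemPair_zero h.1
  have hd : IdemPair (fromBlocks s 0 0 s) (fromBlocks A 0 0 (0 : Matrix κ κ B)) :=
    idemPair_diag h h0
  have z5 : (1 - g' * g) * A = 0 := by rw [sub_mul, one_mul, e1, sub_self]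
  have z6 : A * (1 - g' * g) = 0 := by rw [mul_sub, mul_one, e2, sub_self]
  have e : fromBlocks g (1 - g * g') (1 - g' * g) g' * fromBlocks A 0 0 0 *
      fromBlocks g' (1 - g' * g) (1 - g * g') g =
      fromBlocks (g * A * g') 0 0 (0 : Matrix κ κ B) := by
    rw [fromBlocks_multiply, fromBlocks_multiply, z5]
    simp only [Matrix.mul_zero, Matrix.zero_mul, add_zero]
    rw [Matrix.mul_assoc g A (1 - g' * g), z6, Matrix.mul_zero]
  have key := kc_conj hJ (fromBlocks s 0 0 s) _ _ (fromBlocks A 0 0 0) hUU hUU' hcU hcU'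
    (mem_diag hA mem_zero) hd (hd.conj hUU' hcU hcU')
  have k1 := kc_add hJ (hA := hA) (hC := mem_zero) h h0
  have k2 := kc_add hJ (hA := mem_conj hJ g g' hA) (hC := mem_zero) h' h0
  have k3 : kc hJ (fromBlocks s 0 0 s) (fromBlocks A 0 0 0) (mem_diag hA mem_zero) hd =
      kc hJ (fromBlocks s 0 0 s) (fromBlocks (g * A * g') 0 0 0)
        (mem_diag (mem_conj hJ g g' hA) mem_zero) (idemPair_diag h' h0) := by
    rw [← key]
    exact kc_congr hJ e
  rw [← k1, ← k2] at k3
  exact (add_right_cancel k3).symm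

/-- Additivity for orthogonal sums. -/
theorem kc_orthogonal (hJ : IsClosedIdeal J) (s : Matrix κ κ ℂ) (A C : Matrix κ κ B) (p : B)
    (hp : p * p = p) (hA : ∀ i j, A i j ∈ J) (hC : ∀ i j, C i j ∈ J)
    (h : IdemPair s A) (h' : IdemPair s C) (h'' : IdemPair s (A + C))
    (e1 : dg p * A = A) (e2 : A * dg p = A) (e3 : dg p * C = 0) (e4 : C * dg p = 0) :
    kc hJ s (A + C) (mem_add hA hC) h'' + kc hJ s 0 mem_zero (idemPair_zero h.1) =
      kc hJ s A hA h + kc hJ s C hC h' := by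
  have c1 : (dg p : Matrix κ κ B) * dg p = dg p := by rw [← dg_mul, hp]
  set g : Matrix κ κ B := dg p with hg
  have hgc : g * cm s = cm s * g := dg_comm p s
  have hpc : (1 - g) * cm s = cm s * (1 - g) := comm_one_sub hgc
  have p1 : (1 - g) * (1 - g) = 1 - g := by
    exact IsIdempotentElem.one_sub c1
  have z1 : g * (1 - g) = 0 := by rw [mul_sub, mul_one, c1, sub_self]
  have z2 : (1 - g) * g = 0 := by rw [sub_mul, one_mul, c1, sub_self]
  have hUU : fromBlocks g (1 - g) (1 - g) g * fromBlocks g (1 - g) (1 - g) g = 1 := by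
    rw [fromBlocks_multiply, p1, z1, z2, c1, ← fromBlocks_one]
    congr 1 <;> abel
  have hcU : fromBlocks g (1 - g) (1 - g) g * cm (fromBlocks s 0 0 s) =
      cm (fromBlocks s 0 0 s) * fromBlocks g (1 - g) (1 - g) g := by
    rw [cm_fromBlocks, fromBlocks_multiply, fromBlocks_multiply, hgc, hpc]
    simp
  have f1 : (1 - g) * A = 0 := by rw [sub_mul, one_mul, e1, sub_self]
  have f2 : A * (1 - g) = 0 := by rw [mul_sub, mul_one, e2, sub_self]
  have f3 : (1 - g) * C = C := by rw [sub_mul, one_mul, e3, sub_zero]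
  have f4 : C * (1 - g) = C := by rw [mul_sub, mul_one, e4, sub_zero]
  have e : fromBlocks g (1 - g) (1 - g) g * fromBlocks A 0 0 C * fromBlocks g (1 - g) (1 - g) g =
      fromBlocks (A + C) 0 0 (0 : Matrix κ κ B) := by
    rw [fromBlocks_multiply, f1, f3, e1, e3]
    simp only [Matrix.mul_zero, add_zero, zero_add]
    rw [fromBlocks_multiply, e2, f4, f2, e4]
    simp
  have hd := idemPair_diag h h'
  have key := kc_conj hJ (fromBlocks s 0 0 s) _ _ (fromBlocks A 0 0 C) hUU hUU hcU hcU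
    (mem_diag hA hC) hd (hd.conj hUU hcU hcU)
  have k1 := kc_add hJ (hA := hA) (hC := hC) h h'
  have k2 := kc_add hJ (hA := mem_add hA hC) (hC := mem_zero) h'' (idemPair_zero h.1)
  rw [k1, k2, ← key]
  exact (kc_congr hJ e).symm

end scalar

end Pool.Agent.H368.KT
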