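import Pool.Agent.H368.WC.Amp
import Pool.Agent.H368.WC.KFinal

/-!
# Discrete Roe algebras
-/

set_option autoImplicit false

namespace Pool.Agent.H368.Coarse

open scoped InnerProductSpace ENNReal
open ContinuousLinearMap (adjoint)

section basis

variable {H : Type*} [NormedAddCommGroup H] [InnerProductSpace ℂ H] [CompleteSpace H]
variable {J : Type*} (b : HilbertBasis J ℂ H)

theorem hb_ext {F : Type*} [AddCommMonoid F] [Module ℂ F] [TopologicalSpace F] [T2Space F]
    {S T : H →L[ℂ] F} (h : ∀ x, S (b x) = T (b x)) : S = T := by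
  apply ContinuousLinearMap.ext_on (s := Set.range b)
  · rw [dense_iff_closure_eq]
    have := b.dense_span
    rw [← Submodule.topologicalClosure_coe, this]
    rfl
  · rintro _ ⟨x, rfl⟩
    exact h x

theorem hb_ext_inner {y z : H} (h : ∀ x, ⟪b x, y⟫_ℂ = ⟪b x, z⟫_ℂ) : y = z := by
  apply b.repr.injective
  ext x
  rw [b.repr_apply_apply, b.repr_apply_apply, h]

theorem hb_inner (x y : J) [DecidableEq J] : ⟪b x, b y⟫_ℂ = if x = y then 1 else 0 :=
  (orthonormal_iff_ite.1 b.orthonormal) x y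

theorem hb_inner_ne {x y : J} (h : x ≠ y) : ⟪b x, b y⟫_ℂ = 0 := b.orthonormal.2 h

end basis

/-- A Hilbert space with a basis indexed by `I × ℕ`, the projections to the parts of the basis
indexed by `{i} × ℕ`, and a distance function on `I` with finite balls. -/
structure CoarseModel (H : Type*) [NormedAddCommGroup H] [InnerProductSpace ℂ H]
    (I : Type*) [DecidableEq I] where
  b : HilbertBasis (I × ℕ) ℂ H
  P : I → H →L[ℂ] H
  P_b : ∀ i j k, P i (b (j, k)) = if j = i then b (j, k) else 0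
  D : I → I → ℝ
  D_symm : ∀ i j, D i j = D j i
  D_tri : ∀ i j k, D i k ≤ D i j + D j k
  fin : ∀ i R, {j | D i j ≤ R}.Finite

namespace CoarseModel

variable {H : Type*} [NormedAddCommGroup H] [InnerProductSpace ℂ H] [CompleteSpace H]
variable {I : Type*} [DecidableEq I] (X : CoarseModel H I)

theorem P_adjoint (i : I) : adjoint (X.P i) = X.P i := by
  apply hb_ext X.b
  rintro ⟨j, k⟩
  apply hb_ext_inner X.b
  rintro ⟨j', k'⟩
  rw [ContinuousLinearMap.adjoint_inner_right, X.P_b, X.P_b]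
  by_cases h : j = i <;> by_cases h' : j' = i
  · simp [h, h']
  · rw [if_neg h', if_pos h, inner_zero_left, hb_inner_ne]
    intro h2
    exact h' ((congrArg Prod.fst h2).trans h)
  · rw [if_pos h', if_neg h, inner_zero_right, hb_inner_ne]
    intro h2
    exact h ((congrArg Prod.fst h2).symm.trans h')
  · simp [h, h']

theorem inner_P (i : I) (x y : H) : ⟪X.P i x, y⟫_ℂ = ⟪x, X.P i y⟫_ℂ := by
  rw [← ContinuousLinearMap.adjoint_inner_right, P_adjoint]

/-- `T` has propagation at most `R`. -/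
def PropLe (R : ℝ) (T : H →L[ℂ] H) : Prop :=
  ∀ i j, R < X.D i j → ∀ k l, ⟪X.b (i, k), T (X.b (j, l))⟫_ℂ = 0

/-- `T` is locally compact. -/
def LC (T : H →L[ℂ] H) : Prop :=
  ∀ i, IsCompactOperator (X.P i ∘L T) ∧ IsCompactOperator (T ∘L X.P i)

variable {X}

theorem PropLe.mono {R R' : ℝ} {T : H →L[ℂ] H} (h : X.PropLe R T) (hR : R ≤ R') :
    X.PropLe R' T := fun i j hij => h i j (hR.trans_lt hij)

theorem PropLe.mul {R R' : ℝ} {S T : H →L[ℂ] H} (h : X.PropLe R S) (h' : X.PropLe R' T) :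
    X.PropLe (R + R') (S * T) := by
  intro i j hij k l
  rw [mul_apply_eq_comp, ← ContinuousLinearMap.adjoint_inner_left,
    ← X.b.tsum_inner_mul_inner]
  have : ∀ x : I × ℕ, ⟪adjoint S (X.b (i, k)), X.b x⟫_ℂ * ⟪X.b x, T (X.b (j, l))⟫_ℂ = 0 := by
    rintro ⟨c, m⟩
    by_cases hc : R < X.D i c
    · rw [ContinuousLinearMap.adjoint_inner_left, h i c hc, zero_mul]
    · by_cases hc' : R' < X.D c j
      · rw [h' c j hc', mul_zero]
      · exfalso
        have := X.D_tri i c j
        linarith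
  simp_rw [this, tsum_zero]

theorem PropLe.adjoint {R : ℝ} {T : H →L[ℂ] H} (h : X.PropLe R T) :
    X.PropLe R (adjoint T) := by
  intro i j hij k l
  rw [ContinuousLinearMap.adjoint_inner_right, ← inner_conj_symm,
    h j i (by rwa [X.D_symm]), map_zero]

theorem P_mul_eq {R : ℝ} {V : H →L[ℂ] H} (h : X.PropLe R V) (i : I) :
    X.P i * V = ∑ k ∈ (X.fin i R).toFinset, X.P i * V * X.P k := by
  apply hb_ext X.b
  rintro ⟨j, l⟩
  rw [sum_apply]
  simp only [mul_apply_eq_comp, X.P_b]
  have e : ∀ k, X.P i (V (if j = k then X.b (j, l) else 0)) =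
      if j = k then X.P i (V (X.b (j, l))) else 0 := by
    intro k
    split_ifs
    · rfl
    · rw [map_zero, map_zero]
  simp_rw [e]
  rw [Finset.sum_ite_eq]
  split_ifs with hj
  · rfl
  · have hj' : R < X.D i j := by
      by_contra hc
      exact hj (by simpa using hc)
    apply hb_ext_inner X.b
    rintro ⟨i', k⟩
    rw [← inner_P, X.P_b, inner_zero_right]
    split_ifs with h2
    · rw [h2]; exact h i j hj' k l
    · rw [inner_zero_left]

theorem mul_P_eq {R : ℝ} {V : H →L[ℂ] H} (h : X.PropLe R V) (i : I) :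
    V * X.P i = ∑ k ∈ (X.fin i R).toFinset, X.P k * V * X.P i := by
  have h1 := congrArg ContinuousLinearMap.adjoint (P_mul_eq h.adjoint i)
  rw [map_sum] at h1
  have e : ∀ S T : H →L[ℂ] H, ContinuousLinearMap.adjoint (S * T) =
      ContinuousLinearMap.adjoint T * ContinuousLinearMap.adjoint S := fun S T =>
    ContinuousLinearMap.adjoint_comp S T
  simp only [e, P_adjoint, ContinuousLinearMap.adjoint_adjoint] at h1
  rw [h1]
  refine Finset.sum_congr rfl fun k _ => ?_
  rw [mul_assoc]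

theorem isCompact_sum {ι : Type*} {E F : Type*} [NormedAddCommGroup E] [NormedSpace ℂ E]
    [NormedAddCommGroup F] [NormedSpace ℂ F] (s : Finset ι) (f : ι → E →L[ℂ] F)
    (h : ∀ i ∈ s, IsCompactOperator (f i)) : IsCompactOperator (∑ i ∈ s, f i : E →L[ℂ] F) := by
  classical
  induction s using Finset.induction_on with
  | empty =>
    rw [Finset.sum_empty]
    exact isCompactOperator_zero
  | insert a s ha ih =>
    rw [Finset.sum_insert ha]
    exact (h a (Finset.mem_insert_self _ _)).add (ih fun i hi => h i (Finset.mem_insert_of_mem hi))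

theorem LC.mul_left {R : ℝ} {V T : H →L[ℂ] H} (h : X.PropLe R V) (hT : X.LC T) :
    X.LC (V * T) := by
  intro i
  constructor
  · have : X.P i ∘L (V * T) = ∑ k ∈ (X.fin i R).toFinset, (X.P i * V) ∘L (X.P k ∘L T) := by
      have h1 := congrArg (fun S => S * T) (P_mul_eq h i)
      simp only [Finset.sum_mul] at h1
      exact h1
    rw [this]
    exact isCompact_sum _ _ fun k _ => ((hT k).1).clm_comp (X.P i * V)
  · exact ((hT i).2).clm_comp V

theorem LC.mul_right {R : ℝ} {V T : H →L[ℂ] H} (h : X.PropLe R V) (hT : X.LC T) :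
    X.LC (T * V) := by
  intro i
  constructor
  · exact ((hT i).1).comp_clm V
  · have : (T * V) ∘L X.P i = ∑ k ∈ (X.fin i R).toFinset, (T ∘L X.P k) ∘L (V * X.P i) := by
      have h1 := congrArg (fun S => T * S) (mul_P_eq h i)
      simp only [Finset.mul_sum] at h1
      exact h1
    rw [this]
    exact isCompact_sum _ _ fun k _ => ((hT k).2).comp_clm _

theorem LC.add {S T : H →L[ℂ] H} (hS : X.LC S) (hT : X.LC T) : X.LC (S + T) := by
  intro i
  constructor
  · have : X.P i ∘L (S + T) = X.P i ∘L S + X.P i ∘L T := by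
      rw [ContinuousLinearMap.comp_add]
    rw [this]
    exact (hS i).1.add (hT i).1
  · have : (S + T) ∘L X.P i = S ∘L X.P i + T ∘L X.P i := by
      rw [ContinuousLinearMap.add_comp]
    rw [this]
    exact (hS i).2.add (hT i).2

theorem LC.smul {T : H →L[ℂ] H} (c : ℂ) (hT : X.LC T) : X.LC (c • T) := by
  intro i
  constructor
  · have : X.P i ∘L (c • T) = c • (X.P i ∘L T) := by
      rw [ContinuousLinearMap.comp_smul]
    rw [this]
    exact (hT i).1.smul c
  · have : (c • T) ∘L X.P i = c • (T ∘L X.P i) := by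
      rw [ContinuousLinearMap.smul_comp]
    rw [this]
    exact (hT i).2.smul c

variable (X)

/-- The locally compact operators of finite propagation. -/
def preRoe : NonUnitalSubalgebra ℂ (H →L[ℂ] H) where
  carrier := {T | (∃ R, X.PropLe R T) ∧ X.LC T}
  add_mem' := by
    rintro S T ⟨⟨R, h1⟩, h2⟩ ⟨⟨R', h3⟩, h4⟩
    refine ⟨⟨max R R', fun i j hij k l => ?_⟩, h2.add h4⟩
    rw [add_apply, inner_add_right, h1 i j ((le_max_left _ _).trans_lt hij),
      h3 i j ((le_max_right _ _).trans_lt hij), add_zero]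
  zero_mem' := by
    refine ⟨⟨0, fun i j _ k l => ?_⟩, fun i => ⟨?_, ?_⟩⟩
    · rw [zero_apply, inner_zero_right]
    · rw [ContinuousLinearMap.comp_zero]; exact isCompactOperator_zero
    · rw [ContinuousLinearMap.zero_comp]; exact isCompactOperator_zero
  mul_mem' := by
    rintro S T ⟨⟨R, h1⟩, h2⟩ ⟨⟨R', h3⟩, h4⟩
    exact ⟨⟨R + R', h1.mul h3⟩, h4.mul_left h1⟩
  smul_mem' := by
    rintro c T ⟨⟨R, h1⟩, h2⟩
    refine ⟨⟨R, fun i j hij k l => ?_⟩, h2.smul c⟩
    rw [smul_apply, inner_smul_right, h1 i j hij, mul_zero]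

variable {X}

theorem mem_preRoe {T : H →L[ℂ] H} : T ∈ X.preRoe ↔ (∃ R, X.PropLe R T) ∧ X.LC T := Iff.rfl

variable (X)

/-- The discrete Roe algebra. -/
noncomputable def roe : NonUnitalSubalgebra ℂ (H →L[ℂ] H) := X.preRoe.topologicalClosure

variable {X}

theorem roe_isClosed : IsClosed (X.roe : Set (H →L[ℂ] H)) :=
  NonUnitalSubalgebra.isClosed_topologicalClosure _

theorem preRoe_le : X.preRoe ≤ X.roe := NonUnitalSubalgebra.le_topologicalClosure _

theorem closure_map {f : (H →L[ℂ] H) → (H →L[ℂ] H)} (hf : Continuous f)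
    (h : ∀ T ∈ X.preRoe, f T ∈ X.roe) {T : H →L[ℂ] H} (hT : T ∈ X.roe) : f T ∈ X.roe := by
  have h1 : T ∈ closure (X.preRoe : Set (H →L[ℂ] H)) := hT
  have h2 : Set.MapsTo f (X.preRoe : Set (H →L[ℂ] H)) (X.roe : Set (H →L[ℂ] H)) := h
  have h3 := h2.closure hf
  rw [roe_isClosed.closure_eq] at h3
  exact h3 h1

theorem mem_idealizer_of_propLe {R : ℝ} {V : H →L[ℂ] H} (h : X.PropLe R V) :
    V ∈ KT.idealizer X.roe := by
  intro T hT
  constructor
  · exact closure_map (f := fun T => V * T) (by fun_prop) (fun T hT => preRoe_le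
      ⟨by obtain ⟨R', h'⟩ := hT.1; exact ⟨_, h.mul h'⟩, hT.2.mul_left h⟩) hT
  · exact closure_map (f := fun T => T * V) (by fun_prop) (fun T hT => preRoe_le
      ⟨by obtain ⟨R', h'⟩ := hT.1; exact ⟨_, h'.mul h⟩, hT.2.mul_right h⟩) hT

end CoarseModel

end Pool.Agent.H368.Coarse
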