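import Pool.Agent.H368.WC.Model

/-!
# The swindle for discrete Roe algebras
-/

set_option autoImplicit false

namespace Pool.Agent.H368.Coarse

open scoped InnerProductSpace ENNReal

variable {H : Type*} [NormedAddCommGroup H] [InnerProductSpace ℂ H] [CompleteSpace H]
variable {I : Type*} [DecidableEq I]

/-- The data for the swindle: maps `π n : I → I` which are uniformly coarse, leave every finite
set and start near the identity. -/
structure Flasque (X : CoarseModel H I) where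
  π : ℕ → I → I
  K : ℝ
  hK : 0 < K
  lip : ∀ n i j, X.D (π n i) (π n j) ≤ K * X.D i j + K
  close : ∀ n i, X.D (π n i) (π (n + 1) i) ≤ K
  zero : ∀ i, X.D (π 0 i) i ≤ K
  fin : ∀ i, {p : ℕ × I | π p.1 p.2 = i}.Finite

namespace Flasque

variable {X : CoarseModel H I} (F : Flasque X) [Encodable I]

/-- The injection of index sets. -/
def θ (n : ℕ) (x : I × ℕ) : I × ℕ := (F.π n x.1, Encodable.encode (n, x.1, x.2))

theorem θ_inj {n m : ℕ} {x y : I × ℕ} (h : F.θ n x = F.θ m y) : n = m ∧ x = y := by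
  have h1 := congrArg Prod.snd h
  have h2 := Encodable.encode_injective h1
  simp only [Prod.mk.injEq] at h2
  exact ⟨h2.1, Prod.ext h2.2.1 h2.2.2⟩

theorem orthonormal_θ (n : ℕ) : Orthonormal ℂ (fun x => X.b (F.θ n x)) :=
  X.b.orthonormal.comp _ fun _ _ h => (F.θ_inj h).2

/-- The isometry given by the injection of index sets. -/
noncomputable def V (n : ℕ) : H →ₗᵢ[ℂ] H :=
  ((F.orthonormal_θ n).orthogonalFamily.linearIsometry).comp X.b.repr.toLinearIsometry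

theorem V_b (n : ℕ) (x : I × ℕ) : F.V n (X.b x) = X.b (F.θ n x) := by
  show (F.orthonormal_θ n).orthogonalFamily.linearIsometry (X.b.repr (X.b x)) = _
  rw [X.b.repr_self]
  have := (F.orthonormal_θ n).orthogonalFamily.linearIsometry_apply_single (i := x) (1 : ℂ)
  rw [this]
  simp

theorem V_orthogonal : OrthogonalFamily ℂ (fun _ : ℕ => H) (fun n => F.V n) := by
  intro n m hnm x y
  have h1 : ∀ x, ∀ y, ⟪F.V n (X.b x), F.V m (X.b y)⟫_ℂ = 0 := by
    intro x y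
    rw [V_b, V_b]
    exact hb_inner_ne _ fun h => hnm (F.θ_inj h).1
  have h2 : (ContinuousLinearMap.adjoint (F.V n).toContinuousLinearMap) ∘L
      (F.V m).toContinuousLinearMap = 0 := by
    apply hb_ext X.b
    intro y
    apply hb_ext_inner X.b
    intro x
    rw [ContinuousLinearMap.comp_apply, ContinuousLinearMap.adjoint_inner_right, zero_apply,
      inner_zero_right]
    exact h1 x y
  have h3 : (ContinuousLinearMap.adjoint (F.V n).toContinuousLinearMap)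
      ((F.V m).toContinuousLinearMap y) = 0 := DFunLike.congr_fun h2 y
  have h4 : ⟪x, (ContinuousLinearMap.adjoint (F.V n).toContinuousLinearMap)
      ((F.V m).toContinuousLinearMap y)⟫_ℂ = 0 := by rw [h3, inner_zero_right]
  rw [ContinuousLinearMap.adjoint_inner_right] at h4
  exact h4

/-- The isometry from the sum of copies. -/
noncomputable def U : L2 H →L[ℂ] H := F.V_orthogonal.linearIsometry.toContinuousLinearMap

/-- Its adjoint. -/
noncomputable def U' : H →L[ℂ] L2 H := ContinuousLinearMap.adjoint F.U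

theorem U_E (n : ℕ) (x : H) : F.U (E n x) = F.V n x :=
  F.V_orthogonal.linearIsometry_apply_single x

theorem U'_U (f : L2 H) : F.U' (F.U f) = f := by
  apply ext_inner_right ℂ
  intro g
  rw [U', ContinuousLinearMap.adjoint_inner_left]
  exact F.V_orthogonal.linearIsometry.inner_map_map f g

theorem U'_θ (n : ℕ) (x : I × ℕ) : F.U' (X.b (F.θ n x)) = E n (X.b x) := by
  rw [← V_b, ← U_E, U'_U]

theorem U'_ne {y : I × ℕ} (h : ∀ n x, F.θ n x ≠ y) : F.U' (X.b y) = 0 := by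
  have h1 : (ContinuousLinearMap.adjoint F.U') = F.U := by
    rw [U', ContinuousLinearMap.adjoint_adjoint]
  apply ext_inner_right ℂ
  intro g
  rw [← ContinuousLinearMap.adjoint_inner_right, h1, inner_zero_left]
  have h2 : (innerSL ℂ (X.b y)) ∘L F.U = 0 := by
    apply L2_ext
    intro n x
    rw [ContinuousLinearMap.comp_apply, U_E, zero_apply]
    have h3 : (innerSL ℂ (X.b y)) ∘L (F.V n).toContinuousLinearMap = 0 := by
      apply hb_ext X.b
      intro z
      show ⟪X.b y, F.V n (X.b z)⟫_ℂ = 0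
      rw [V_b]
      exact hb_inner_ne _ fun h' => h n z h'.symm
    exact DFunLike.congr_fun h3 x
  exact DFunLike.congr_fun h2 g

/-- `Σₙ Vₙ T Vₙ*`. -/
noncomputable def ψ (T : H →L[ℂ] H) : H →L[ℂ] H := F.U ∘L amp T ∘L F.U'

/-- The shift `Σₙ Vₙ₊₁ Vₙ*`. -/
noncomputable def W : H →L[ℂ] H := F.U ∘L sh ∘L F.U'

/-- The adjoint of the shift. -/
noncomputable def W' : H →L[ℂ] H := F.U ∘L sh' ∘L F.U'

/-- `Σₙ Vₙ₊₁ T Vₙ₊₁*`. -/
noncomputable def φ (T : H →L[ℂ] H) : H →L[ℂ] H := F.U ∘L sh ∘L amp T ∘L sh' ∘L F.U'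

/-- The first isometry. -/
noncomputable def V0 : H →L[ℂ] H := F.U ∘L E 0

/-- Its adjoint. -/
noncomputable def V0' : H →L[ℂ] H := ev 0 ∘L F.U'

theorem adjoint_V0 : ContinuousLinearMap.adjoint F.V0 = F.V0' := by
  rw [V0, ContinuousLinearMap.adjoint_comp, adjoint_E]
  rfl

theorem adjoint_W : ContinuousLinearMap.adjoint F.W = F.W' := by
  rw [W, ContinuousLinearMap.adjoint_comp, ContinuousLinearMap.adjoint_comp, U',
    ContinuousLinearMap.adjoint_adjoint]
  rfl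

theorem V0'_V0 : F.V0' * F.V0 = 1 := by
  ext1 x
  show ev 0 (F.U' (F.U (E 0 x))) = x
  rw [U'_U, ev_E_self]

theorem W'_W (x : H) : F.W' (F.W x) = F.U (F.U' x) := by
  show F.U (sh' (F.U' (F.U (sh (F.U' x))))) = _
  rw [U'_U, sh'_sh_apply]

theorem W_W'_W : F.W * F.W' * F.W = F.W := by
  ext1 x
  rw [mul_apply_eq_comp, mul_apply_eq_comp, W'_W]
  show F.U (sh (F.U' (F.U (F.U' x)))) = _
  rw [U'_U]
  rfl

theorem W'_W_W' : F.W' * F.W * F.W' = F.W' := by
  ext1 x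
  rw [mul_apply_eq_comp, mul_apply_eq_comp, W'_W]
  show F.U (F.U' (F.U (sh' (F.U' x)))) = _
  rw [U'_U]
  rfl

theorem ψ_eq (T : H →L[ℂ] H) : F.V0 * T * F.V0' + F.φ T = F.ψ T := by
  ext1 x
  have h := DFunLike.congr_fun (amp_decomp T) (F.U' x)
  show F.U (E 0 (T (ev 0 (F.U' x)))) + F.U (sh (amp T (sh' (F.U' x)))) = F.U (amp T (F.U' x))
  rw [← map_add]
  exact congrArg F.U h

theorem φ_eq (T : H →L[ℂ] H) : F.φ T = F.W * F.ψ T * F.W' := by
  ext1 x
  show F.U (sh (amp T (sh' (F.U' x)))) =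
    F.U (sh (F.U' (F.U (amp T (F.U' (F.U (sh' (F.U' x))))))))
  rw [U'_U, U'_U]

theorem V0'_φ (T : H →L[ℂ] H) : F.V0' * F.φ T = 0 := by
  ext1 x
  show ev 0 (F.U' (F.U (sh (amp T (sh' (F.U' x)))))) = 0
  rw [U'_U, ev_zero_sh]

theorem φ_V0 (T : H →L[ℂ] H) : F.φ T * F.V0 = 0 := by
  ext1 x
  show F.U (sh (amp T (sh' (F.U' (F.U (E 0 x)))))) = 0
  rw [U'_U, sh'_E_zero, map_zero, map_zero, map_zero]

theorem W'_W_ψ (T : H →L[ℂ] H) : F.W' * F.W * F.ψ T = F.ψ T := by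
  ext1 x
  rw [mul_apply_eq_comp, mul_apply_eq_comp, W'_W]
  show F.U (F.U' (F.U (amp T (F.U' x)))) = F.U (amp T (F.U' x))
  rw [U'_U]

theorem ψ_W'_W (T : H →L[ℂ] H) : F.ψ T * (F.W' * F.W) = F.ψ T := by
  ext1 x
  rw [mul_apply_eq_comp, mul_apply_eq_comp, W'_W]
  show F.U (amp T (F.U' (F.U (F.U' x)))) = F.U (amp T (F.U' x))
  rw [U'_U]

theorem φ_mul (S T : H →L[ℂ] H) : F.φ (S * T) = F.φ S * F.φ T := by
  ext1 x
  show F.U (sh (amp (S * T) (sh' (F.U' x)))) =
    F.U (sh (amp S (sh' (F.U' (F.U (sh (amp T (sh' (F.U' x)))))))))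
  rw [U'_U, sh'_sh_apply, amp_mul]
  rfl

theorem φ_add (S T : H →L[ℂ] H) : F.φ (S + T) = F.φ S + F.φ T := by
  ext1 x
  show F.U (sh (amp (S + T) (sh' (F.U' x)))) =
    F.U (sh (amp S (sh' (F.U' x)))) + F.U (sh (amp T (sh' (F.U' x))))
  rw [amp_add, add_apply, map_add, map_add]

theorem φ_smul (c : ℂ) (T : H →L[ℂ] H) : F.φ (c • T) = c • F.φ T := by
  ext1 x
  show F.U (sh (amp (c • T) (sh' (F.U' x)))) = c • F.U (sh (amp T (sh' (F.U' x))))
  rw [amp_smul, smul_apply, map_smul, map_smul]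

theorem φ_zero : F.φ 0 = 0 := by
  have := F.φ_smul 0 0
  rwa [zero_smul, zero_smul] at this

theorem norm_le_one_aux {E F : Type*} [NormedAddCommGroup E] [InnerProductSpace ℂ E]
    [NormedAddCommGroup F] [InnerProductSpace ℂ F] (U : E →ₗᵢ[ℂ] F) :
    ‖U.toContinuousLinearMap‖ ≤ 1 := U.norm_toContinuousLinearMap_le

theorem norm_U : ‖F.U‖ ≤ 1 := norm_le_one_aux _

theorem norm_U' : ‖F.U'‖ ≤ 1 := by
  rw [U', LinearIsometryEquiv.norm_map]
  exact F.norm_U

theorem norm_sh : ‖(sh : L2 H →L[ℂ] L2 H)‖ ≤ 1 := norm_le_one_aux _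

theorem norm_sh' : ‖(sh' : L2 H →L[ℂ] L2 H)‖ ≤ 1 := by
  rw [sh', LinearIsometryEquiv.norm_map]
  exact norm_sh

theorem norm_φ (T : H →L[ℂ] H) : ‖F.φ T‖ ≤ 1 * ‖T‖ := by
  refine ContinuousLinearMap.opNorm_le_bound _ (by positivity) fun x => ?_
  calc ‖F.U (sh (amp T (sh' (F.U' x))))‖ ≤ 1 * ‖sh (amp T (sh' (F.U' x)))‖ :=
        ContinuousLinearMap.le_of_opNorm_le _ F.norm_U _
    _ ≤ 1 * (1 * ‖amp T (sh' (F.U' x))‖) := by
        gcongr; exact ContinuousLinearMap.le_of_opNorm_le _ norm_sh _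
    _ ≤ 1 * (1 * (‖T‖ * ‖sh' (F.U' x)‖)) := by
        gcongr; exact ContinuousLinearMap.le_of_opNorm_le _ (norm_amp_le T) _
    _ ≤ 1 * (1 * (‖T‖ * (1 * ‖F.U' x‖))) := by
        gcongr; exact ContinuousLinearMap.le_of_opNorm_le _ norm_sh' _
    _ ≤ 1 * (1 * (‖T‖ * (1 * (1 * ‖x‖)))) := by
        gcongr; exact ContinuousLinearMap.le_of_opNorm_le _ F.norm_U' _
    _ = 1 * ‖T‖ * ‖x‖ := by ring

end Flasque

end Pool.Agent.H368.Coarse
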