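import Pool.Agent.H368.WC.Internal

/-!
# Multiplication operators on `L²`
-/

set_option autoImplicit false

namespace Pool.Agent.H368.WC

open MeasureTheory Filter Topology
open scoped ZeroAtInfty ENNReal NNReal InnerProductSpace

variable {X : Type*} [TopologicalSpace X] [MeasurableSpace X] {ν : Measure X}

theorem coeFn_mulL (f : X → ℂ) (hf : MemLp f ∞ ν) (g : Lp ℂ 2 ν) :
    mulL ν f hf g =ᵐ[ν] fun x => f x * g x := by
  have h1 := (ContinuousLinearMap.mul ℂ ℂ).coeFn_holder (r := 2) (hf.toLp f) g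
  have h2 := hf.coeFn_toLp
  have h3 : mulL ν f hf g = (ContinuousLinearMap.mul ℂ ℂ).holder 2 (hf.toLp f) g := rfl
  rw [h3]
  filter_upwards [h1, h2] with x h4 h5
  rw [h4, h5]
  rfl

theorem mulL_comp (f g h : X → ℂ) (hf : MemLp f ∞ ν) (hg : MemLp g ∞ ν) (hh : MemLp h ∞ ν)
    (e : ∀ x, f x * g x = h x) : mulL ν f hf ∘L mulL ν g hg = mulL ν h hh := by
  ext1 u
  apply Lp.ext
  show mulL ν f hf (mulL ν g hg u) =ᵐ[ν] _
  filter_upwards [coeFn_mulL f hf (mulL ν g hg u), coeFn_mulL g hg u, coeFn_mulL h hh u]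
    with x h1 h2 h3
  rw [h1, h2, h3, ← e, mul_assoc]

theorem mulL_comp_zero (f g : X → ℂ) (hf : MemLp f ∞ ν) (hg : MemLp g ∞ ν)
    (e : ∀ x, f x * g x = 0) : mulL ν f hf ∘L mulL ν g hg = 0 := by
  ext1 u
  apply Lp.ext
  show mulL ν f hf (mulL ν g hg u) =ᵐ[ν] ((0 : Lp ℂ 2 ν) : X → ℂ)
  filter_upwards [coeFn_mulL f hf (mulL ν g hg u), coeFn_mulL g hg u, Lp.coeFn_zero ℂ 2 ν]
    with x h1 h2 h3
  rw [h1, h2, h3, ← mul_assoc, e, zero_mul]
  rfl

theorem norm_mulL_le (f : X → ℂ) (hf : MemLp f ∞ ν) {C : ℝ} (hC : 0 ≤ C)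
    (h : ∀ x, ‖f x‖ ≤ C) : ‖mulL ν f hf‖ ≤ C := by
  apply ContinuousLinearMap.opNorm_le_bound _ hC
  intro u
  apply Lp.norm_le_mul_norm_of_ae_le_mul
  filter_upwards [coeFn_mulL f hf u] with x h1
  rw [h1, norm_mul]
  gcongr
  exact h x

theorem inner_mulL (f : X → ℂ) (hf : MemLp f ∞ ν) (hr : ∀ x, star (f x) = f x)
    (u v : Lp ℂ 2 ν) : ⟪mulL ν f hf u, v⟫_ℂ = ⟪u, mulL ν f hf v⟫_ℂ := by
  rw [L2.inner_def, L2.inner_def]
  apply integral_congr_ae
  filter_upwards [coeFn_mulL f hf u, coeFn_mulL f hf v] with x h1 h2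
  rw [h1, h2]
  simp only [RCLike.inner_apply, map_mul]
  have h3 : (starRingEnd ℂ) (f x) = f x := hr x
  rw [h3]
  ring

/-- Indicator functions are essentially bounded. -/
theorem memLp_ind (ν : Measure X) {Q : Set X} (hQ : MeasurableSet Q) :
    MemLp (Q.indicator (fun _ => (1 : ℂ))) ∞ ν :=
  memLp_top_of_bound ((measurable_const.indicator hQ).aestronglyMeasurable) 1
    (Eventually.of_forall fun x => by
      by_cases hx : x ∈ Q <;> simp [hx])

/-- Multiplication by an indicator function. -/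
noncomputable def proj (ν : Measure X) {Q : Set X} (hQ : MeasurableSet Q) :
    Lp ℂ 2 ν →L[ℂ] Lp ℂ 2 ν :=
  mulL ν (Q.indicator (fun _ => (1 : ℂ))) (memLp_ind ν hQ)

theorem coeFn_proj {Q : Set X} (hQ : MeasurableSet Q) (u : Lp ℂ 2 ν) :
    proj ν hQ u =ᵐ[ν] fun x => Q.indicator u x := by
  filter_upwards [coeFn_mulL _ (memLp_ind ν hQ) u] with x h1
  have h2 : proj ν hQ u x = mulL ν (Q.indicator (fun _ => (1 : ℂ))) (memLp_ind ν hQ) u x := rfl
  rw [h2, h1]
  by_cases hx : x ∈ Q <;> simp [hx]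

theorem proj_idem {Q : Set X} (hQ : MeasurableSet Q) : proj ν hQ ∘L proj ν hQ = proj ν hQ := by
  apply mulL_comp
  intro x
  by_cases hx : x ∈ Q <;> simp [hx]

theorem proj_disj {Q Q' : Set X} (hQ : MeasurableSet Q) (hQ' : MeasurableSet Q')
    (h : Disjoint Q Q') : proj ν hQ ∘L proj ν hQ' = 0 := by
  apply mulL_comp_zero
  intro x
  by_cases hx : x ∈ Q
  · have : x ∉ Q' := fun h2 => (Set.disjoint_left.1 h) hx h2
    simp [this]
  · simp [hx]

theorem inner_proj {Q : Set X} (hQ : MeasurableSet Q) (u v : Lp ℂ 2 ν) :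
    ⟪proj ν hQ u, v⟫_ℂ = ⟪u, proj ν hQ v⟫_ℂ := by
  apply inner_mulL
  intro x
  by_cases hx : x ∈ Q <;> simp [hx]

variable [BorelSpace X] [SecondCountableTopology X]

theorem LmulOp_comp_proj_comm (f : C₀(X, ℂ)) {Q : Set X} (hQ : MeasurableSet Q) :
    LmulOp ν f ∘L proj ν hQ = proj ν hQ ∘L LmulOp ν f := by
  have hb : MemLp (fun x => f x * Q.indicator (fun _ => (1 : ℂ)) x) ∞ ν :=
    memLp_top_of_bound (f.continuous.aestronglyMeasurable.mul
      (measurable_const.indicator hQ).aestronglyMeasurable) ‖f‖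
      (Eventually.of_forall fun x => by
        have := f.toBCF.norm_coe_le_norm x
        by_cases hx : x ∈ Q
        · simpa [hx] using this
        · simp [hx])
  have h1 := mulL_comp (ν := ν) f (Q.indicator (fun _ => (1 : ℂ))) _ (memLp_top ν f)
    (memLp_ind ν hQ) hb fun x => rfl
  have h2 := mulL_comp (ν := ν) (Q.indicator (fun _ => (1 : ℂ))) f _
    (memLp_ind ν hQ) (memLp_top ν f) hb fun x => mul_comm _ _
  exact h1.trans h2.symm

theorem LmulOp_comp_proj_eq (f : C₀(X, ℂ)) {Q : Set X} (hQ : MeasurableSet Q)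
    (h : ∀ x ∈ Q, f x = 1) : LmulOp ν f ∘L proj ν hQ = proj ν hQ := by
  apply mulL_comp
  intro x
  by_cases hx : x ∈ Q
  · simp [hx, h x hx]
  · simp [hx]

theorem LmulOp_comp_proj_zero (f : C₀(X, ℂ)) {Q : Set X} (hQ : MeasurableSet Q)
    (h : ∀ x ∈ Q, f x = 0) : LmulOp ν f ∘L proj ν hQ = 0 := by
  apply mulL_comp_zero
  intro x
  by_cases hx : x ∈ Q
  · simp [h x hx]
  · simp [hx]

end Pool.Agent.H368.WC
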