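import Pool.Agent.H368.WC.ConeFlasque

/-!
# From `Lp` to `L2`
-/

set_option autoImplicit false

namespace Pool.Agent.H368.WC

open MeasureTheory Filter Topology
open scoped ZeroAtInfty ENNReal NNReal

variable {X : Type} [MeasurableSpace X] [TopologicalSpace X] [BorelSpace X]
  [SecondCountableTopology X]

theorem mulOp_eq (ν : Measure X) (f : C₀(X, ℂ)) : mulOp ν f = LmulOp ν f := by
  apply ContinuousLinearMap.ext
  intro u
  have h1 := (exists_mulOp ν f).choose_spec u
  have h2 := coeFn_mulL f (memLp_top ν f) u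
  apply Lp.ext
  exact h1.trans h2.symm

theorem locallyCompact_iff (ν : Measure X) (T : Lp ℂ 2 ν →L[ℂ] Lp ℂ 2 ν) :
    LocallyCompact ν (T : Op ν) ↔ LLocallyCompact ν T := by
  unfold LocallyCompact LLocallyCompact
  refine forall_congr' fun f => ?_
  rw [mulOp_eq]
  rfl

theorem finitePropagation_iff (ν : Measure X) (d : X → X → ℝ) (T : Lp ℂ 2 ν →L[ℂ] Lp ℂ 2 ν) :
    FinitePropagation ν d (T : Op ν) ↔ LFinitePropagation ν d T := by
  unfold FinitePropagation LFinitePropagation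
  simp only [mulOp_eq, mul_assoc]
  rfl

/-- A closed subalgebra of operators, as a Banach algebra. -/
theorem transfer_aux {H : Type} [NormedAddCommGroup H] [InnerProductSpace ℂ H] [CompleteSpace H]
    (A : NonUnitalSubalgebra ℂ (H →L[ℂ] H)) (hA : IsClosed (A : Set (H →L[ℂ] H)))
    (h : ∀ n : ℕ, KT.KTop n A = ⊥) :
    ∃ (A' : Type) (_ : BanachAlg A') (ι : A' → (H →L[ℂ] H)),
      IsIsometricIsoOnto ι (A : Set (H →L[ℂ] H)) ∧ ∀ n : ℕ, Subsingleton (KGroup n A') := by
  have hc : CompleteSpace A := hA.completeSpace_coe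
  let i1 : NonUnitalNormedRing A := inferInstance
  let i2 : NormedSpace ℂ A := inferInstance
  let i3 : BanachAlg A :=
    { smul_mul' := fun c a b => smul_mul_assoc c a b
      mul_smul' := fun c a b => mul_smul_comm c a b }
  exact ⟨A, i3, fun a => a,
    ⟨fun _ _ => rfl, fun _ _ => rfl, fun _ _ => rfl, fun _ => rfl, Subtype.range_coe⟩,
    fun n => KT.subsingleton_KTopGroup n A (h n)⟩

theorem transfer (ν : Measure X) (d : X → X → ℝ)
    (h : ∃ A : NonUnitalSubalgebra ℂ (Lp ℂ 2 ν →L[ℂ] Lp ℂ 2 ν),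
      LIsRoeAlgebra ν d A ∧ ∀ n : ℕ, KT.KTop n A = ⊥) :
    ∃ (A : Type) (_ : BanachAlg A) (ι : A → Op ν),
      IsIsometricIsoOnto ι (roeSet ν d) ∧ ∀ n : ℕ, Subsingleton (KGroup n A) := by
  obtain ⟨A, hA, hK⟩ := h
  have hcl : IsClosed (A : Set (Lp ℂ 2 ν →L[ℂ] Lp ℂ 2 ν)) := by
    rw [LIsRoeAlgebra] at hA
    rw [hA]
    exact isClosed_closure
  obtain ⟨A', i1, ι, h1, h2⟩ := transfer_aux A hcl hK
  refine ⟨A', i1, ι, ?_, h2⟩
  rw [LIsRoeAlgebra] at hA
  have h7 : {T | LLocallyCompact ν T ∧ LFinitePropagation ν d T} =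
      {T : Op ν | LocallyCompact ν T ∧ FinitePropagation ν d T} := by
    ext T
    show LLocallyCompact ν T ∧ LFinitePropagation ν d T ↔
      LocallyCompact ν T ∧ FinitePropagation ν d T
    rw [locallyCompact_iff, finitePropagation_iff]
  rw [hA, h7] at h1
  exact ⟨h1.map_add, h1.map_smul, h1.map_mul, h1.norm_map, h1.range_eq⟩

end Pool.Agent.H368.WC
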