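import Pool.Agent.H368.WC.Defs

/-!
# Existence and universal property of the warped metric
-/

set_option autoImplicit false

namespace Pool.Agent.H368.WC

theorem IsMetric.self {X : Type*} {d : X → X → ℝ} (h : IsMetric d) (p : X) : d p p = 0 :=
  (h.eq_zero_iff p p).2 rfl

theorem IsMetric.nonneg {X : Type*} {d : X → X → ℝ} (h : IsMetric d) (p q : X) : 0 ≤ d p q := by
  have h1 := h.triangle p q p
  rw [h.self, h.symm q p] at h1
  linarith

theorem isMetric_coneDist {M : Type*} [MetricSpace M] (hM : ∀ x y : M, dist x y ≤ 1) :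
    IsMetric (coneDist (M := M)) where
  eq_zero_iff := by
    rintro ⟨x, t, ht⟩ ⟨y, s, hs⟩
    have ht' : (1 : ℝ) ≤ t := ht
    have hs' : (1 : ℝ) ≤ s := hs
    constructor
    · intro h
      have h0 : |t - s| + min t s * dist x y = 0 := h
      have h1 : 0 ≤ |t - s| := abs_nonneg _
      have h2 : 0 ≤ dist x y := dist_nonneg
      have h3 : 1 ≤ min t s := le_min ht' hs'
      have h4 : dist x y ≤ min t s * dist x y := by nlinarith
      have h5 : |t - s| = 0 := by linarith
      have h6 : dist x y = 0 := by linarith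
      have h7 : t = s := by linarith [abs_eq_zero.1 h5]
      subst h7
      rw [dist_eq_zero.1 h6]
    · intro h
      simp only [Prod.mk.injEq, Subtype.mk.injEq] at h
      obtain ⟨rfl, rfl⟩ := h
      show |t - t| + min t t * dist x x = 0
      simp
  symm := by
    rintro ⟨x, t⟩ ⟨y, s⟩
    show |(t : ℝ) - s| + min (t : ℝ) s * dist x y = |(s : ℝ) - t| + min (s : ℝ) t * dist y x
    rw [abs_sub_comm, min_comm, dist_comm]
  triangle := by
    rintro ⟨x, t, ht⟩ ⟨y, s, hs⟩ ⟨z, r, hr⟩
    show |t - r| + min t r * dist x z ≤ (|t - s| + min t s * dist x y) +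
      (|s - r| + min s r * dist y z)
    have ht' : (1 : ℝ) ≤ t := ht
    have hs' : (1 : ℝ) ≤ s := hs
    have hr' : (1 : ℝ) ≤ r := hr
    have h1 := dist_triangle x y z
    have h2 : 0 ≤ dist x y := dist_nonneg
    have h3 : 0 ≤ dist y z := dist_nonneg
    have h4 := hM x z
    have h5 : 0 ≤ dist x z := dist_nonneg
    have h6 := abs_sub_le t s r
    have h7 : 1 ≤ min t r := le_min ht' hr'
    by_cases hc : min t r ≤ s
    · have h8 : min t r ≤ min t s := le_min (min_le_left _ _) hc
      have h9 : min t r ≤ min s r := le_min hc (min_le_right _ _)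
      have h10 : min t r * dist x y ≤ min t s * dist x y := by gcongr
      have h11 : min t r * dist y z ≤ min s r * dist y z := by gcongr
      have h12 : min t r * dist x z ≤ min t r * (dist x y + dist y z) := by gcongr
      linarith
    · push Not at hc
      have h8 : s < t := hc.trans_le (min_le_left _ _)
      have h9 : s < r := hc.trans_le (min_le_right _ _)
      rw [min_eq_right h8.le, min_eq_left h9.le, abs_of_pos (by linarith : 0 < t - s),
        abs_of_neg (by linarith : s - r < 0)]
      have h10 : (min t r - s) * dist x z ≤ min t r - s := by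
        have : 0 < min t r - s := by linarith
        nlinarith
      have h11 : s * dist x z ≤ s * (dist x y + dist y z) := by gcongr
      have h12 : |t - r| + 2 * min t r ≤ t + r := by
        rcases le_total t r with h | h
        · rw [min_eq_left h, abs_of_nonpos (by linarith)]; linarith
        · rw [min_eq_right h, abs_of_nonneg (by linarith)]; linarith
      nlinarith

theorem isConeMetric_coneDist {M : Type*} [MetricSpace M] (hM : ∀ x y : M, dist x y ≤ 1) :
    IsConeMetric (coneDist (M := M)) where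
  isMetric := isMetric_coneDist hM
  bilipschitz := ⟨1, le_rfl, fun p q => by simp⟩

section warped

variable {M G : Type*} [MetricSpace M] [SMul G M] {S : Finset G} {dC d : Cone M → Cone M → ℝ}

theorem min_one_mem (h : IsConeMetric dC) :
    (fun p q => min 1 (dC p q)) ∈ {d' : Cone M → Cone M → ℝ | IsMetric d' ∧
      (∀ p q, d' p q ≤ dC p q) ∧ ∀ s ∈ S, ∀ (x : M) (t : Set.Ici (1 : ℝ)),
        d' (x, t) (s • x, t) ≤ 1} := by
  have hM := h.isMetric
  refine ⟨⟨fun p q => ?_, fun p q => ?_, fun p q r => ?_⟩, fun p q => min_le_right _ _,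
    fun _ _ _ _ => min_le_left _ _⟩
  · constructor
    · intro h1
      rcases min_choice 1 (dC p q) with h2 | h2
      · simp only [h2] at h1
        norm_num at h1
      · simp only [h2] at h1
        exact (hM.eq_zero_iff p q).1 h1
    · rintro rfl
      simp [hM.self]
  · simp only [hM.symm p q]
  · have h1 := hM.triangle p q r
    have h2 := hM.nonneg p q
    have h3 := hM.nonneg q r
    rcases le_total 1 (dC p q) with h4 | h4
    · rw [min_eq_left h4]
      have : 0 ≤ min 1 (dC q r) := le_min zero_le_one h3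
      linarith [min_le_left 1 (dC p r)]
    · rw [min_eq_right h4]
      rcases le_total 1 (dC q r) with h5 | h5
      · rw [min_eq_left h5]
        linarith [min_le_left 1 (dC p r)]
      · rw [min_eq_right h5]
        linarith [min_le_right 1 (dC p r)]

variable (S) in
/-- The warped metric exists. -/
theorem exists_isWarpedMetric (h : IsConeMetric dC) : ∃ d, IsWarpedMetric S dC d := by
  set Z := {d' : Cone M → Cone M → ℝ | IsMetric d' ∧
      (∀ p q, d' p q ≤ dC p q) ∧ ∀ s ∈ S, ∀ (x : M) (t : Set.Ici (1 : ℝ)),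
        d' (x, t) (s • x, t) ≤ 1} with hZ
  have h0 : (fun p q => min 1 (dC p q)) ∈ Z := min_one_mem h
  have hne : Nonempty Z := ⟨⟨_, h0⟩⟩
  have hb : ∀ p q, BddAbove (Set.range fun d' : Z => (d' : Cone M → Cone M → ℝ) p q) := by
    intro p q
    refine ⟨dC p q, ?_⟩
    rintro _ ⟨d', rfl⟩
    exact d'.2.2.1 p q
  refine ⟨fun p q => ⨆ d' : Z, (d' : Cone M → Cone M → ℝ) p q, ⟨⟨fun p q => ?_, fun p q => ?_,
    fun p q r => ?_⟩, fun p q => ?_, fun s hs x t => ?_⟩, fun d' hd' p q => ?_⟩
  · constructor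
    · intro h1
      have h2 := le_ciSup (hb p q) ⟨_, h0⟩
      rw [h1] at h2
      have h3 := h0.1.nonneg p q
      exact (h0.1.eq_zero_iff p q).1 (le_antisymm h2 h3)
    · rintro rfl
      have : ∀ d' : Z, (d' : Cone M → Cone M → ℝ) p p = 0 := fun d' => d'.2.1.self p
      simp only [this]
      exact ciSup_const
  · have : ∀ d' : Z, (d' : Cone M → Cone M → ℝ) p q = (d' : Cone M → Cone M → ℝ) q p :=
      fun d' => d'.2.1.symm p q
    simp only [this]
  · apply ciSup_le
    intro d'
    exact (d'.2.1.triangle p q r).trans (add_le_add (le_ciSup (hb p q) d') (le_ciSup (hb q r) d'))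
  · exact ciSup_le fun d' => d'.2.2.1 p q
  · exact ciSup_le fun d' => d'.2.2.2 s hs x t
  · exact le_ciSup (hb p q) ⟨d', hd'⟩

theorem IsWarpedMetric.isMetric (hd : IsWarpedMetric S dC d) : IsMetric d := hd.1.1

theorem IsWarpedMetric.le (hd : IsWarpedMetric S dC d) (p q : Cone M) : d p q ≤ dC p q :=
  hd.1.2.1 p q

theorem IsWarpedMetric.smul (hd : IsWarpedMetric S dC d) {s : G} (hs : s ∈ S) (x : M)
    (t : Set.Ici (1 : ℝ)) : d (x, t) (s • x, t) ≤ 1 := hd.1.2.2 s hs x t

/-- The level is a Lipschitz function with respect to the warped metric. -/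
theorem IsWarpedMetric.level (hd : IsWarpedMetric S dC d) {C : ℝ}
    (hC1 : 1 ≤ C) (hC2 : ∀ p q, coneDist p q ≤ C * dC p q) (p q : Cone M) :
    |(p.2 : ℝ) - q.2| ≤ C * d p q := by
  have hC0 : 0 < C := by linarith
  have h1 : (fun p q : Cone M => max (|(p.2 : ℝ) - q.2| / C) (d p q)) ∈
      {d' : Cone M → Cone M → ℝ | IsMetric d' ∧
      (∀ p q, d' p q ≤ dC p q) ∧ ∀ s ∈ S, ∀ (x : M) (t : Set.Ici (1 : ℝ)),
        d' (x, t) (s • x, t) ≤ 1} := by
    refine ⟨⟨fun p q => ?_, fun p q => ?_, fun p q r => ?_⟩, fun p q => ?_, fun s hs x t => ?_⟩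
    · constructor
      · intro h
        have h2 : d p q ≤ 0 := (le_max_right _ _).trans_eq h
        exact (hd.isMetric.eq_zero_iff p q).1 (le_antisymm h2 (hd.isMetric.nonneg p q))
      · rintro rfl
        simp [hd.isMetric.self]
    · simp only [hd.isMetric.symm p q, abs_sub_comm (p.2 : ℝ) q.2]
    · apply max_le
      · have h2 : |(p.2 : ℝ) - r.2| / C ≤ |(p.2 : ℝ) - q.2| / C + |(q.2 : ℝ) - r.2| / C := by
          rw [← add_div]
          gcongr
          exact abs_sub_le _ _ _
        exact h2.trans (add_le_add (le_max_left _ _) (le_max_left _ _))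
      · exact (hd.isMetric.triangle p q r).trans (add_le_add (le_max_right _ _) (le_max_right _ _))
    · apply max_le _ (hd.le p q)
      rw [div_le_iff₀ hC0, mul_comm]
      refine le_trans ?_ (hC2 p q)
      show |(p.2 : ℝ) - q.2| ≤ |(p.2 : ℝ) - q.2| + min (p.2 : ℝ) q.2 * dist p.1 q.1
      have hp : (1 : ℝ) ≤ p.2 := p.2.2
      have hq : (1 : ℝ) ≤ q.2 := q.2.2
      have h3 : (1 : ℝ) ≤ min (p.2 : ℝ) q.2 := le_min hp hq
      have : 0 ≤ min (p.2 : ℝ) q.2 * dist p.1 q.1 := mul_nonneg (by linarith) dist_nonneg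
      linarith
    · simp only [sub_self, abs_zero, zero_div]
      exact max_le zero_le_one (hd.smul hs x t)
  have h2 : max (|(p.2 : ℝ) - q.2| / C) (d p q) ≤ d p q := hd.2 h1 p q
  have h3 := (le_max_left _ _).trans h2
  rw [div_le_iff₀ hC0] at h3
  linarith

/-- The universal property of the warped metric. -/
theorem IsWarpedMetric.lipschitz (hd : IsWarpedMetric S dC d) {f : Cone M → Cone M}
    (hf : Function.Injective f) {L : ℝ} (hL : 1 ≤ L) (h1 : ∀ p q, d (f p) (f q) ≤ L * dC p q)
    (h2 : ∀ s ∈ S, ∀ (x : M) (t : Set.Ici (1 : ℝ)), d (f (x, t)) (f (s • x, t)) ≤ L)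
    (p q : Cone M) : d (f p) (f q) ≤ L * d p q := by
  have hL0 : 0 < L := by linarith
  have h3 : (fun p q : Cone M => d (f p) (f q) / L) ∈
      {d' : Cone M → Cone M → ℝ | IsMetric d' ∧
      (∀ p q, d' p q ≤ dC p q) ∧ ∀ s ∈ S, ∀ (x : M) (t : Set.Ici (1 : ℝ)),
        d' (x, t) (s • x, t) ≤ 1} := by
    refine ⟨⟨fun p q => ?_, fun p q => ?_, fun p q r => ?_⟩, fun p q => ?_, fun s hs x t => ?_⟩
    · rw [div_eq_zero_iff, hd.isMetric.eq_zero_iff]
      constructor
      · rintro (h | h)
        · exact hf h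
        · exact absurd h hL0.ne'
      · rintro rfl
        exact Or.inl rfl
    · simp only [hd.isMetric.symm (f p) (f q)]
    · rw [← add_div]
      exact div_le_div_of_nonneg_right (hd.isMetric.triangle _ _ _) hL0.le
    · rw [div_le_iff₀ hL0, mul_comm]
      exact h1 p q
    · rw [div_le_iff₀ hL0, one_mul]
      exact h2 s hs x t
  have h4 : d (f p) (f q) / L ≤ d p q := hd.2 h3 p q
  rw [div_le_iff₀ hL0] at h4
  linarith

end warped

end Pool.Agent.H368.WC
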